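import Pool.Agent.Work.MP_f474fe_lc.PT.Model

/-!
Constant-depth circuits with unbounded fan-in AND, OR and negations, and tests given by polynomial
threshold gates on top of such a circuit.
-/

namespace Pool.Agent.Work.MP_f474fe_lc.PT

/-- `g` is computed by one gate with inputs from `F`: an OR of functions of `F` or their negations,
possibly negated (so AND, OR, NAND, NOR of unbounded fan-in, negations are free). -/
def IsGate {ι : Type} (F : Set ((ι → Bool) → Bool)) (g : (ι → Bool) → Bool) : Prop :=
  ∃ (I : Set (((ι → Bool) → Bool) × Bool)) (c : Bool),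
    (∀ p ∈ I, p.1 ∈ F) ∧ ∀ x, (g x = c ↔ ∃ p ∈ I, p.1 x = p.2)

/-- `Circ D M F`: `F` is the set of functions computed at the nodes (input variables and gates) of a
circuit with `D` layers of gates and at most `M` gates in total; a gate reads inputs and gates of
all lower layers. -/
def Circ {ι : Type} : ℕ → ℕ → Set ((ι → Bool) → Bool) → Prop
  | 0, _, F => F = {f | ∃ i, f = fun x => x i}
  | D + 1, M, F => ∃ (M' : ℕ) (F' : Set ((ι → Bool) → Bool)) (G : Finset ((ι → Bool) → Bool)),
      Circ D M' F' ∧ M' + G.card ≤ M ∧ (∀ g ∈ G, IsGate F' g) ∧ F = F' ∪ G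

open Classical in
/-- `A` is a Boolean function of the signs of `s` real polynomials of degree at most `d` in the
values (0 or 1) of nodes of a circuit with `D` layers and at most `M` gates. -/
def CircTest {ι : Type} (s d D M : ℕ) (A : (ι → Bool) → Bool) : Prop :=
  ∃ (F : Set ((ι → Bool) → Bool)) (r : ℕ) (h : Fin r → (ι → Bool) → Bool)
    (p : Fin s → MvPolynomial (Fin r) ℝ) (g : (Fin s → Bool) → Bool),
    Circ D M F ∧ (∀ j, h j ∈ F) ∧ (∀ i, (p i).totalDegree ≤ d) ∧
      ∀ G, A G = g fun i => decide (0 ≤ MvPolynomial.eval (fun j => if h j G then 1 else 0) (p i))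

end Pool.Agent.Work.MP_f474fe_lc.PT
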