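import Pool.Agent.Work.MP_f474fe_lc.PT.Main
import Pool.Agent.Work.MP_f474fe_lc.PT.ACModel

-- merged part: Pool.Agent.Work.MP_f474fe_lc.PT.ACDefs
section
/-!
Decision tree depth, restrictions to a set of free variables, block-uniform subsets.
-/

set_option linter.unusedSectionVars false

namespace Pool.Agent.Work.MP_f474fe_lc.PT

open Finset BigOperators

variable {ι : Type} [Fintype ι] [DecidableEq ι]

/-- `f` has a decision tree of depth at most `l`. -/
def DT : ℕ → ((ι → Bool) → Bool) → Prop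
  | 0, f => ∀ x y, f x = f y
  | l + 1, f => (∀ x y, f x = f y) ∨ ∃ i, ∀ b, DT l fun x => f (Function.update x i b)

/-- The variables in `W` stay free, the others are set according to `x`. -/
def Rs (W : Finset ι) (x : ι → Bool) (f : (ι → Bool) → Bool) : (ι → Bool) → Bool :=
  fun y => f (W.piecewise y x)

/-- Every accepted input has a certificate of size at most `w`. -/
def Cert (w : ℕ) (g : (ι → Bool) → Bool) : Prop :=
  ∀ x, g x = true → ∃ C : Finset ι, C.card ≤ w ∧ ∀ y, (∀ i ∈ C, y i = x i) → g y = true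

/-- `U` has exactly `b` elements in every block. -/
def Bal {α β : Type} [DecidableEq β] (E : α → β) (U : Finset α) (b : ℕ) : Prop :=
  ∀ j, (U.filter fun v => E v = j).card = b

open Classical in
/-- The subsets of `U` with exactly `b` elements in every block. -/
noncomputable def Sub {α β : Type} [DecidableEq β] (E : α → β) (U : Finset α) (b : ℕ) :
    Finset (Finset α) :=
  U.powerset.filter fun V => Bal E V b

lemma mem_Sub {α β : Type} [DecidableEq β] {E : α → β} {U V : Finset α} {b : ℕ} :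
    V ∈ Sub E U b ↔ V ⊆ U ∧ Bal E V b := by
  simp [Sub]

/-- Expectation over a finite set as expectation over the subtype. -/
lemma expect_sub {X : Type} (s : Finset X) (f : X → ℝ) : 𝔼 z : s, f z = 𝔼 z ∈ s, f z := by
  rw [Fintype.expect_eq_sum_div_card, expect_eq_sum_div_card, Finset.sum_coe_sort s f,
    Fintype.card_coe]

/-- Independent uniform points glued along `W` give a uniform point. -/
lemma expect_piece (W : Finset ι) (F : (ι → Bool) → ℝ) :
    𝔼 x, F x = 𝔼 x, 𝔼 y, F (W.piecewise y x) := by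
  rw [expect_comm]
  exact Sup_piece W F

end Pool.Agent.Work.MP_f474fe_lc.PT
end

-- merged part: Pool.Agent.Work.MP_f474fe_lc.PT.ACBal
section
/-!
Block-uniform subsets: counting, containment probabilities, tower property.

Plan. bal_count: V ↦ (fun j => V.filter (E · = j)) is a bijection onto
Fintype.piFinset (fun j => powersetCard (b j) (U.filter (E · = j))), inverse univ.biUnion
(card_nbij', Fintype.card_piFinset, card_powersetCard).
sub_above: V ↦ V \ D is a bijection from the sets containing D onto the subsets of U \ D with block counts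
b - d j, when D ⊆ U and all d j ≤ b; otherwise the left side is empty.
sub_subprod: pr_eq_card (card of the subtype filter), blockwise Holes_choose
(choose (m - j) (k - j) * m^j ≤ choose m k * k^j) and ∑ j, d j = card D (card_eq_sum_card_fiberwise).
sub_tower: card (Sub E V b') = choose b b' ^ card β for V ∈ Sub E U b, and the number of V ∈ Sub E U b above
V' ∈ Sub E U b' is choose (b0 - b') (b - b') ^ card β; exchange the sums (sum_comm'), and
Nat.choose_mul (choose b0 b * choose b b' = choose b0 b' * choose (b0 - b') (b - b')).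
rect_pr: D ⊆ S ×ˢ T gives image fst ⊆ S and image snd ⊆ T, card D ≤ a * b for the two image cards, so
2 u ≤ a + b; main_pr_and, pow_le_pow_of_le_one.
-/

set_option linter.unusedSectionVars false

namespace Pool.Agent.Work.MP_f474fe_lc.PT

open Finset BigOperators

variable {ι : Type} [Fintype ι] [DecidableEq ι]


variable {α β : Type} [Fintype α] [DecidableEq α] [Fintype β] [DecidableEq β]

open Classical in
theorem bal_count (E : α → β) (U : Finset α) (b : β → ℕ) :
    (U.powerset.filter fun V => ∀ j, (V.filter fun v => E v = j).card = b j).card =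
      ∏ j, (U.filter fun v => E v = j).card.choose (b j) := by
  have h : ∏ j, (U.filter fun v => E v = j).card.choose (b j) =
      (Fintype.piFinset fun j => powersetCard (b j) (U.filter fun v => E v = j)).card := by
    rw [Fintype.card_piFinset]
    simp only [card_powersetCard]
  have key : ∀ W ∈ Fintype.piFinset fun j => powersetCard (b j) (U.filter fun v => E v = j),
      ∀ j, ((univ.biUnion W).filter fun v => E v = j) = W j := by
    intro W hW j
    have h1 : ∀ i, ∀ v ∈ W i, E v = i := fun i v hv =>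
      (mem_filter.1 ((mem_powersetCard.1 (Fintype.mem_piFinset.1 hW i)).1 hv)).2
    ext v
    rw [mem_filter, mem_biUnion]
    constructor
    · rintro ⟨⟨i, -, hi⟩, e⟩
      rwa [← e, h1 i v hi]
    · exact fun hv => ⟨⟨j, mem_univ j, hv⟩, h1 j v hv⟩
  rw [h]
  refine card_nbij' (fun V j => V.filter fun v => E v = j) (fun W => univ.biUnion W) ?_ ?_ ?_ ?_
  · intro V hV
    obtain ⟨h1, h2⟩ := mem_filter.1 (mem_coe.1 hV)
    exact mem_coe.2 (Fintype.mem_piFinset.2 fun j =>
      mem_powersetCard.2 ⟨filter_subset_filter _ (mem_powerset.1 h1), h2 j⟩)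
  · intro W hW
    have h1 := fun j => mem_powersetCard.1 (Fintype.mem_piFinset.1 (mem_coe.1 hW) j)
    refine mem_coe.2 (mem_filter.2 ⟨mem_powerset.2 (biUnion_subset.2 fun j _ =>
      (h1 j).1.trans (filter_subset _ _)), fun j => ?_⟩)
    rw [key W (mem_coe.1 hW) j]
    exact (h1 j).2
  · intro V _
    ext v
    simp
  · intro W hW
    exact funext (key W (mem_coe.1 hW))

lemma ACBal_fib (E : α → β) (V : Finset α) :
    V.card = ∑ j, (V.filter fun v => E v = j).card :=
  card_eq_sum_card_fiberwise fun _ _ => mem_coe.2 (mem_univ _)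

lemma bal_card {E : α → β} {V : Finset α} {b : ℕ} (h : Bal E V b) :
    V.card = Fintype.card β * b := by
  rw [ACBal_fib E V, sum_congr rfl fun j _ => h j, sum_const, card_univ, smul_eq_mul]

lemma card_Sub {E : α → β} {U : Finset α} {b0 : ℕ} (hU : Bal E U b0) (b : ℕ) :
    (Sub E U b).card = b0.choose b ^ Fintype.card β := by
  have h := bal_count E U fun _ => b
  rw [prod_congr rfl fun j _ => congrArg (·.choose b) (hU j), prod_const, card_univ] at h
  rw [← h]
  refine congrArg card ?_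
  ext V
  rw [mem_Sub, mem_filter, mem_powerset]
  rfl

lemma sub_nonempty {E : α → β} {U : Finset α} {b0 b : ℕ} (hU : Bal E U b0) (hb : b ≤ b0) :
    (Sub E U b).Nonempty := by
  rw [← card_pos, card_Sub hU]
  exact Nat.pow_pos (Nat.choose_pos hb)

lemma ACBal_sd (E : α → β) {D V : Finset α} (h : D ⊆ V) (j : β) :
    ((V \ D).filter fun v => E v = j).card =
      (V.filter fun v => E v = j).card - (D.filter fun v => E v = j).card := by
  rw [← card_sdiff_of_subset (filter_subset_filter _ h)]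
  refine congrArg card ?_
  ext v
  simp only [mem_filter, mem_sdiff, not_and]
  exact ⟨fun h => ⟨⟨h.1.1, h.2⟩, fun h1 => absurd h1 h.1.2⟩,
    fun h => ⟨⟨h.1.1, fun h1 => h.2 h1 h.1.2⟩, h.1.2⟩⟩

/-- The number of block-uniform sets above a given set. -/
lemma ACBal_above {E : α → β} {U D : Finset α} {b0 b : ℕ} (hU : Bal E U b0) (hD : D ⊆ U)
    (hd : ∀ j, (D.filter fun v => E v = j).card ≤ b) :
    ((Sub E U b).filter fun V => D ⊆ V).card =
      ∏ j, (b0 - (D.filter fun v => E v = j).card).choose (b - (D.filter fun v => E v = j).card) := by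
  have h := bal_count E (U \ D) fun j => b - (D.filter fun v => E v = j).card
  simp only [ACBal_sd E hD, hU _] at h
  rw [← h]
  refine card_nbij' (fun V => V \ D) (fun W => W ∪ D) ?_ ?_ ?_ ?_
  · intro V hV
    obtain ⟨h1, h2⟩ := mem_filter.1 (mem_coe.1 hV)
    obtain ⟨h3, h4⟩ := mem_Sub.1 h1
    refine mem_coe.2 (mem_filter.2 ⟨mem_powerset.2 (sdiff_subset_sdiff h3 Subset.rfl), fun j => ?_⟩)
    rw [ACBal_sd E h2, h4 j]
  · intro W hW
    obtain ⟨h1, h2⟩ := mem_filter.1 (mem_coe.1 hW)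
    obtain ⟨h3, h4⟩ := subset_sdiff.1 (mem_powerset.1 h1)
    refine mem_coe.2 (mem_filter.2 ⟨mem_Sub.2 ⟨union_subset h3 hD, fun j => ?_⟩, subset_union_right⟩)
    rw [filter_union, card_union_of_disjoint (disjoint_filter_filter h4), h2 j,
      Nat.sub_add_cancel (hd j)]
  · intro V hV
    exact sdiff_union_of_subset (mem_filter.1 (mem_coe.1 hV)).2
  · intro W hW
    exact union_sdiff_cancel_right
      (subset_sdiff.1 (mem_powerset.1 (mem_filter.1 (mem_coe.1 hW)).1)).2

theorem sub_subprod {E : α → β} {U : Finset α} {b0 b : ℕ} (hU : Bal E U b0) (hb : b ≤ b0) :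
    SubProd (fun V : Sub E U b => V.1) ((b : ℝ) / b0) := by
  intro D
  have h1 : (univ.filter fun V : Sub E U b => D ⊆ V.1).card ≤
      ((Sub E U b).filter fun V => D ⊆ V).card :=
    card_le_card_of_injOn Subtype.val
      (fun V hV => mem_coe.2 (mem_filter.2 ⟨V.2, (mem_filter.1 (mem_coe.1 hV)).2⟩))
      Subtype.val_injective.injOn
  rw [pr_eq_card, Fintype.card_coe, card_Sub hU]
  by_cases h : D ⊆ U ∧ ∀ j, (D.filter fun v => E v = j).card ≤ b
  · rw [ACBal_above hU h.1 h.2] at h1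
    have h2 := prod_le_prod' (s := univ) fun j _ => Holes_choose hb (h.2 j)
    rw [prod_mul_distrib, prod_mul_distrib, prod_pow_eq_pow_sum, prod_pow_eq_pow_sum,
      ← ACBal_fib, prod_const, card_univ] at h2
    have h3 := (Nat.mul_le_mul_right _ h1).trans h2
    have h4 : 0 < b0 ^ D.card := by
      rcases Nat.eq_zero_or_pos b0 with h5 | h5
      · rw [ACBal_fib E D, sum_eq_zero fun j _ => by have := h.2 j; omega, pow_zero]
        exact one_pos
      · exact Nat.pow_pos h5
    rw [div_pow, div_le_div_iff₀ (by exact_mod_cast Nat.pow_pos (Nat.choose_pos hb))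
      (by exact_mod_cast h4), mul_comm ((b : ℝ) ^ _)]
    exact_mod_cast h3
  · rw [filter_eq_empty_iff.2, card_empty, Nat.cast_zero, zero_div]
    · positivity
    · intro V _ hV
      obtain ⟨h3, h4⟩ := mem_Sub.1 V.2
      exact h ⟨hV.trans h3, fun j => (card_le_card (filter_subset_filter _ hV)).trans_eq (h4 j)⟩

theorem sub_tower {E : α → β} {U : Finset α} {b0 b b' : ℕ} (hU : Bal E U b0) (hb : b ≤ b0)
    (hb' : b' ≤ b) (Φ : Finset α → ℝ) :
    𝔼 V ∈ Sub E U b, 𝔼 V' ∈ Sub E V b', Φ V' = 𝔼 V' ∈ Sub E U b', Φ V' := by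
  have h1 : ∑ V ∈ Sub E U b, ∑ V' ∈ Sub E V b', Φ V' =
      ∑ V' ∈ Sub E U b', ∑ _V ∈ (Sub E U b).filter fun V => V' ⊆ V, Φ V' := by
    refine sum_comm' fun V V' => ?_
    simp only [mem_filter, mem_Sub]
    exact ⟨fun h => ⟨⟨h.1, h.2.1⟩, h.2.1.trans h.1.1, h.2.2⟩, fun h => ⟨h.1.1, h.1.2, h.2.2⟩⟩
  have h2 : ∑ V' ∈ Sub E U b', ∑ _V ∈ (Sub E U b).filter fun V => V' ⊆ V, Φ V' =
      (((b0 - b').choose (b - b') : ℝ) ^ Fintype.card β) * ∑ V' ∈ Sub E U b', Φ V' := by
    rw [mul_sum]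
    refine sum_congr rfl fun V' hV' => ?_
    obtain ⟨h3, h4⟩ := mem_Sub.1 hV'
    rw [sum_const, ACBal_above hU h3 fun j => (h4 j).trans_le hb', nsmul_eq_mul]
    simp only [h4 _, prod_const, card_univ, Nat.cast_pow]
  have h3 : 𝔼 V ∈ Sub E U b, 𝔼 V' ∈ Sub E V b', Φ V' =
      𝔼 V ∈ Sub E U b, (∑ V' ∈ Sub E V b', Φ V') / (b.choose b' : ℝ) ^ Fintype.card β := by
    refine expect_congr rfl fun V hV => ?_
    rw [expect_eq_sum_div_card, card_Sub (mem_Sub.1 hV).2, Nat.cast_pow]
  have h4 : (b0.choose b : ℝ) * b.choose b' = b0.choose b' * (b0 - b').choose (b - b') := by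
    exact_mod_cast Nat.choose_mul hb'
  have p1 : (0 : ℝ) < b0.choose b := by exact_mod_cast Nat.choose_pos hb
  have p2 : (0 : ℝ) < b.choose b' := by exact_mod_cast Nat.choose_pos hb'
  have p3 : (0 : ℝ) < b0.choose b' := by exact_mod_cast Nat.choose_pos (hb'.trans hb)
  rw [h3, expect_eq_sum_div_card, expect_eq_sum_div_card, ← sum_div, h1, h2, card_Sub hU,
    card_Sub hU, Nat.cast_pow, Nat.cast_pow, div_div, ← mul_pow, mul_comm (b.choose b' : ℝ), h4,
    mul_pow, mul_comm ((b0.choose b' : ℝ) ^ _), mul_div_mul_left]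
  refine pow_ne_zero _ fun e => ?_
  rw [e, mul_zero] at h4
  exact (mul_pos p1 p2).ne' h4

theorem rect_pr {Θ Θ' α' : Type} [Fintype Θ] [Fintype Θ'] [DecidableEq α'] {S : Θ → Finset α}
    {T : Θ' → Finset α'} {q : ℝ} (hS : SubProd S q) (hT : SubProd T q) (hq0 : 0 ≤ q) (hq1 : q ≤ 1)
    {u : ℕ} (D : Finset (α × α')) (hD : u ^ 2 < D.card) :
    pr (fun θ : Θ × Θ' => D ⊆ S θ.1 ×ˢ T θ.2) ≤ q ^ (2 * u) := by
  have h1 : D.card ≤ (D.image Prod.fst).card * (D.image Prod.snd).card := by
    rw [← card_product]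
    exact card_le_card subset_product
  have h2 : 2 * u ≤ (D.image Prod.fst).card + (D.image Prod.snd).card := by
    have h3 := hD.trans_le h1
    generalize (D.image Prod.fst).card = a at h3 ⊢
    generalize (D.image Prod.snd).card = c at h3 ⊢
    by_contra h4
    have h5 : (a + c) ^ 2 ≤ (2 * u) ^ 2 := Nat.pow_le_pow_left (not_le.1 h4).le 2
    zify at h3 h5
    linarith only [h3, h5, sq_nonneg ((a : ℤ) - c), sq_nonneg (↑a - ↑c)]
  have h3 : pr (fun θ : Θ × Θ' => D ⊆ S θ.1 ×ˢ T θ.2) ≤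
      pr (fun θ : Θ × Θ' => D.image Prod.fst ⊆ S θ.1 ∧ D.image Prod.snd ⊆ T θ.2) :=
    pr_mono fun θ h => ⟨image_subset_iff.2 fun x hx => (mem_product.1 (h hx)).1,
      image_subset_iff.2 fun x hx => (mem_product.1 (h hx)).2⟩
  rw [main_pr_and (fun θ => D.image Prod.fst ⊆ S θ) fun θ => D.image Prod.snd ⊆ T θ] at h3
  refine h3.trans ((mul_le_mul (hS _) (hT _) (pr_nonneg _) (pow_nonneg hq0 _)).trans ?_)
  rw [← pow_add]
  exact pow_le_pow_of_le_one hq0 hq1 h2


end Pool.Agent.Work.MP_f474fe_lc.PT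
end

-- merged part: Pool.Agent.Work.MP_f474fe_lc.PT.ACTree
section
/-!
Decision trees: closure properties, certificates, degree.

Plan. All by induction on l, generalising f. DT_restrict: for the root variable i, if i ∈ W then
update commutes with piecewise, otherwise Rs W x f = Rs W x (fun y => f (update y i (x i))) and use
DT_mono. DT_query: induction on F (insert i F0): query i; for b the function
y ↦ f (update y i b) satisfies the hypothesis for F0 since
update (F0.piecewise π y) i b = (insert i F0).piecewise (update π i b) y.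
DT_cert: add the root variable to the certificate of the subtree b = x i.
rep_mul: the product of the characters of A and B is the character of symmDiff A B on the cube
(sg ^ 2 = 1); coefficients C ↦ ∑ over pairs (A, B) with symmDiff A B = C of c A * c' B; or use conv_sum
twice and a one-term lemma. DT_rep: f = (1 + sg (x i)) / 2 * f1 + (1 - sg (x i)) / 2 * f0.
poly_deg: MvPolynomial.eval_eq, conv_sum, a monomial with exponents e is a product of e.sum ≤ d factors
of degree at most l (induction with rep_mul, Deg is monotone in the bound).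
-/

set_option linter.unusedSectionVars false

namespace Pool.Agent.Work.MP_f474fe_lc.PT

open Finset BigOperators

variable {ι : Type} [Fintype ι] [DecidableEq ι]


lemma DT_const {l : ℕ} {f : (ι → Bool) → Bool} (h : ∀ x y, f x = f y) : DT l f := by
  cases l with
  | zero => exact h
  | succ l => exact Or.inl h

lemma DT_mono {l l' : ℕ} (h : l ≤ l') {f : (ι → Bool) → Bool} (hf : DT l f) : DT l' f := by
  induction l generalizing l' f with
  | zero => exact DT_const hf
  | succ l ih =>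
    obtain ⟨m, rfl⟩ : ∃ m, l' = m + 1 := ⟨l' - 1, by omega⟩
    rcases hf with hf | ⟨i, hf⟩
    · exact Or.inl hf
    · exact Or.inr ⟨i, fun b => ih (by omega) (hf b)⟩

lemma DT_comp (φ : Bool → Bool) {l : ℕ} {f : (ι → Bool) → Bool} (hf : DT l f) :
    DT l fun x => φ (f x) := by
  induction l generalizing f with
  | zero => exact fun x y => congrArg φ (hf x y)
  | succ l ih =>
    rcases hf with hf | ⟨i, hf⟩
    · exact Or.inl fun x y => congrArg φ (hf x y)
    · exact Or.inr ⟨i, fun b => ih (hf b)⟩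

lemma DT_restrict {l : ℕ} {f : (ι → Bool) → Bool} (hf : DT l f) (W : Finset ι) (x : ι → Bool) :
    DT l (Rs W x f) := by
  induction l generalizing f with
  | zero => exact fun y z => hf _ _
  | succ l ih =>
    rcases hf with hf | ⟨i, hf⟩
    · exact Or.inl fun y z => hf _ _
    · by_cases hi : i ∈ W
      · refine Or.inr ⟨i, fun b => ?_⟩
        have e : (fun y => Rs W x f (Function.update y i b)) =
            Rs W x fun y => f (Function.update y i b) := by
          funext y
          unfold Rs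
          congr 1
          funext j
          by_cases hj : j = i
          · subst hj
            simp [Finset.piecewise, hi]
          · simp [Finset.piecewise, Function.update_of_ne hj]
        rw [e]
        exact ih (hf b)
      · have e : Rs W x f = Rs W x fun y => f (Function.update y i (x i)) := by
          funext y
          unfold Rs
          congr 1
          funext j
          by_cases hj : j = i
          · subst hj
            simp [Finset.piecewise, hi]
          · simp [Function.update_of_ne hj]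
        rw [e]
        exact DT_mono (Nat.le_succ l) (ih (hf (x i)))

lemma DT_var {l : ℕ} (hl : 1 ≤ l) (i : ι) : DT l fun x : ι → Bool => x i := by
  obtain ⟨m, rfl⟩ : ∃ m, l = m + 1 := ⟨l - 1, by omega⟩
  exact Or.inr ⟨i, fun b => DT_const fun x y => by simp⟩

lemma DT_query (F : Finset ι) {r : ℕ} {f : (ι → Bool) → Bool}
    (h : ∀ π : ι → Bool, DT r fun y => f (F.piecewise π y)) : DT (F.card + r) f := by
  induction F using Finset.induction_on generalizing f with
  | empty => simpa using h fun _ => true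
  | insert i F0 hi ih =>
    rw [Finset.card_insert_of_notMem hi, Nat.add_right_comm]
    refine Or.inr ⟨i, fun b => ih fun π => ?_⟩
    have e : (fun y => f (Function.update (F0.piecewise π y) i b)) =
        fun y => f ((insert i F0).piecewise (Function.update π i b) y) := by
      funext y
      congr 1
      funext j
      by_cases hj : j = i
      · subst hj
        simp [Finset.piecewise]
      · simp [Finset.piecewise, hj]
    rw [e]
    exact h _

lemma DT_cert {l : ℕ} {f : (ι → Bool) → Bool} (hf : DT l f) (x : ι → Bool) :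
    ∃ C : Finset ι, C.card ≤ l ∧ ∀ y, (∀ i ∈ C, y i = x i) → f y = f x := by
  induction l generalizing f with
  | zero => exact ⟨∅, le_rfl, fun y _ => hf _ _⟩
  | succ l ih =>
    rcases hf with hf | ⟨i, hf⟩
    · exact ⟨∅, Nat.zero_le _, fun y _ => hf _ _⟩
    · obtain ⟨C, hC, h⟩ := ih (hf (x i))
      refine ⟨insert i C, (Finset.card_insert_le _ _).trans (by omega), fun y hy => ?_⟩
      have h1 := h y fun j hj => hy j (Finset.mem_insert_of_mem hj)
      have h2 : y i = x i := hy i (Finset.mem_insert_self _ _)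
      rw [Function.update_eq_self, ← h2, Function.update_eq_self] at h1
      exact h1

lemma ACTree_ind (x : ι → Bool) (A : Finset ι) :
    ∏ i ∈ A, sg (x i) = ∏ i, if i ∈ A then sg (x i) else 1 := by
  rw [Finset.prod_ite_mem, Finset.univ_inter]

lemma ACTree_chi (x : ι → Bool) (A B : Finset ι) :
    (∏ i ∈ A, sg (x i)) * ∏ i ∈ B, sg (x i) = ∏ i ∈ symmDiff A B, sg (x i) := by
  rw [ACTree_ind x A, ACTree_ind x B, ACTree_ind x (symmDiff A B), ← Finset.prod_mul_distrib]
  refine Finset.prod_congr rfl fun i _ => ?_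
  have h := sg_sq (x i)
  by_cases hA : i ∈ A <;> by_cases hB : i ∈ B <;> simp [Finset.mem_symmDiff, hA, hB]
  rw [← h, sq]

lemma rep_mul {c c' : Finset ι → ℝ} {a b : ℕ} (hc : Deg c a) (hc' : Deg c' b) :
    ∃ e : Finset ι → ℝ, Deg e (a + b) ∧ ∀ x, bv c x * bv c' x = bv e x := by
  refine ⟨fun C => ∑ A, ∑ B, if symmDiff A B = C then c A * c' B else 0, fun C hC => ?_, fun x => ?_⟩
  · obtain ⟨A, _, hA⟩ := Finset.exists_ne_zero_of_sum_ne_zero hC
    obtain ⟨B, _, hB⟩ := Finset.exists_ne_zero_of_sum_ne_zero hA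
    by_cases h : symmDiff A B = C
    · rw [if_pos h] at hB
      have h1 := hc A (left_ne_zero_of_mul hB)
      have h2 := hc' B (right_ne_zero_of_mul hB)
      have h3 : C ⊆ A ∪ B := h ▸ (symmDiff_le_sup : symmDiff A B ≤ A ⊔ B)
      have h4 := (Finset.card_le_card h3).trans (Finset.card_union_le A B)
      omega
    · exact absurd (if_neg h) hB
  · unfold bv ev
    rw [Finset.sum_mul_sum]
    simp only [Finset.sum_mul]
    rw [Finset.sum_comm (s := Finset.univ) (t := Finset.univ)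
      (f := fun C A => ∑ B, (if symmDiff A B = C then c A * c' B else 0) * ∏ i ∈ C, sg (x i))]
    refine Finset.sum_congr rfl fun A _ => ?_
    rw [Finset.sum_comm (s := Finset.univ) (t := Finset.univ)
      (f := fun C B => (if symmDiff A B = C then c A * c' B else 0) * ∏ i ∈ C, sg (x i))]
    refine Finset.sum_congr rfl fun B _ => ?_
    simp only [ite_mul, zero_mul, Finset.sum_ite_eq, Finset.mem_univ, if_true]
    rw [← ACTree_chi]
    ring

/-- `g` is a multilinear polynomial of degree at most `d` on the cube. -/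
def ACTree_R (d : ℕ) (g : (ι → Bool) → ℝ) : Prop :=
  ∃ c : Finset ι → ℝ, Deg c d ∧ ∀ x, g x = bv c x

lemma ACTree_R.congr {d : ℕ} {g g' : (ι → Bool) → ℝ} (h : ACTree_R d g) (e : ∀ x, g x = g' x) :
    ACTree_R d g' := by
  obtain ⟨c, h1, h2⟩ := h
  exact ⟨c, h1, fun x => (e x).symm.trans (h2 x)⟩

lemma ACTree_R.mono {d d' : ℕ} {g : (ι → Bool) → ℝ} (h : ACTree_R d g) (e : d ≤ d') :
    ACTree_R d' g := by
  obtain ⟨c, h1, h2⟩ := h
  exact ⟨c, fun A hA => (h1 A hA).trans e, h2⟩

lemma ACTree_R.mul {d d' : ℕ} {g g' : (ι → Bool) → ℝ} (h : ACTree_R d g) (h' : ACTree_R d' g') :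
    ACTree_R (d + d') fun x => g x * g' x := by
  obtain ⟨c, h1, h2⟩ := h
  obtain ⟨c', h1', h2'⟩ := h'
  obtain ⟨e, he, he'⟩ := rep_mul h1 h1'
  exact ⟨e, he, fun x => by rw [← he', ← h2, ← h2']⟩

lemma ACTree_R.add {d : ℕ} {g g' : (ι → Bool) → ℝ} (h : ACTree_R d g) (h' : ACTree_R d g') :
    ACTree_R d fun x => g x + g' x := by
  obtain ⟨c, h1, h2⟩ := h
  obtain ⟨c', h1', h2'⟩ := h'
  refine ⟨fun A => c A + c' A, fun A hA => ?_, fun x => ?_⟩
  · by_cases h0 : c A = 0
    · exact h1' A fun h0' => hA (by simp [h0, h0'])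
    · exact h1 A h0
  · simp only [h2, h2', bv, ev, add_mul, Finset.sum_add_distrib]

lemma ACTree_mon (t : ℝ) (B : Finset ι) :
    ACTree_R B.card fun x : ι → Bool => t * ∏ i ∈ B, sg (x i) := by
  refine ⟨fun A => if A = B then t else 0, fun A hA => ?_, fun x => ?_⟩
  · by_cases h : A = B
    · rw [h]
    · exact absurd (if_neg h) hA
  · simp only [bv, ev, ite_mul, zero_mul, Finset.sum_ite_eq', Finset.mem_univ, if_true]

lemma ACTree_const (d : ℕ) (t : ℝ) : ACTree_R d fun _ : ι → Bool => t :=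
  ((ACTree_mon t ∅).mono (Nat.zero_le d)).congr fun _ => by simp

lemma ACTree_var (i : ι) : ACTree_R 1 fun x : ι → Bool => sg (x i) :=
  (ACTree_mon 1 {i}).congr fun _ => by simp

lemma ACTree_sum {κ : Type} (s : Finset κ) {d : ℕ} (g : κ → (ι → Bool) → ℝ)
    (h : ∀ j ∈ s, ACTree_R d (g j)) : ACTree_R d fun x => ∑ j ∈ s, g j x := by
  classical
  induction s using Finset.induction_on with
  | empty => exact (ACTree_const d 0).congr fun _ => by simp
  | insert j s hj ih =>
    refine ((h j (Finset.mem_insert_self _ _)).add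
      (ih fun k hk => h k (Finset.mem_insert_of_mem hk))).congr fun x => ?_
    rw [Finset.sum_insert hj]

lemma ACTree_prod {κ : Type} (s : Finset κ) (d : κ → ℕ) (g : κ → (ι → Bool) → ℝ)
    (h : ∀ j ∈ s, ACTree_R (d j) (g j)) : ACTree_R (∑ j ∈ s, d j) fun x => ∏ j ∈ s, g j x := by
  classical
  induction s using Finset.induction_on with
  | empty => exact (ACTree_const _ 1).congr fun _ => by simp
  | insert j s hj ih =>
    rw [Finset.sum_insert hj]
    refine ((h j (Finset.mem_insert_self _ _)).mul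
      (ih fun k hk => h k (Finset.mem_insert_of_mem hk))).congr fun x => ?_
    rw [Finset.prod_insert hj]

lemma ACTree_pow {d : ℕ} {g : (ι → Bool) → ℝ} (h : ACTree_R d g) (k : ℕ) :
    ACTree_R (k * d) fun x => g x ^ k := by
  induction k with
  | zero => exact (ACTree_const _ 1).congr fun _ => by simp
  | succ k ih =>
    rw [Nat.succ_mul]
    exact (ih.mul h).congr fun x => (pow_succ _ _).symm

lemma DT_rep {l : ℕ} {f : (ι → Bool) → Bool} (hf : DT l f) :
    ∃ c : Finset ι → ℝ, Deg c l ∧ ∀ x, (if f x then (1 : ℝ) else 0) = bv c x := by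
  change ACTree_R l fun x => if f x then (1 : ℝ) else 0
  induction l generalizing f with
  | zero =>
    refine (ACTree_const 0 (if f (fun _ => true) then (1 : ℝ) else 0)).congr fun x => ?_
    rw [hf x fun _ => true]
  | succ l ih =>
    rcases hf with hf | ⟨i, hf⟩
    · refine (ACTree_const _ (if f (fun _ => true) then (1 : ℝ) else 0)).congr fun x => ?_
      rw [hf x fun _ => true]
    · have h1 := ((ACTree_const 1 (1 / 2)).add
        (((ACTree_const 0 (1 / 2)).mul (ACTree_var i)))).mul (ih (hf true))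
      have h0 := ((ACTree_const 1 (1 / 2)).add
        (((ACTree_const 0 (-1 / 2)).mul (ACTree_var i)))).mul (ih (hf false))
      refine ((h1.add h0).mono (by omega)).congr fun x => ?_
      cases hx : x i
      · have e : Function.update x i false = x := by rw [← hx, Function.update_eq_self]
        rw [e]
        simp only [sg]
        norm_num
      · have e : Function.update x i true = x := by rw [← hx, Function.update_eq_self]
        rw [e]
        simp only [sg]
        norm_num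

theorem poly_deg {r l d : ℕ} (h : Fin r → (ι → Bool) → Bool) (hh : ∀ j, DT l (h j))
    (p : MvPolynomial (Fin r) ℝ) (hp : p.totalDegree ≤ d) :
    ∃ c : Finset ι → ℝ, Deg c (d * l) ∧
      ∀ x, MvPolynomial.eval (fun j => if h j x then 1 else 0) p = bv c x := by
  change ACTree_R (d * l) fun x => MvPolynomial.eval (fun j => if h j x then (1 : ℝ) else 0) p
  have h1 : ∀ e ∈ p.support, ACTree_R (d * l) fun x =>
      p.coeff e * ∏ j ∈ e.support, (if h j x then (1 : ℝ) else 0) ^ e j := by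
    intro e he
    have h2 := ACTree_prod e.support (fun j => e j * l)
      (fun j x => (if h j x then (1 : ℝ) else 0) ^ e j)
      fun j _ => ACTree_pow (DT_rep (hh j)) (e j)
    refine ((ACTree_const 0 (p.coeff e)).mul h2).mono ?_
    rw [zero_add, ← Finset.sum_mul]
    exact Nat.mul_le_mul_right l ((MvPolynomial.le_totalDegree he).trans hp)
  refine (ACTree_sum p.support _ h1).congr fun x => ?_
  rw [MvPolynomial.eval_eq]


end Pool.Agent.Work.MP_f474fe_lc.PT
end

-- merged part: Pool.Agent.Work.MP_f474fe_lc.PT.ACSwitch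
section
/-!
Switching lemma for an arbitrary random set of free variables.

Plan. A term is a pair t = (C, a); Imp w g t: card C ≤ w and g is true on all y that agree with a on C.
ord is an injective map from terms to ℕ. First w g x t: t is the ord-least term with Imp that x satisfies.
dec_card: strong induction on r for all x. r = 0: only ∅. r > 0: if the set is nonempty, x has a unique first
term t; every D is F ∪ D1 with ∅ ≠ F ⊆ t.1, G = F.filter (π · = true) ⊆ F determines F.piecewise π x, and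
D1 is counted by the induction hypothesis with r - |F|. So the count is at most
∑ F ⊆ t.1, F ≠ ∅, 2^|F| (4w)^(r-|F|) ≤ (4w)^r ((1 + 2/(4w))^w - 1) ≤ (4w)^r (work in ℝ,
Finset.sum_pow_mul_eq_add_pow or prod_one_add, (1 + 1/(2w))^w ≤ exp (1/2) ≤ 2).
dec_exists: strong induction on l. Rs W x g is not constant, so it is true somewhere, so (Cert) some term
is consistent with x outside W; let t be the ord-least such term and F = t.1 ∩ W. F = ∅ would make
Rs W x g constant. If l < |F| take D = F, x' = F.piecewise t.2 x. Otherwise DT_query gives π with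
¬ DT (l - |F|) (Rs (W \ F) (F.piecewise π x) g); take D1, x1 from the induction hypothesis, D = F ∪ D1,
x' = F.piecewise t.2 x1; then F.piecewise π x' = x1 and First w g x' t.
switching: the indicator of failure at (θ, x) is at most the sum over x' and over D with Dec x' D,
l < |D| ≤ l + w of 1[D ⊆ W θ] * 1[x agrees with x' outside D]; the number of such x is 2^|D|.
Total at most ∑ r ∈ Ioc l (l + w), 2^r (4w)^r ε ≤ w (8w)^(l+w) ε.
-/

set_option linter.unusedSectionVars false

namespace Pool.Agent.Work.MP_f474fe_lc.PT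

open Finset BigOperators

variable {ι : Type} [Fintype ι] [DecidableEq ι]


/-- Short implicants. -/
def Imp (w : ℕ) (g : (ι → Bool) → Bool) (t : Finset ι × (ι → Bool)) : Prop :=
  t.1.card ≤ w ∧ ∀ y, (∀ i ∈ t.1, y i = t.2 i) → g y = true

/-- A fixed numbering of all terms. -/
noncomputable def ord (t : Finset ι × (ι → Bool)) : ℕ := (Fintype.equivFin _ t : ℕ)

lemma ord_inj : Function.Injective (ord (ι := ι)) := fun _ _ h =>
  (Fintype.equivFin _).injective (Fin.ext h)

/-- `t` is the first short implicant satisfied by `x`. -/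
def First (w : ℕ) (g : (ι → Bool) → Bool) (x : ι → Bool) (t : Finset ι × (ι → Bool)) : Prop :=
  Imp w g t ∧ (∀ i ∈ t.1, x i = t.2 i) ∧
    ∀ t', Imp w g t' → (∀ i ∈ t'.1, x i = t'.2 i) → ord t ≤ ord t'

/-- The sets of variables that can be decoded from a point. -/
inductive Dec (w : ℕ) (g : (ι → Bool) → Bool) : (ι → Bool) → Finset ι → Prop
  | nil (x : ι → Bool) : Dec w g x ∅
  | cons (x : ι → Bool) (t : Finset ι × (ι → Bool)) (F : Finset ι) (π : ι → Bool) (D : Finset ι) :
      First w g x t → F ⊆ t.1 → F.Nonempty → Disjoint F D → Dec w g (F.piecewise π x) D →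
        Dec w g x (F ∪ D)

lemma ACSwitch_first_unique {w : ℕ} {g : (ι → Bool) → Bool} {x : ι → Bool}
    {t t' : Finset ι × (ι → Bool)} (h : First w g x t) (h' : First w g x t') : t = t' :=
  ord_inj (le_antisymm (h.2.2 t' h'.1 h'.2.1) (h'.2.2 t h.1 h.2.1))

lemma ACSwitch_inv {w : ℕ} {g : (ι → Bool) → Bool} {x : ι → Bool} {D : Finset ι}
    (h : Dec w g x D) : D = ∅ ∨ ∃ t F π D1, First w g x t ∧ F ⊆ t.1 ∧ F.Nonempty ∧ Disjoint F D1 ∧
      Dec w g (F.piecewise π x) D1 ∧ D = F ∪ D1 := by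
  cases h with
  | nil => exact Or.inl rfl
  | cons _ t F π D1 h1 h2 h3 h4 h5 => exact Or.inr ⟨t, F, π, D1, h1, h2, h3, h4, h5, rfl⟩

lemma ACSwitch_pow {w k : ℕ} (hw : 1 ≤ w) (hk : k ≤ w) : (1 / (2 * w) + 1 : ℝ) ^ k ≤ 2 := by
  have hw0 : (0 : ℝ) < w := by exact_mod_cast hw
  have hk' : (k : ℝ) ≤ w := by exact_mod_cast hk
  have h1 : (1 / (2 * w) + 1 : ℝ) ^ k ≤ Real.exp (1 / (2 * w)) ^ k :=
    pow_le_pow_left₀ (by positivity) (Real.add_one_le_exp _) k
  rw [← Real.exp_nat_mul] at h1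
  have h2 : (k : ℝ) * (1 / (2 * w)) ≤ 1 / 2 := by
    rw [mul_one_div, div_le_div_iff₀ (by positivity) (by norm_num)]
    linarith only [hk']
  have h3 : Real.exp (1 / 2) ≤ 2 := by
    have e : Real.exp (1 / 2) ^ 2 = Real.exp 1 := by
      rw [← Real.exp_nat_mul]
      norm_num
    have := Real.exp_one_lt_d9
    refine le_of_sq_le_sq ?_ (by norm_num)
    rw [e]
    linarith only [this]
  exact h1.trans ((Real.exp_le_exp.2 h2).trans h3)

lemma ACSwitch_sum {w : ℕ} (hw : 1 ≤ w) {C : Finset ι} (hC : C.card ≤ w) :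
    ∑ F ∈ C.powerset.erase ∅, (1 / (2 * w) : ℝ) ^ F.card ≤ 1 := by
  have h1 := Finset.sum_pow_mul_eq_add_pow (1 / (2 * w) : ℝ) 1 C
  simp only [one_pow, mul_one] at h1
  have h2 := Finset.add_sum_erase C.powerset (fun F => (1 / (2 * w) : ℝ) ^ F.card)
    (empty_mem_powerset C)
  simp only [card_empty, pow_zero] at h2
  have h3 := ACSwitch_pow hw hC
  linarith only [h1, h2, h3]

open Classical in
theorem dec_card {w : ℕ} (hw : 1 ≤ w) (g : (ι → Bool) → Bool) (r : ℕ) (x : ι → Bool) :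
    ((univ.filter fun D : Finset ι => Dec w g x D ∧ D.card = r).card : ℝ) ≤ (4 * w) ^ r := by
  induction r using Nat.strong_induction_on generalizing x with
  | _ r ih =>
  have hw0 : (0 : ℝ) < w := by exact_mod_cast hw
  rcases Nat.eq_zero_or_pos r with rfl | hr
  · have : (univ.filter fun D : Finset ι => Dec w g x D ∧ D.card = 0) ⊆ {∅} := by
      intro D hD
      rw [mem_singleton, ← card_eq_zero]
      exact (mem_filter.1 hD).2.2
    have := card_le_card this
    rw [card_singleton] at this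
    rw [pow_zero]
    exact_mod_cast this
  by_cases hex : ∃ t, First w g x t
  swap
  · have : (univ.filter fun D : Finset ι => Dec w g x D ∧ D.card = r) = ∅ := by
      refine filter_eq_empty_iff.2 fun D _ hD => ?_
      rcases ACSwitch_inv hD.1 with h | ⟨t, F, π, D1, h1, -⟩
      · have := hD.2
        rw [h, card_empty] at this
        omega
      · exact hex ⟨t, h1⟩
    rw [this, card_empty, Nat.cast_zero]
    positivity
  obtain ⟨t, ht⟩ := hex
  have hsub : (univ.filter fun D : Finset ι => Dec w g x D ∧ D.card = r) ⊆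
      ((t.1.powerset.erase ∅).filter fun F => F.card ≤ r).biUnion fun F =>
        F.powerset.biUnion fun G => (univ.filter fun D1 : Finset ι =>
          Dec w g (F.piecewise (fun i => decide (i ∈ G)) x) D1 ∧ D1.card = r - F.card).image
            fun D1 => F ∪ D1 := by
    intro D hD
    obtain ⟨-, hD1, hD2⟩ := mem_filter.1 hD
    rcases ACSwitch_inv hD1 with h | ⟨t', F, π, D1, h1, h2, h3, h4, h5, h6⟩
    · rw [h, card_empty] at hD2
      omega
    · rw [ACSwitch_first_unique h1 ht] at h2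
      rw [h6, card_union_of_disjoint h4] at hD2
      refine mem_biUnion.2 ⟨F, mem_filter.2 ⟨mem_erase.2 ⟨h3.ne_empty, mem_powerset.2 h2⟩,
        by omega⟩, mem_biUnion.2 ⟨F.filter fun i => π i = true,
          mem_powerset.2 (filter_subset _ _), mem_image.2 ⟨D1, mem_filter.2 ⟨mem_univ _, ?_,
            by omega⟩, h6.symm⟩⟩⟩
      have e : F.piecewise (fun i => decide (i ∈ F.filter fun i => π i = true)) x =
          F.piecewise π x := by
        funext i
        by_cases hi : i ∈ F <;> simp [hi]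
      rw [e]
      exact h5
  have h1 := (card_le_card hsub).trans card_biUnion_le
  have h2 : ((univ.filter fun D : Finset ι => Dec w g x D ∧ D.card = r).card : ℝ) ≤
      ∑ F ∈ (t.1.powerset.erase ∅).filter fun F => F.card ≤ r,
        (4 * w : ℝ) ^ r * (1 / (2 * w)) ^ F.card := by
    refine (Nat.cast_le.2 h1).trans ?_
    rw [Nat.cast_sum]
    refine sum_le_sum fun F hF => ?_
    obtain ⟨hF1, hF2⟩ := mem_filter.1 hF
    have hF0 : 0 < F.card := card_pos.2 (nonempty_iff_ne_empty.2 (mem_erase.1 hF1).1)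
    refine (Nat.cast_le.2 card_biUnion_le).trans ?_
    rw [Nat.cast_sum]
    calc _ ≤ ∑ G ∈ F.powerset, (4 * w : ℝ) ^ (r - F.card) := by
          refine sum_le_sum fun G _ => (Nat.cast_le.2 card_image_le).trans ?_
          exact ih _ (by omega) _
      _ = _ := by
          rw [sum_const, card_powerset, nsmul_eq_mul]
          obtain ⟨m, rfl⟩ := Nat.exists_eq_add_of_le hF2
          rw [Nat.add_sub_cancel_left, pow_add, mul_right_comm, ← mul_pow]
          push_cast
          congr 2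
          field_simp
          norm_num
  refine h2.trans ((sum_le_sum_of_subset_of_nonneg (filter_subset _ _)
    fun F _ _ => by positivity).trans ?_)
  rw [← mul_sum]
  exact mul_le_of_le_one_right (by positivity) (ACSwitch_sum hw ht.1.1)

theorem dec_exists {w : ℕ} {g : (ι → Bool) → Bool} (hg : Cert w g) (l : ℕ) (W : Finset ι)
    (x : ι → Bool) (h : ¬ DT l (Rs W x g)) :
    ∃ (D : Finset ι) (x' : ι → Bool), D ⊆ W ∧ l < D.card ∧ D.card ≤ l + w ∧
      (∀ i, i ∉ D → x' i = x i) ∧ Dec w g x' D := by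
  classical
  induction l using Nat.strong_induction_on generalizing W x with
  | _ l ih =>
  have hnc : ¬ ∀ y y', Rs W x g y = Rs W x g y' := fun hc => h (DT_const hc)
  have hy : ∃ y, g (W.piecewise y x) = true := by
    by_contra hn
    push Not at hn
    refine hnc fun y y' => ?_
    have h1 := hn y
    have h2 := hn y'
    simp only [Bool.not_eq_true, ne_eq] at h1 h2
    simp only [Rs, h1, h2]
  obtain ⟨y, hy⟩ := hy
  obtain ⟨C, hC, hC'⟩ := hg _ hy
  obtain ⟨t, ht, hmin⟩ := exists_min_image (univ.filter fun t : Finset ι × (ι → Bool) =>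
    Imp w g t ∧ ∀ i ∈ t.1, i ∉ W → x i = t.2 i) ord
    ⟨(C, W.piecewise y x), mem_filter.2 ⟨mem_univ _, ⟨hC, hC'⟩, fun i _ hi => by simp [hi]⟩⟩
  obtain ⟨-, ht1, ht2⟩ := mem_filter.1 ht
  have hFW : t.1 ∩ W ⊆ W := inter_subset_right
  have hFt : t.1 ∩ W ⊆ t.1 := inter_subset_left
  have hmem : ∀ i, i ∈ t.1 → i ∈ W → i ∈ t.1 ∩ W := fun i h1 h2 => mem_inter.2 ⟨h1, h2⟩
  generalize t.1 ∩ W = F at hFW hFt hmem
  have hF : F.Nonempty := by
    rw [nonempty_iff_ne_empty]
    rintro rfl
    have hc : ∀ y, Rs W x g y = true := fun y => ht1.2 _ fun i hi => by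
      have hi' : i ∉ W := fun h2 => notMem_empty i (hmem i hi h2)
      rw [piecewise_eq_of_notMem _ _ _ hi']
      exact ht2 i hi hi'
    exact hnc fun y y' => by rw [hc, hc]
  have hfirst : ∀ x' : ι → Bool, (∀ i ∈ F, x' i = t.2 i) → (∀ i, i ∉ W → x' i = x i) →
      First w g x' t := by
    intro x' h1 h2
    refine ⟨ht1, fun i hi => ?_, fun t' h3 h4 => hmin t' (mem_filter.2 ⟨mem_univ _, h3,
      fun i hi hi' => (h2 i hi').symm.trans (h4 i hi)⟩)⟩
    by_cases hi' : i ∈ W
    · exact h1 i (hmem i hi hi')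
    · exact (h2 i hi').trans (ht2 i hi hi')
  have hFc : F.card ≤ w := (card_le_card hFt).trans ht1.1
  have hF0 : 0 < F.card := card_pos.2 hF
  by_cases hl : l < F.card
  · refine ⟨F, F.piecewise t.2 x, hFW, hl, by omega, fun i hi => by simp [hi], ?_⟩
    have := Dec.cons (F.piecewise t.2 x) t F x ∅
      (hfirst _ (fun i hi => by simp [hi]) fun i hi => by
        have : i ∉ F := fun h2 => hi (hFW h2)
        simp [this]) hFt hF (disjoint_empty_right _) (Dec.nil _)
    rwa [union_empty] at this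
  · have hq : ∃ π : ι → Bool, ¬ DT (l - F.card) fun y => Rs W x g (F.piecewise π y) := by
      by_contra hn
      push Not at hn
      have := DT_query F hn
      rw [show F.card + (l - F.card) = l by omega] at this
      exact h this
    obtain ⟨π, hπ⟩ := hq
    have e : (fun y => Rs W x g (F.piecewise π y)) = Rs (W \ F) (F.piecewise π x) g := by
      funext y
      simp only [Rs]
      congr 1
      funext i
      by_cases h1 : i ∈ F
      · simp [h1, hFW h1]
      · by_cases h2 : i ∈ W <;> simp [h1, h2]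
    rw [e] at hπ
    obtain ⟨D1, x1, a1, a2, a3, a4, a5⟩ := ih (l - F.card) (by omega) _ _ hπ
    have hd : Disjoint F D1 := disjoint_left.2 fun i h1 h2 => (mem_sdiff.1 (a1 h2)).2 h1
    have hDW : F ∪ D1 ⊆ W := union_subset hFW (a1.trans sdiff_subset)
    have hx : ∀ i, i ∉ F ∪ D1 → F.piecewise t.2 x1 i = x i := by
      intro i hi
      rw [mem_union, not_or] at hi
      rw [piecewise_eq_of_notMem _ _ _ hi.1, a4 i hi.2, piecewise_eq_of_notMem _ _ _ hi.1]
    refine ⟨F ∪ D1, F.piecewise t.2 x1, hDW, ?_, ?_, hx, ?_⟩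
    · rw [card_union_of_disjoint hd]
      omega
    · rw [card_union_of_disjoint hd]
      omega
    · refine Dec.cons _ t F π D1 (hfirst _ (fun i hi => by simp [hi])
        fun i hi => hx i fun h2 => hi (hDW h2)) hFt hF hd ?_
      have e2 : F.piecewise π (F.piecewise t.2 x1) = x1 := by
        funext i
        by_cases h1 : i ∈ F
        · rw [a4 i (disjoint_left.1 hd h1)]
          simp [h1]
        · simp [h1]
      rw [e2]
      exact a5

lemma ACSwitch_agree (D : Finset ι) (x' : ι → Bool) :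
    pr (fun x : ι → Bool => ∀ i, i ∉ D → x' i = x i) ≤
      2 ^ D.card / Fintype.card (ι → Bool) := by
  classical
  rw [pr_eq_card]
  have h1 : (univ.filter fun x : ι → Bool => ∀ i, i ∉ D → x' i = x i).card ≤ D.powerset.card := by
    refine card_le_card_of_injOn (fun x => D.filter fun i => x i = true)
      (fun x _ => mem_coe.2 (mem_powerset.2 (filter_subset _ _))) fun x hx y hy hxy => ?_
    have hx' := (mem_filter.1 (mem_coe.1 hx)).2
    have hy' := (mem_filter.1 (mem_coe.1 hy)).2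
    funext i
    by_cases hi : i ∈ D
    · have := congrArg (fun s : Finset ι => i ∈ s) hxy
      simpa [hi] using this
    · rw [← hx' i hi, ← hy' i hi]
  rw [card_powerset] at h1
  gcongr
  exact_mod_cast h1

lemma ACSwitch_pair {Θ : Type} [Fintype Θ] (A : Θ → Prop) (B : (ι → Bool) → Prop) {ε : ℝ}
    (hA : pr A ≤ ε) : pr (fun z : Θ × (ι → Bool) => A z.1 ∧ B z.2) ≤ ε * pr B := by
  classical
  rw [pr_prod']
  conv_rhs => rw [pr, mul_expect]
  refine expect_le_expect fun x _ => ?_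
  by_cases hx : B x
  · simpa [hx] using hA
  · simp [hx, pr]

theorem switching {Θ : Type} [Fintype Θ] [Nonempty Θ] (W : Θ → Finset ι) {w l : ℕ} (hw : 1 ≤ w)
    {ε : ℝ} (hε : 0 ≤ ε) (h : ∀ D : Finset ι, l < D.card → pr (fun θ => D ⊆ W θ) ≤ ε)
    {g : (ι → Bool) → Bool} (hg : Cert w g) :
    pr (fun z : Θ × (ι → Bool) => ¬ DT l (Rs (W z.1) z.2 g)) ≤ w * (8 * w) ^ (l + w) * ε := by
  classical
  have hw1 : (1 : ℝ) ≤ w := by exact_mod_cast hw
  have hc : (0 : ℝ) < Fintype.card (ι → Bool) := by exact_mod_cast Fintype.card_pos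
  have h1 : pr (fun z : Θ × (ι → Bool) => ¬ DT l (Rs (W z.1) z.2 g)) ≤
      pr fun z : Θ × (ι → Bool) => ∃ r ∈ Ioc l (l + w), ∃ x' ∈ (univ : Finset (ι → Bool)),
        ∃ D ∈ univ.filter fun D : Finset ι => Dec w g x' D ∧ D.card = r,
          D ⊆ W z.1 ∧ ∀ i, i ∉ D → x' i = z.2 i := by
    refine pr_mono fun z hz => ?_
    obtain ⟨D, x', a1, a2, a3, a4, a5⟩ := dec_exists hg l _ _ hz
    exact ⟨D.card, mem_Ioc.2 ⟨a2, a3⟩, x', mem_univ _, D, mem_filter.2 ⟨mem_univ _, a5, rfl⟩,
      a1, a4⟩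
  refine h1.trans ((pr_exists_le _ _).trans ?_)
  have h2 : ∀ r ∈ Ioc l (l + w), pr (fun z : Θ × (ι → Bool) =>
      ∃ x' ∈ (univ : Finset (ι → Bool)),
        ∃ D ∈ univ.filter fun D : Finset ι => Dec w g x' D ∧ D.card = r,
          D ⊆ W z.1 ∧ ∀ i, i ∉ D → x' i = z.2 i) ≤ (8 * w) ^ (l + w) * ε := by
    intro r hr
    obtain ⟨hr1, hr2⟩ := mem_Ioc.1 hr
    refine (pr_exists_le _ _).trans ?_
    calc _ ≤ ∑ x' : ι → Bool, (4 * w : ℝ) ^ r * (ε * (2 ^ r / Fintype.card (ι → Bool))) := by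
          refine sum_le_sum fun x' _ => (pr_exists_le _ _).trans ?_
          calc _ ≤ ∑ D ∈ univ.filter fun D : Finset ι => Dec w g x' D ∧ D.card = r,
                ε * (2 ^ r / Fintype.card (ι → Bool)) := by
                refine sum_le_sum fun D hD => ?_
                have hD' := (mem_filter.1 hD).2.2
                refine (ACSwitch_pair (fun θ => D ⊆ W θ) (fun x => ∀ i, i ∉ D → x' i = x i)
                  (h D (by omega))).trans ?_
                rw [← hD']
                exact mul_le_mul_of_nonneg_left (ACSwitch_agree D x') hε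
            _ ≤ _ := by
                rw [sum_const, nsmul_eq_mul]
                refine mul_le_mul_of_nonneg_right ?_ (by positivity)
                convert dec_card hw g r x'
      _ = (8 * w) ^ r * ε := by
          rw [sum_const, card_univ, nsmul_eq_mul, show (8 * w : ℝ) = 4 * w * 2 by ring,
            mul_pow (4 * w : ℝ)]
          field_simp
      _ ≤ _ := by
          refine mul_le_mul_of_nonneg_right (pow_le_pow_right₀ (by linarith only [hw1]) hr2) hε
  refine (sum_le_sum h2).trans ?_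
  rw [sum_const, Nat.card_Ioc, nsmul_eq_mul, Nat.add_sub_cancel_left, mul_assoc]


end Pool.Agent.Work.MP_f474fe_lc.PT
end

-- merged part: Pool.Agent.Work.MP_f474fe_lc.PT.ACLayers
section
/-!
After D nested random restrictions all nodes of a depth D circuit are shallow trees.

Plan. Rs_Rs: unfold, ext, cases on membership. gate_cert: for g with data (I, c) the function
x ↦ decide (g (W.piecewise · x) = c) has Cert l by DT_cert of the restricted inputs.
layers: induction on D generalising M F. D = 0: DT_restrict of DT_var, probability 0.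
Step F = F' ∪ G: rewrite with htower, pr as an expectation, expect_piece (W z):
x = (W z).piecewise y x0, Rs (W z') x f = Rs (W z') y (Rs (W z) x0 f). For fixed z, x0: if some f ∈ F' has
¬ DT l (Rs (W z) x0 f) bound by 1; otherwise F' stays good (DT_restrict) and every g ∈ G fails with
probability at most the switching bound (Θ = the subtype of ch D z, expect_sub, pr_prod, DT_comp to pass
from decide (g = c) to g), pr_exists_le over G.
-/

set_option linter.unusedSectionVars false

namespace Pool.Agent.Work.MP_f474fe_lc.PT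

open Finset BigOperators

variable {ι : Type} [Fintype ι] [DecidableEq ι]


lemma Rs_Rs {W W' : Finset ι} (h : W' ⊆ W) (x y : ι → Bool) (f : (ι → Bool) → Bool) :
    Rs W' (W.piecewise y x) f = Rs W' y (Rs W x f) := by
  funext v
  simp only [Rs]
  congr 1
  funext i
  by_cases h1 : i ∈ W'
  · simp [h1, h h1]
  · by_cases h2 : i ∈ W <;> simp [h1, h2]

lemma gate_cert {F : Set ((ι → Bool) → Bool)} {g : (ι → Bool) → Bool} (hg : IsGate F g) {l : ℕ}
    {W : Finset ι} {x : ι → Bool} (hF : ∀ f ∈ F, DT l (Rs W x f)) :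
    ∃ c : Bool, Cert l fun y => decide (Rs W x g y = c) := by
  obtain ⟨I, c, h1, h2⟩ := hg
  refine ⟨c, fun y hy => ?_⟩
  obtain ⟨p, hp, e⟩ := (h2 _).1 (of_decide_eq_true hy)
  obtain ⟨C, hC, h3⟩ := DT_cert (hF _ (h1 p hp)) y
  exact ⟨C, hC, fun y' hy' => decide_eq_true ((h2 _).2 ⟨p, hp, (h3 y' hy').trans e⟩)⟩

lemma ACLayers_step {X : Type} (s : Finset X) (hs : s.Nonempty) (W : X → Finset ι) {l : ℕ}
    (hl : 1 ≤ l) {ε : ℝ} (hε : 0 ≤ ε)
    (hsub : ∀ D : Finset ι, l < D.card → pr (fun z' : s => D ⊆ W z') ≤ ε)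
    {F : Set ((ι → Bool) → Bool)} {G : Finset ((ι → Bool) → Bool)} (hG : ∀ g ∈ G, IsGate F g)
    {V : Finset ι} {x : ι → Bool} (hF : ∀ f ∈ F, DT l (Rs V x f)) :
    𝔼 z' ∈ s, pr (fun y => ¬ ∀ f ∈ F ∪ G, DT l (Rs (W z') y (Rs V x f))) ≤
      G.card * (l * (8 * l) ^ (l + l) * ε) := by
  have : Nonempty s := hs.to_subtype
  rw [← expect_sub s fun z' => pr (fun y => ¬ ∀ f ∈ F ∪ G, DT l (Rs (W z') y (Rs V x f))),
    ← pr_prod fun q : s × (ι → Bool) => ¬ ∀ f ∈ F ∪ G, DT l (Rs (W q.1) q.2 (Rs V x f))]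
  refine (pr_mono (Q := fun q : s × (ι → Bool) =>
    ∃ g ∈ G, ¬ DT l (Rs (W q.1) q.2 (Rs V x g))) fun q hq => ?_).trans
    ((pr_exists_le G fun g (q : s × (ι → Bool)) => ¬ DT l (Rs (W q.1) q.2 (Rs V x g))).trans ?_)
  · by_contra hc
    push Not at hc
    refine hq fun f hf => ?_
    rcases hf with hf | hf
    · exact DT_restrict (hF f hf) _ _
    · exact hc f hf
  · rw [← nsmul_eq_mul]
    refine sum_le_card_nsmul _ _ _ fun g hg => ?_
    obtain ⟨c, hc⟩ := gate_cert (hG g hg) hF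
    refine le_trans ?_ (switching (fun z' : s => W z') hl hε hsub hc)
    refine pr_mono fun q hq h => hq ?_
    have := DT_comp (fun b => if b then c else !c) h
    convert this using 2 with y
    have hb : ∀ b : Bool, b = if decide (b = c) = true then c else !c := fun b => by
      cases b <;> cases c <;> rfl
    exact hb _

theorem layers {X : Type} (𝒳 : ℕ → Finset X) (ch : ℕ → X → Finset X) (W : X → Finset ι)
    (Dm : ℕ) {l : ℕ} (hl : 1 ≤ l) {ε : ℝ} (hε : 0 ≤ ε)
    (hne : ∀ j ≤ Dm, (𝒳 j).Nonempty)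
    (hch : ∀ j < Dm, ∀ z ∈ 𝒳 j, (ch j z).Nonempty)
    (htower : ∀ j < Dm, ∀ Φ : X → ℝ,
      𝔼 z ∈ 𝒳 (j + 1), Φ z = 𝔼 z ∈ 𝒳 j, 𝔼 z' ∈ ch j z, Φ z')
    (hnest : ∀ j < Dm, ∀ z ∈ 𝒳 j, ∀ z' ∈ ch j z, W z' ⊆ W z)
    (hsub : ∀ j < Dm, ∀ z ∈ 𝒳 j, ∀ D : Finset ι, l < D.card →
      pr (fun z' : ch j z => D ⊆ W z') ≤ ε)
    (D : ℕ) (hD : D ≤ Dm) (M : ℕ) (F : Set ((ι → Bool) → Bool)) (hF : Circ D M F) :
    𝔼 z ∈ 𝒳 D, pr (fun x => ¬ ∀ f ∈ F, DT l (Rs (W z) x f)) ≤
      M * (l * (8 * l) ^ (l + l) * ε) := by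
  classical
  have hB : 0 ≤ (l * (8 * l) ^ (l + l) * ε : ℝ) := by positivity
  induction D generalizing M F with
  | zero =>
    refine expect_le (hne 0 hD) fun z _ => ?_
    refine le_trans (pr_le_expect (f := fun _ => 0) (fun _ => le_rfl) fun x hx => ?_)
      (by simpa using mul_nonneg (Nat.cast_nonneg M) hB)
    refine absurd (fun f hf => ?_) hx
    rw [show F = _ from hF] at hf
    obtain ⟨i, rfl⟩ := hf
    exact DT_restrict (DT_var hl i) _ _
  | succ D ih =>
    obtain ⟨M', F', G, h1, h2, h3, rfl⟩ := hF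
    have key : ∀ z ∈ 𝒳 D,
        𝔼 z' ∈ ch D z, pr (fun x => ¬ ∀ f ∈ F' ∪ G, DT l (Rs (W z') x f)) ≤
          pr (fun x => ¬ ∀ f ∈ F', DT l (Rs (W z) x f)) +
            G.card * (l * (8 * l) ^ (l + l) * ε) := by
      intro z hz
      have e : ∀ z' ∈ ch D z, pr (fun x => ¬ ∀ f ∈ F' ∪ G, DT l (Rs (W z') x f)) =
          𝔼 x, pr (fun y => ¬ ∀ f ∈ F' ∪ G, DT l (Rs (W z') y (Rs (W z) x f))) := by
        intro z' hz'
        unfold pr
        rw [expect_piece (W z)]
        refine expect_congr rfl fun x _ => expect_congr rfl fun y _ => ?_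
        simp only [Rs_Rs (hnest D hD z hz z' hz')]
        congr
      rw [expect_congr rfl e, expect_comm]
      refine le_trans (expect_le_expect (g := fun x =>
        (if ¬ ∀ f ∈ F', DT l (Rs (W z) x f) then (1 : ℝ) else 0) +
          G.card * (l * (8 * l) ^ (l + l) * ε)) fun x _ => ?_) (le_of_eq ?_)
      · by_cases h : ∀ f ∈ F', DT l (Rs (W z) x f)
        · rw [if_neg (not_not.2 h), zero_add]
          exact ACLayers_step _ (hch D hD z hz) W hl hε (hsub D hD z hz) h3 h
        · rw [if_pos h]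
          exact (expect_le (hch D hD z hz) fun z' _ => pr_le_one _).trans
            (le_add_of_nonneg_right (mul_nonneg (Nat.cast_nonneg _) hB))
      · rw [expect_add_distrib, expect_const univ_nonempty]
        congr 1
        unfold pr
        exact expect_congr rfl fun x _ => by congr
    rw [htower D hD]
    refine (expect_le_expect key).trans ?_
    rw [expect_add_distrib, expect_const (hne D (by omega))]
    have h4 : (M' : ℝ) + G.card ≤ M := by exact_mod_cast h2
    have h5 := ih (by omega) M' F' h1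
    have h6 := mul_le_mul_of_nonneg_right h4 hB
    linarith only [h5, h6]


end Pool.Agent.Work.MP_f474fe_lc.PT
end

-- merged part: Pool.Agent.Work.MP_f474fe_lc.PT.ACRect
section
/-!
The restriction process for rectangles and the flip bound inside a rectangle.

Plan. prod_tower: expect_product, expect_comm and sub_tower in each coordinate.
rect_layers: layers with X = pairs, 𝒳 j = Sub E1 univ (a / K^j) ×ˢ Sub E2 univ (b / K^j),
ch j z = Sub E1 z.1 (a / K^(j+1)) ×ˢ Sub E2 z.2 (b / K^(j+1)), W z = z.1 ×ˢ z.2, l = u^2,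
ε = (1/K)^(2u); hsub from rect_pr and sub_subprod: with A = a / K^j, A / K = a / K^(j+1)
(Nat.div_div_eq_div_mul) and (A / K : ℕ) / A ≤ 1 / K (also for A = 0), SubProd is monotone in p;
the subtype of a product of finite sets is equivalent to the product of the subtypes
(Finset.prod or Equiv.subtypeProdEquivProd, or compare both with expectations via expect_sub, pr_prod).
flip_rect: as h1, h2, h3 in the proof of ptf_main (file Main), with flip_final.
-/

set_option linter.unusedSectionVars false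

namespace Pool.Agent.Work.MP_f474fe_lc.PT

open Finset BigOperators

variable {ι : Type} [Fintype ι] [DecidableEq ι]


variable {α α' β β' : Type} [Fintype α] [DecidableEq α] [Fintype β] [DecidableEq β]
  [Fintype α'] [DecidableEq α'] [Fintype β'] [DecidableEq β']

lemma ACRect_pr {X Y : Type} (s : Finset X) (t : Finset Y) (P : X × Y → Prop) :
    pr (fun z : ↥(s ×ˢ t) => P z.1) = pr (fun θ : s × t => P (θ.1.1, θ.2.1)) := by
  classical
  unfold pr
  rw [expect_sub (s ×ˢ t) fun z => if P z then (1 : ℝ) else 0, expect_product,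
    ← univ_product_univ, expect_product,
    ← expect_sub s fun x => 𝔼 y ∈ t, if P (x, y) then (1 : ℝ) else 0]
  refine expect_congr rfl fun x _ => ?_
  exact (expect_sub t fun y => if P (x.1, y) then (1 : ℝ) else 0).symm

lemma ACRect_mono {Θ : Type} [Fintype Θ] {S : Θ → Finset α} {p q : ℝ} (hS : SubProd S p)
    (hp : 0 ≤ p) (hq : p ≤ q) : SubProd S q :=
  fun D => (hS D).trans (pow_le_pow_left₀ hp hq _)

lemma ACRect_div (a : ℕ) {K : ℕ} (hK : 1 ≤ K) (j : ℕ) :
    ((a / K ^ (j + 1) : ℕ) : ℝ) / (a / K ^ j : ℕ) ≤ 1 / (K : ℝ) := by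
  rw [pow_succ, ← Nat.div_div_eq_div_mul]
  generalize a / K ^ j = A
  have hK0 : (0 : ℝ) < K := by exact_mod_cast hK
  rcases Nat.eq_zero_or_pos A with rfl | hA
  · simp
  · have hA0 : (0 : ℝ) < A := by exact_mod_cast hA
    rw [div_le_div_iff₀ hA0 hK0, one_mul]
    exact_mod_cast Nat.div_mul_le_self A K

lemma ACRect_le (a : ℕ) {K : ℕ} (hK : 1 ≤ K) (j : ℕ) : a / K ^ (j + 1) ≤ a / K ^ j :=
  Nat.div_le_div_left (Nat.pow_le_pow_right hK (Nat.le_succ j)) (Nat.pow_pos hK)

lemma ACRect_sub {E : α → β} {V : Finset α} {a K j : ℕ} (hK : 1 ≤ K) (hV : Bal E V (a / K ^ j)) :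
    SubProd (fun V' : Sub E V (a / K ^ (j + 1)) => V'.1) (1 / (K : ℝ)) :=
  ACRect_mono (sub_subprod hV (ACRect_le a hK j)) (by positivity) (ACRect_div a hK j)

theorem prod_tower {E : α → β} {E' : α' → β'} {U : Finset α} {U' : Finset α'}
    {a0 a a1 b0 b b1 : ℕ} (hU : Bal E U a0) (hU' : Bal E' U' b0) (h1 : a ≤ a0) (h2 : a1 ≤ a)
    (h3 : b ≤ b0) (h4 : b1 ≤ b) (Φ : Finset α × Finset α' → ℝ) :
    𝔼 z ∈ Sub E U a1 ×ˢ Sub E' U' b1, Φ z =
      𝔼 z ∈ Sub E U a ×ˢ Sub E' U' b, 𝔼 z' ∈ Sub E z.1 a1 ×ˢ Sub E' z.2 b1, Φ z' := by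
  rw [expect_product, expect_product, ← sub_tower hU h1 h2]
  refine expect_congr rfl fun V _ => ?_
  simp only [expect_product]
  rw [expect_comm (Sub E' U' b)]
  refine expect_congr rfl fun V' _ => ?_
  exact (sub_tower hU' h3 h4 fun T' => Φ (V', T')).symm

theorem rect_layers {E : α → β} {E' : α' → β'} {a b : ℕ} (hE : Bal E univ a)
    (hE' : Bal E' univ b) {K u : ℕ} (hK : 1 ≤ K) (hu : 1 ≤ u) {D M : ℕ}
    {F : Set ((α × α' → Bool) → Bool)} (hF : Circ D M F) :
    𝔼 z ∈ Sub E univ (a / K ^ D) ×ˢ Sub E' univ (b / K ^ D),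
      pr (fun x => ¬ ∀ f ∈ F, DT (u ^ 2) (Rs (z.1 ×ˢ z.2) x f)) ≤
      M * ((u ^ 2 : ℕ) * (8 * (u ^ 2 : ℕ)) ^ (u ^ 2 + u ^ 2) * (1 / (K : ℝ)) ^ (2 * u)) := by
  have hK0 : (0 : ℝ) < K := by exact_mod_cast hK
  have hK1 : 1 / (K : ℝ) ≤ 1 := by
    rw [div_le_one hK0]
    exact_mod_cast hK
  have h := layers (ι := α × α') (fun j => Sub E univ (a / K ^ j) ×ˢ Sub E' univ (b / K ^ j))
    (fun j z => Sub E z.1 (a / K ^ (j + 1)) ×ˢ Sub E' z.2 (b / K ^ (j + 1)))
    (fun z => z.1 ×ˢ z.2) D (l := u ^ 2) (Nat.one_le_pow _ _ hu) (ε := (1 / (K : ℝ)) ^ (2 * u))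
    (by positivity)
    (fun j _ => (sub_nonempty hE (Nat.div_le_self _ _)).product
      (sub_nonempty hE' (Nat.div_le_self _ _)))
    (fun j _ z hz => (sub_nonempty (mem_Sub.1 (mem_product.1 hz).1).2 (ACRect_le a hK j)).product
      (sub_nonempty (mem_Sub.1 (mem_product.1 hz).2).2 (ACRect_le b hK j)))
    (fun j _ Φ => prod_tower hE hE' (Nat.div_le_self _ _) (ACRect_le a hK j) (Nat.div_le_self _ _)
      (ACRect_le b hK j) Φ)
    (fun j _ z _ z' hz' => product_subset_product (mem_Sub.1 (mem_product.1 hz').1).1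
      (mem_Sub.1 (mem_product.1 hz').2).1)
    (fun j _ z hz C hC => by
      rw [ACRect_pr _ _ fun z' : Finset α × Finset α' => C ⊆ z'.1 ×ˢ z'.2]
      exact rect_pr (ACRect_sub hK (mem_Sub.1 (mem_product.1 hz).1).2)
        (ACRect_sub hK (mem_Sub.1 (mem_product.1 hz).2).2) (by positivity) hK1 C hC)
    D le_rfl M F hF
  exact h

theorem flip_rect {Θ Θ' : Type} [Fintype Θ] [Nonempty Θ] [Fintype Θ'] [Nonempty Θ']
    {S : Θ → Finset α} {T : Θ' → Finset α'} {p q : ℝ} (hS : SubProd S p) (hT : SubProd T q)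
    (hp : 0 < p) (hq : 0 < q) {k k' : ℕ} (hk : 1 ≤ k) (hk' : 1 ≤ k') (hSk : ∀ θ, (S θ).card = k)
    (hTk : ∀ θ, (T θ).card = k') {d : ℕ} (hd : 1 ≤ d) {c : Finset (α × α') → ℝ} (hc : Deg c d) :
    flip (fun θ : Θ × Θ' => S θ.1 ×ˢ T θ.2) c ≤
      256 * d * ((Real.exp (k * p) - 1) * (Real.exp (k' * q) - 1)) ^ (1 / (500 * d) : ℝ) := by
  classical
  have hk1 : (1 : ℝ) ≤ k := by exact_mod_cast hk
  have hk1' : (1 : ℝ) ≤ k' := by exact_mod_cast hk'
  have hdR : (1 : ℝ) ≤ d := by exact_mod_cast hd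
  set a : ℝ := Real.exp (k * p) - 1 with ha
  set b : ℝ := Real.exp (k' * q) - 1 with hb
  have ha1 : p ≤ a := le_trans (by linarith only [hp, hk1, mul_nonneg_of_nonpos_of_nonpos (le_of_lt (Mathlib.Tactic.Linarith.sub_neg_of_lt hp)) (Mathlib.Tactic.Linarith.sub_nonpos_of_le hk1)]) main_exp
  have hb1 : q ≤ b := le_trans (by linarith only [hq, hk1', mul_nonneg_of_nonpos_of_nonpos (le_of_lt (Mathlib.Tactic.Linarith.sub_neg_of_lt hq)) (Mathlib.Tactic.Linarith.sub_nonpos_of_le hk1')]) main_exp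
  have ha0 : 0 < a := hp.trans_le ha1
  have hb0 : 0 < b := hq.trans_le hb1
  have h1 : ∀ e : α × α', pr (fun θ : Θ × Θ' => e ∈ S θ.1 ×ˢ T θ.2) ≤ p * q := by
    intro e
    have e1 : pr (fun θ : Θ × Θ' => e ∈ S θ.1 ×ˢ T θ.2) =
        pr (fun θ : Θ × Θ' => ({e.1} : Finset α) ⊆ S θ.1 ∧ ({e.2} : Finset α') ⊆ T θ.2) :=
      pr_congr fun θ => by simp [mem_product]
    rw [e1, main_pr_and (fun θ => {e.1} ⊆ S θ) (fun θ => {e.2} ⊆ T θ)]
    have e2 := hS {e.1}
    have e3 := hT {e.2}
    rw [card_singleton, pow_one] at e2 e3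
    exact mul_le_mul e2 e3 (pr_nonneg _) hp.le
  have h2 : ∀ θ : Θ × Θ', 𝔼 θ' : Θ × Θ', (ovl d (S θ.1 ×ˢ T θ.2 ∩ S θ'.1 ×ˢ T θ'.2) : ℝ) ≤
      4 * d * (2 * d) ^ (2 * d) * (a * b) := by
    intro θ
    have e1 := overlap_moment hS hp.le (S θ.1) hd
    have e2 := overlap_moment hT hq.le (T θ.2) hd
    rw [hSk, ← ha] at e1
    rw [hTk, ← hb] at e2
    calc 𝔼 θ' : Θ × Θ', (ovl d (S θ.1 ×ˢ T θ.2 ∩ S θ'.1 ×ˢ T θ'.2) : ℝ)
        ≤ 𝔼 θ' : Θ × Θ',
            (d : ℝ) * (((S θ.1 ∩ S θ'.1).card : ℝ) ^ d * ((T θ.2 ∩ T θ'.2).card : ℝ) ^ d) := by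
          refine expect_le_expect fun θ' _ => (ovl_le hd _).trans ?_
          rw [product_inter_product, card_product]
          push_cast
          rw [mul_pow]
      _ = d * ((𝔼 s : Θ, ((S θ.1 ∩ S s).card : ℝ) ^ d) *
            𝔼 t : Θ', ((T θ.2 ∩ T t).card : ℝ) ^ d) := by
          rw [← mul_expect, expect_mul_expect, ← univ_product_univ, expect_product]
      _ ≤ d * ((2 * (2 * d) ^ d * a) * (2 * (2 * d) ^ d * b)) := by
          exact mul_le_mul_of_nonneg_left (mul_le_mul e1 e2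
            (expect_nonneg fun _ _ => pow_nonneg (Nat.cast_nonneg _) _)
            (mul_nonneg (by positivity) ha0.le)) (Nat.cast_nonneg _)
      _ = _ := by rw [two_mul d, pow_add]; ring
  have h3 : 4 * d * (2 * d) ^ (2 * d) * (a * b) + p * q ≤
      5 * d * (2 * d) ^ (2 * d) * (a * b) := by
    have e1 : p * q ≤ a * b := mul_le_mul ha1 hb1 hq.le ha0.le
    have e2 : (1 : ℝ) ≤ d * (2 * d) ^ (2 * d) :=
      one_le_mul_of_one_le_of_one_le hdR (one_le_pow₀ (by linarith only [hdR]))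
    have e3 : 0 < a * b := mul_pos ha0 hb0
    linarith only [e1, e2, e3, mul_nonneg_of_nonpos_of_nonpos (Mathlib.Tactic.Linarith.sub_nonpos_of_le e2) (le_of_lt (Mathlib.Tactic.Linarith.sub_neg_of_lt e3))]
  exact flip_final (fun θ : Θ × Θ' => S θ.1 ×ˢ T θ.2) hd h1 (by positivity) h2 (mul_pos ha0 hb0)
    h3 hc


end Pool.Agent.Work.MP_f474fe_lc.PT
end

-- merged part: Pool.Agent.Work.MP_f474fe_lc.PT.ACMain
section
/-!
Final inequality for threshold gates over constant-depth circuits.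
-/

set_option linter.unusedSectionVars false

namespace Pool.Agent.Work.MP_f474fe_lc.PT

open Finset BigOperators

variable {ι : Type} [Fintype ι] [DecidableEq ι]


lemma acm_secrets (m km : ℕ) {n kn : ℕ} (E : Fin n → Fin kn) :
    Secrets m km E = Sub (fun _ : Fin m => ()) univ km ×ˢ Sub E univ 1 := by
  ext ST
  simp [Secrets, mem_Sub, Bal, Transversal]

lemma acm_total {m n kn : ℕ} (km : ℕ) (E : Fin n → Fin kn) (hne : (Secrets m km E).Nonempty)
    (A : (Fin m × Fin n → Bool) → Bool) :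
    1 - 𝔼 ST ∈ Secrets m km E, pr (fun x => A x ≠ A (plantH (ST.1 ×ˢ ST.2) x)) ≤
      totalError km E A := by
  classical
  have hcardG : (Fintype.card (Fin m × Fin n → Bool) : ℝ) = 2 ^ (m * n) := by simp
  have hplant : ∀ (ST : Finset (Fin m) × Finset (Fin n)) (G : Fin m × Fin n → Bool),
      plant G ST = plantH (ST.1 ×ˢ ST.2) G := by
    intro ST G
    funext e
    simp [plant, plantH, mem_product]
  have hT1 : ((univ.filter fun G => A G = true).card : ℝ) / 2 ^ (m * n) =
      1 - pr fun G => A G = false := by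
    rw [← pr_not, pr_eq_card, hcardG]
    congr 2
    exact congrArg card (filter_congr fun G _ => by simp)
  have hT2 : (((univ ×ˢ Secrets m km E).filter fun z => A (plant z.1 z.2) = false).card : ℝ) /
      (2 ^ (m * n) * (Secrets m km E).card) =
      𝔼 ST ∈ Secrets m km E, pr fun G => A (plantH (ST.1 ×ˢ ST.2) G) = false := by
    rw [expect_eq_sum_div_card, ← div_div]
    congr 1
    rw [card_filter, sum_product_right]
    push_cast
    rw [sum_div]
    refine sum_congr rfl fun ST _ => ?_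
    rw [pr_eq_card, hcardG, card_filter]
    push_cast
    simp only [hplant]
  unfold totalError
  rw [hT1, hT2]
  have : pr (fun G => A G = false) ≤
      (𝔼 ST ∈ Secrets m km E, pr fun G => A (plantH (ST.1 ×ˢ ST.2) G) = false) +
        𝔼 ST ∈ Secrets m km E, pr (fun x => A x ≠ A (plantH (ST.1 ×ˢ ST.2) x)) := by
    rw [← expect_add_distrib, ← expect_const hne (pr fun G => A G = false)]
    refine expect_le_expect fun ST _ => pr_le_add fun G hG => ?_
    by_contra hcon
    push Not at hcon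
    exact hcon.1 (hcon.2 ▸ hG)
  linarith only [this]

lemma acm_inner {m n km kn a b : ℕ} {E : Fin n → Fin kn} (hkm : 1 ≤ km) (hkn : 1 ≤ kn)
    {S : Finset (Fin m)} {T : Finset (Fin n)} (hS : Bal (fun _ : Fin m => ()) S a) (hT : Bal E T b)
    (ha : km ≤ a) (hb : 1 ≤ b) {s e : ℕ} (he : 1 ≤ e) (c : Fin s → Finset (Fin m × Fin n) → ℝ)
    (hc : ∀ i, Deg (c i) e) (g : (Fin s → Bool) → Bool) (A : (Fin m × Fin n → Bool) → Bool)
    (hA : ∀ y, A y = g fun i => decide (0 ≤ bv (c i) y)) :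
    𝔼 θ ∈ Sub (fun _ : Fin m => ()) S km ×ˢ Sub E T 1,
      pr (fun y => A y ≠ A (plantH (θ.1 ×ˢ θ.2) y)) ≤
      s * (256 * e * ((Real.exp (km * ((km : ℝ) / a)) - 1) *
        (Real.exp (kn * (((1 : ℕ) : ℝ) / b)) - 1)) ^ (1 / (500 * e) : ℝ)) := by
  classical
  have : Nonempty (Sub (fun _ : Fin m => ()) S km) := (sub_nonempty hS ha).to_subtype
  have : Nonempty (Sub E T 1) := (sub_nonempty hT hb).to_subtype
  let Θ := (Sub (fun _ : Fin m => ()) S km) × (Sub E T 1)
  let H : Θ → Finset (Fin m × Fin n) := fun θ => θ.1.1 ×ˢ θ.2.1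
  have ha0 : (0 : ℝ) < a := by exact_mod_cast (by omega : 0 < a)
  have hb0 : (0 : ℝ) < b := by exact_mod_cast (by omega : 0 < b)
  have hkm0 : (0 : ℝ) < km := by exact_mod_cast (by omega : 0 < km)
  have hflip : ∀ i, flip H (c i) ≤ 256 * e * ((Real.exp (km * ((km : ℝ) / a)) - 1) *
        (Real.exp (kn * (((1 : ℕ) : ℝ) / b)) - 1)) ^ (1 / (500 * e) : ℝ) := fun i =>
    flip_rect (sub_subprod hS ha) (sub_subprod hT hb) (by positivity) (by positivity) hkm hkn
      (fun θ => by simpa using bal_card (mem_Sub.1 θ.2).2)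
      (fun θ => by simpa using bal_card (mem_Sub.1 θ.2).2) he (hc i)
  have e1 : 𝔼 θ ∈ Sub (fun _ : Fin m => ()) S km ×ˢ Sub E T 1,
      pr (fun y => A y ≠ A (plantH (θ.1 ×ˢ θ.2) y)) =
      pr fun z : Θ × (Fin m × Fin n → Bool) => A z.2 ≠ A (plantH (H z.1) z.2) := by
    rw [pr_prod, expect_product, ← univ_product_univ, expect_product,
      ← expect_sub (Sub (fun _ : Fin m => ()) S km)]
    refine expect_congr rfl fun θ1 _ => ?_
    rw [← expect_sub (Sub E T 1)]
  rw [e1]
  calc (pr fun z : Θ × (Fin m × Fin n → Bool) => A z.2 ≠ A (plantH (H z.1) z.2))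
      ≤ pr fun z : Θ × (Fin m × Fin n → Bool) => ∃ i ∈ (univ : Finset (Fin s)),
          ¬ (0 ≤ bv (c i) z.2 ↔ 0 ≤ bv (c i) (plantH (H z.1) z.2)) := by
        refine pr_mono fun z hz => ?_
        by_contra hcon
        push Not at hcon
        apply hz
        rw [hA, hA]
        congr 1
        funext i
        exact decide_eq_decide.2 (hcon i (mem_univ i))
    _ ≤ ∑ i : Fin s, flip H (c i) := pr_exists_le _ _
    _ ≤ ∑ _i : Fin s, _ := sum_le_sum fun i _ => hflip i
    _ = _ := by simp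

lemma acm_plant {H W : Finset ι} (h : H ⊆ W) (x y : ι → Bool) :
    plantH H (W.piecewise y x) = W.piecewise (plantH H y) x := by
  funext i
  by_cases hi : i ∈ W
  · simp [plantH, hi]
  · have : i ∉ H := fun h' => hi (h h')
    simp [plantH, hi, this]

lemma acm_pr_piece (W : Finset ι) (P : (ι → Bool) → Prop) :
    pr P = 𝔼 x, pr fun y => P (W.piecewise y x) := by
  unfold pr
  rw [expect_piece W]

lemma acm_exp {t y : ℝ} (ht : 0 ≤ t) (hty : t ≤ 2 * y) (hy : y ≤ 1) :
    0 ≤ Real.exp t - 1 ∧ Real.exp t - 1 ≤ 8 * y := by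
  have hy0 : 0 ≤ y := by linarith
  refine ⟨by linarith [Real.add_one_le_exp t], ?_⟩
  have h1 : Real.exp t ≤ Real.exp y * Real.exp y := by
    rw [← Real.exp_add]; exact Real.exp_le_exp.2 (by linarith)
  have h2 : |Real.exp y - 1| ≤ 2 * |y| := Real.abs_exp_sub_one_le (by rw [abs_of_nonneg hy0]; exact hy)
  rw [abs_of_nonneg hy0] at h2
  have h3 := (abs_le.1 h2).2
  have h4 : 0 < Real.exp y := Real.exp_pos y
  linarith only [h1, h3, ht, hy, hty, h4, mul_nonneg_of_nonpos_of_nonpos (Mathlib.Tactic.Linarith.sub_nonpos_of_le ht) (Mathlib.Tactic.Linarith.sub_nonpos_of_le hy), mul_nonneg_of_nonpos_of_nonpos (Mathlib.Tactic.Linarith.sub_nonpos_of_le ht) (Mathlib.Tactic.Linarith.sub_nonpos_of_le h3), mul_nonneg_of_nonpos_of_nonpos (Mathlib.Tactic.Linarith.sub_nonpos_of_le hty) (Mathlib.Tactic.Linarith.sub_nonpos_of_le hy), mul_nonneg_of_nonpos_of_nonpos (Mathlib.Tactic.Linarith.sub_nonpos_of_le hty) (Mathlib.Tactic.Linarith.sub_nonpos_of_le h3), mul_nonneg_of_nonpos_of_nonpos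 (Mathlib.Tactic.Linarith.sub_nonpos_of_le h3) (le_of_lt (Mathlib.Tactic.Linarith.sub_neg_of_lt h4))]

lemma acm_div {N P k : ℕ} (hP : 1 ≤ P) (hk : 1 ≤ k) (h : P * P * k ≤ N) :
    k ≤ N / P ∧ N ≤ 2 * P * (N / P) := by
  have h1 : P * k ≤ N / P := by
    rw [Nat.le_div_iff_mul_le hP]; linarith only [h]
  have h2 : k ≤ N / P := le_trans (Nat.le_mul_of_pos_left _ hP) h1
  refine ⟨h2, ?_⟩
  have h3 := Nat.lt_mul_div_succ N hP
  nlinarith

lemma acm_first {g L : ℝ} (hg : 1 ≤ g) (hL0 : 0 ≤ L) (hL : L ≤ 64 / g) {e : ℝ} (he : 1 ≤ e) :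
    L ^ (1 / (500 * e)) ≤ 2 * g ^ (-(1 / (500 * e))) := by
  have hg0 : 0 < g := by linarith
  have hx : 0 ≤ 1 / (500 * e) := by positivity
  calc L ^ (1 / (500 * e)) ≤ (64 / g) ^ (1 / (500 * e)) := Real.rpow_le_rpow hL0 hL hx
    _ = 64 ^ (1 / (500 * e)) * g ^ (-(1 / (500 * e))) := by
        rw [Real.div_rpow (by norm_num) hg0.le, Real.rpow_neg hg0.le, div_eq_mul_inv]
    _ ≤ 2 * g ^ (-(1 / (500 * e))) := by
        gcongr
        calc (64 : ℝ) ^ (1 / (500 * e)) ≤ 64 ^ (1 / 6 : ℝ) := by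
              apply Real.rpow_le_rpow_of_exponent_le (by norm_num)
              rw [div_le_div_iff₀ (by positivity) (by norm_num)]; linarith only [he]
          _ = 2 := by
              rw [show (64 : ℝ) = 2 ^ (6 : ℝ) by norm_num, ← Real.rpow_mul (by norm_num)]
              norm_num

lemma acm_second {g : ℝ} (hg : 1 ≤ g) {D u K : ℕ} (hD : 1 ≤ D) (hu : 1 ≤ u) (hK : 1 ≤ K)
    (h : g ^ (1 / (2 * D) : ℝ) ≤ 2 * K) :
    ((u ^ 2 : ℕ) : ℝ) * (8 * (u ^ 2 : ℕ)) ^ (u ^ 2 + u ^ 2) * (1 / (K : ℝ)) ^ (2 * u) ≤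
      (16 * (u : ℝ) ^ 2) ^ (3 * u ^ 2) * g ^ (-((u : ℝ) / D)) := by
  have hg0 : 0 < g := by linarith only [hg]
  have hK0 : (0 : ℝ) < K := by exact_mod_cast hK
  have hD0 : (0 : ℝ) < D := by exact_mod_cast hD
  have hr : 0 < g ^ (1 / (2 * D) : ℝ) := Real.rpow_pos_of_pos hg0 _
  have h1 : 1 / (K : ℝ) ≤ 2 * (g ^ (1 / (2 * D) : ℝ))⁻¹ := by
    rw [← div_eq_mul_inv, div_le_div_iff₀ hK0 hr]; linarith only [h]
  have h2 : ((g ^ (1 / (2 * D) : ℝ))⁻¹) ^ (2 * u) = g ^ (-((u : ℝ) / D)) := by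
    rw [← Real.rpow_neg hg0.le, ← Real.rpow_natCast, ← Real.rpow_mul hg0.le]
    congr 1
    push_cast
    field_simp
  have h3 : (1 / (K : ℝ)) ^ (2 * u) ≤ 2 ^ (2 * u) * g ^ (-((u : ℝ) / D)) := by
    rw [← h2, ← mul_pow]
    exact pow_le_pow_left₀ (by positivity) h1 _
  set l : ℕ := u ^ 2 with hl
  have hul : u ≤ l := by nlinarith only [hl, hu]
  have hl1 : (1 : ℝ) ≤ l := by exact_mod_cast hu.trans hul
  have hlc : ((u : ℝ) ^ 2) = l := by rw [hl]; push_cast; ring
  rw [hlc]
  have h4 : (l : ℝ) * (8 * l) ^ (l + l) * 2 ^ (2 * u) ≤ (16 * l) ^ (3 * l) := by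
    have e1 : (16 * (l : ℝ)) ^ (3 * l) = (8 * l) ^ (l + l) * 2 ^ (2 * l) * (16 * l) ^ l := by
      rw [show 3 * l = (l + l) + l by ring, pow_add, show (16 * (l : ℝ)) = (8 * l) * 2 by ring,
        mul_pow (8 * (l : ℝ)) 2 (l + l), two_mul l]
    have e2 : (2 : ℝ) ^ (2 * u) ≤ 2 ^ (2 * l) := pow_le_pow_right₀ (by norm_num) (by omega)
    have e3 : (l : ℝ) ≤ (16 * l) ^ l := by
      calc (l : ℝ) ≤ 16 * l := by linarith only [hl1]
        _ = (16 * l) ^ 1 := (pow_one _).symm
        _ ≤ _ := pow_le_pow_right₀ (by linarith only [hl1]) (hu.trans hul)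
    rw [e1]
    calc (l : ℝ) * (8 * l) ^ (l + l) * 2 ^ (2 * u) = (8 * l) ^ (l + l) * 2 ^ (2 * u) * l := by ring
      _ ≤ _ := by gcongr
  calc (l : ℝ) * (8 * l) ^ (l + l) * (1 / (K : ℝ)) ^ (2 * u)
      ≤ (l : ℝ) * (8 * l) ^ (l + l) * (2 ^ (2 * u) * g ^ (-((u : ℝ) / D))) := by gcongr
    _ = (l : ℝ) * (8 * l) ^ (l + l) * 2 ^ (2 * u) * g ^ (-((u : ℝ) / D)) := by ring
    _ ≤ _ := by gcongr

theorem ac_main (m n km kn : ℕ) (E : Fin n → Fin kn) (hkm : 1 ≤ km) (hkn : 1 ≤ kn) (hdvd : kn ∣ n)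
    (hE : ∀ j, (univ.filter fun v => E v = j).card = n / kn) (g : ℝ) (hg : 1 ≤ g)
    (hgm : g * (km : ℝ) ^ 2 ≤ m) (hgn : g * (kn : ℝ) ^ 2 ≤ n) (s d D M u : ℕ) (hd : 1 ≤ d)
    (hD : 1 ≤ D) (hu : 1 ≤ u) (A : (Fin m × Fin n → Bool) → Bool) (hA : CircTest s d D M A) :
    1 - 512 * s * d * (u : ℝ) ^ 2 * g ^ (-(1 / (500 * d * (u : ℝ) ^ 2))) -
      M * (16 * (u : ℝ) ^ 2) ^ (3 * u ^ 2) * g ^ (-((u : ℝ) / D)) ≤ totalError km E A := by
  classical
  obtain ⟨F, r, h, q, gg, hF, hh, hq, hgg⟩ := hA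
  have hg0 : 0 < g := by linarith only [hg]
  have hD0 : (0 : ℝ) < D := by exact_mod_cast hD
  set K : ℕ := ⌊g ^ (1 / (2 * D) : ℝ)⌋₊ with hKdef
  have hr1 : 1 ≤ g ^ (1 / (2 * D) : ℝ) := Real.one_le_rpow hg (by positivity)
  have hK : 1 ≤ K := Nat.le_floor (by simpa using hr1)
  have hK1 : (1 : ℝ) ≤ K := by exact_mod_cast hK
  have hKle : (K : ℝ) ≤ g ^ (1 / (2 * D) : ℝ) := Nat.floor_le (by linarith only [hr1])
  have hK2 : g ^ (1 / (2 * D) : ℝ) ≤ 2 * K := by
    have := Nat.lt_floor_add_one (g ^ (1 / (2 * D) : ℝ))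
    linarith only [hK1, this]
  set P : ℕ := K ^ D with hPdef
  have hP : 1 ≤ P := Nat.one_le_pow _ _ hK
  have hP1 : (1 : ℝ) ≤ P := by exact_mod_cast hP
  have hPg : (P : ℝ) * P ≤ g := by
    have e1 : (P : ℝ) * P = (K : ℝ) ^ (2 * D) := by rw [hPdef]; push_cast; ring
    have e2 : (g ^ (1 / (2 * D) : ℝ)) ^ (2 * D) = g := by
      rw [← Real.rpow_natCast, ← Real.rpow_mul hg0.le]
      have : (1 / (2 * D) : ℝ) * ((2 * D : ℕ) : ℝ) = 1 := by push_cast; field_simp
      rw [this, Real.rpow_one]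
    rw [e1, ← e2]
    exact pow_le_pow_left₀ (by linarith only [hK1]) hKle _
  obtain ⟨b, hb⟩ := hdvd
  have hnb : n / kn = b := by rw [hb, Nat.mul_div_cancel_left _ hkn]
  rw [hnb] at hE
  have hkm1 : (1 : ℝ) ≤ km := by exact_mod_cast hkm
  have hkn1 : (1 : ℝ) ≤ kn := by exact_mod_cast hkn
  have hbR : g * kn ≤ b := by
    have : g * (kn : ℝ) ^ 2 ≤ kn * b := by rw [hb] at hgn; exact_mod_cast hgn
    (refine le_of_not_gt fun h_nl => ?_; linarith only [h_nl, this, hkn1, mul_nonneg_of_nonpos_of_nonpos (Mathlib.Tactic.Linarith.sub_nonpos_of_le hkn1) (le_of_lt (Mathlib.Tactic.Linarith.sub_neg_of_lt h_nl))])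
  have hm' : P * P * (km * km) ≤ m := by
    have : (P : ℝ) * P * (km * km) ≤ m := by linarith only [hgm, hPg, mul_nonneg (by linarith : (0 : ℝ) ≤ km) (by linarith : (0 : ℝ) ≤ km), mul_nonneg_of_nonpos_of_nonpos (Mathlib.Tactic.Linarith.sub_nonpos_of_le (mul_self_nonneg ↑km)) (Mathlib.Tactic.Linarith.sub_nonpos_of_le hPg)]
    exact_mod_cast this
  have hb' : P * P * kn ≤ b := by
    have : (P : ℝ) * P * kn ≤ b := by linarith only [hbR, hPg, mul_nonneg_of_nonpos_of_nonpos (Mathlib.Tactic.Linarith.sub_nonpos_of_le (Mathlib.Tactic.Linarith.natCast_nonneg ℝ kn)) (Mathlib.Tactic.Linarith.sub_nonpos_of_le hPg)]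
    exact_mod_cast this
  obtain ⟨ha1, ha2⟩ := acm_div hP (Nat.mul_pos hkm hkm) hm'
  obtain ⟨hb1, hb2⟩ := acm_div hP hkn hb'
  set a' := m / P with ha'
  set b' := b / P with hb''
  have hkma : km ≤ a' := le_trans (Nat.le_mul_of_pos_left _ hkm) ha1
  have hb'1 : 1 ≤ b' := hkn.trans hb1
  have ha0 : (0 : ℝ) < a' := by exact_mod_cast (by omega : 0 < a')
  have hb0 : (0 : ℝ) < b' := by exact_mod_cast (by omega : 0 < b')
  have hy1 : (P : ℝ) / g ≤ 1 := by rw [div_le_one hg0]; linarith only [hPg, hP1, mul_nonneg_of_nonpos_of_nonpos (Mathlib.Tactic.Linarith.sub_nonpos_of_le (Mathlib.Tactic.Linarith.natCast_nonneg ℝ P)) (Mathlib.Tactic.Linarith.sub_nonpos_of_le hP1)]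
  have t1 : km * ((km : ℝ) / a') ≤ 2 * (P / g) := by
    have : (m : ℝ) ≤ 2 * P * a' := by exact_mod_cast ha2
    rw [← mul_div_assoc, ← mul_div_assoc, div_le_div_iff₀ ha0 hg0]
    linarith only [hgm, this]
  have t2 : kn * (((1 : ℕ) : ℝ) / b') ≤ 2 * (P / g) := by
    have : (b : ℝ) ≤ 2 * P * b' := by exact_mod_cast hb2
    rw [← mul_div_assoc, ← mul_div_assoc, div_le_div_iff₀ hb0 hg0]
    push_cast
    linarith only [hbR, this]
  obtain ⟨x1, x2⟩ := acm_exp (by positivity) t1 hy1
  obtain ⟨y1, y2⟩ := acm_exp (by positivity) t2 hy1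
  have hL : (Real.exp (km * ((km : ℝ) / a')) - 1) * (Real.exp (kn * (((1 : ℕ) : ℝ) / b')) - 1) ≤
      64 / g := by
    calc _ ≤ (8 * (P / g)) * (8 * (P / g)) := mul_le_mul x2 y2 y1 (by positivity)
      _ = 64 / g * ((P * P) / g) := by field_simp; norm_num
      _ ≤ 64 / g * 1 := by gcongr; rw [div_le_one hg0]; exact hPg
      _ = _ := mul_one _
  have he : 1 ≤ d * u ^ 2 := Nat.mul_pos hd (Nat.one_le_pow _ _ hu)
  have heR : (1 : ℝ) ≤ ((d * u ^ 2 : ℕ) : ℝ) := by exact_mod_cast he
  have hB := acm_first hg (mul_nonneg x1 y1) hL heR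
  have hE1 : Bal (fun _ : Fin m => ()) univ m := fun j => by simp
  have hE2 : Bal E univ b := hE
  have ham : a' ≤ m := Nat.div_le_self _ _
  have hbb : b' ≤ b := Nat.div_le_self _ _
  have hne : (Secrets m km E).Nonempty := by
    rw [acm_secrets]
    exact (sub_nonempty hE1 (hkma.trans ham)).product (sub_nonempty hE2 (hb'1.trans hbb))
  refine le_trans ?_ (acm_total km E hne A)
  rw [acm_secrets, prod_tower hE1 hE2 ham hkma hbb hb'1]
  have hlay := rect_layers hE1 hE2 hK hu hF
  have hsec := acm_second hg hD hu hK hK2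
  set B : ℝ := s * (256 * ((d * u ^ 2 : ℕ) : ℝ) * ((Real.exp (km * ((km : ℝ) / a')) - 1) *
        (Real.exp (kn * (((1 : ℕ) : ℝ) / b')) - 1)) ^ (1 / (500 * ((d * u ^ 2 : ℕ) : ℝ)) : ℝ))
    with hBdef
  have hB0 : 0 ≤ B := by
    have := Real.rpow_nonneg (mul_nonneg x1 y1) (1 / (500 * ((d * u ^ 2 : ℕ) : ℝ)) : ℝ)
    positivity
  have hXne : (Sub (fun _ : Fin m => ()) univ a' ×ˢ Sub E univ b').Nonempty :=
    (sub_nonempty hE1 ham).product (sub_nonempty hE2 hbb)
  have key : 𝔼 z ∈ Sub (fun _ : Fin m => ()) univ a' ×ˢ Sub E univ b',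
      𝔼 z' ∈ Sub (fun _ : Fin m => ()) z.1 km ×ˢ Sub E z.2 1,
        pr (fun x => A x ≠ A (plantH (z'.1 ×ˢ z'.2) x)) ≤
      𝔼 z ∈ Sub (fun _ : Fin m => ()) univ a' ×ˢ Sub E univ b',
        (pr (fun x => ¬ ∀ f ∈ F, DT (u ^ 2) (Rs (z.1 ×ˢ z.2) x f)) + B) := by
    refine expect_le_expect fun z hz => ?_
    obtain ⟨hz1, hz2⟩ := mem_product.1 hz
    have hS := (mem_Sub.1 hz1).2
    have hT := (mem_Sub.1 hz2).2
    have hcne : (Sub (fun _ : Fin m => ()) z.1 km ×ˢ Sub E z.2 1).Nonempty :=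
      (sub_nonempty hS hkma).product (sub_nonempty hT hb'1)
    have e1 : 𝔼 z' ∈ Sub (fun _ : Fin m => ()) z.1 km ×ˢ Sub E z.2 1,
        pr (fun x => A x ≠ A (plantH (z'.1 ×ˢ z'.2) x)) =
        𝔼 x0, 𝔼 z' ∈ Sub (fun _ : Fin m => ()) z.1 km ×ˢ Sub E z.2 1,
          pr (fun y => Rs (z.1 ×ˢ z.2) x0 A y ≠ Rs (z.1 ×ˢ z.2) x0 A (plantH (z'.1 ×ˢ z'.2) y)) := by
      rw [expect_comm]
      refine expect_congr rfl fun z' hz' => ?_
      obtain ⟨h1, h2⟩ := mem_product.1 hz'
      have hsub : z'.1 ×ˢ z'.2 ⊆ z.1 ×ˢ z.2 :=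
        product_subset_product (mem_Sub.1 h1).1 (mem_Sub.1 h2).1
      rw [acm_pr_piece (z.1 ×ˢ z.2)]
      exact expect_congr rfl fun x0 _ => pr_congr fun y => by simp only [acm_plant hsub, Rs]
    rw [e1]
    conv_rhs => rw [← expect_const (univ_nonempty (α := Fin m × Fin n → Bool)) B]
    unfold pr
    rw [← expect_add_distrib]
    refine expect_le_expect fun x0 _ => ?_
    by_cases hgood : ∀ f ∈ F, DT (u ^ 2) (Rs (z.1 ×ˢ z.2) x0 f)
    · rw [if_neg (not_not.2 hgood), zero_add]
      choose c hc hcv using fun i => poly_deg (fun j => Rs (z.1 ×ˢ z.2) x0 (h j))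
        (fun j => hgood _ (hh j)) (q i) (hq i)
      refine acm_inner hkm hkn hS hT hkma hb'1 he c hc gg (Rs (z.1 ×ˢ z.2) x0 A) fun y => ?_
      unfold Rs
      rw [hgg]
      congr 1
      funext i
      rw [← hcv i y]
      rfl
    · rw [if_pos hgood]
      refine le_trans ?_ (le_add_of_nonneg_right hB0)
      conv_rhs => rw [← expect_const hcne (1 : ℝ)]
      exact expect_le_expect fun z' _ => pr_le_one _
  rw [expect_add_distrib, expect_const hXne] at key
  have hM : (0 : ℝ) ≤ M := Nat.cast_nonneg _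
  have f1 : B ≤ 512 * s * d * (u : ℝ) ^ 2 * g ^ (-(1 / (500 * d * (u : ℝ) ^ 2))) := by
    have e : ((d * u ^ 2 : ℕ) : ℝ) = d * (u : ℝ) ^ 2 := by push_cast; ring
    rw [hBdef]
    calc _ ≤ s * (256 * ((d * u ^ 2 : ℕ) : ℝ) *
          (2 * g ^ (-(1 / (500 * ((d * u ^ 2 : ℕ) : ℝ)))))) := by gcongr
      _ = _ := by rw [e, mul_assoc (500 : ℝ)]; ring
  have f2 := mul_le_mul_of_nonneg_left hsec hM
  have f3 := hlay.trans f2
  rw [← mul_assoc] at f3
  linarith only [hlay, key, f1, f2]


end Pool.Agent.Work.MP_f474fe_lc.PT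
end
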