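import Mathlib

/-!
The testing problem k-BPC (k-partite bipartite planted clique) and tests built from
polynomial threshold functions.
-/

namespace Pool.Agent.Work.MP_f474fe_lc.PT

open Finset

/-- `T` meets every block of the partition (block of `v` is `E v`) in exactly one vertex. -/
def Transversal {n kn : ℕ} (E : Fin n → Fin kn) (T : Finset (Fin n)) : Prop :=
  ∀ j, (T.filter fun v => E v = j).card = 1

open Classical in
/-- All pairs `(S, T)`: `S` a `km`-element set of left vertices, `T` a transversal of the blocks. -/
noncomputable def Secrets (m km : ℕ) {n kn : ℕ} (E : Fin n → Fin kn) :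
    Finset (Finset (Fin m) × Finset (Fin n)) :=
  univ.filter fun ST => ST.1.card = km ∧ Transversal E ST.2

/-- Add to the bipartite graph `G` all edges between `S` and `T`. -/
def plant {m n : ℕ} (G : Fin m × Fin n → Bool) (ST : Finset (Fin m) × Finset (Fin n)) :
    Fin m × Fin n → Bool :=
  fun e => G e || decide (e.1 ∈ ST.1 ∧ e.2 ∈ ST.2)

/-- Total error of the test `A`: probability of the answer 1 on a uniform graph plus probability
of the answer 0 on a uniform graph with a uniform pair `(S, T)` planted. -/
noncomputable def totalError {m n kn : ℕ} (km : ℕ) (E : Fin n → Fin kn)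
    (A : (Fin m × Fin n → Bool) → Bool) : ℝ :=
  ((univ.filter fun G => A G = true).card : ℝ) / 2 ^ (m * n) +
    (((univ ×ˢ Secrets m km E).filter fun z => A (plant z.1 z.2) = false).card : ℝ) /
      (2 ^ (m * n) * (Secrets m km E).card)

open Classical in
/-- `A` is a Boolean function of the signs of `s` real polynomials of degree at most `d` in the
entries (0 or 1) of the biadjacency matrix. -/
def PTFTest {m n : ℕ} (s d : ℕ) (A : (Fin m × Fin n → Bool) → Bool) : Prop :=
  ∃ (p : Fin s → MvPolynomial (Fin m × Fin n) ℝ) (g : (Fin s → Bool) → Bool),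
    (∀ i, (p i).totalDegree ≤ d) ∧
      ∀ G, A G = g fun i => decide (0 ≤ MvPolynomial.eval (fun e => if G e then 1 else 0) (p i))

end Pool.Agent.Work.MP_f474fe_lc.PT
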