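import Mathlib
import Pool.Agent.Work.MP_f474fe_lc.PT.Model

-- merged part: Pool.Agent.Work.MP_f474fe_lc.PT.Defs
section
/-!
Multilinear polynomials given by coefficient functions, uniform probabilities, basic lemmas.
-/

set_option linter.unusedSectionVars false

namespace Pool.Agent.Work.MP_f474fe_lc.PT

open Finset BigOperators

variable {ι : Type} [Fintype ι] [DecidableEq ι]

/-- The sign of a bit. -/
def sg (b : Bool) : ℝ := if b then 1 else -1

/-- The multilinear polynomial with coefficients `c` at the real point `z`. -/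
def ev (c : Finset ι → ℝ) (z : ι → ℝ) : ℝ := ∑ A, c A * ∏ i ∈ A, z i

/-- Its value at a point of the cube. -/
def bv (c : Finset ι → ℝ) (x : ι → Bool) : ℝ := ev c fun i => sg (x i)

/-- Degree at most `d`. -/
def Deg (c : Finset ι → ℝ) (d : ℕ) : Prop := ∀ A, c A ≠ 0 → A.card ≤ d

/-- Squared norm. -/
def nrm (c : Finset ι → ℝ) : ℝ := ∑ A, c A ^ 2

/-- Influence of a variable. -/
def infl (c : Finset ι → ℝ) (i : ι) : ℝ := ∑ A with i ∈ A, c A ^ 2

/-- Sum of the squared influences. -/
def reg (c : Finset ι → ℝ) : ℝ := ∑ i, infl c i ^ 2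

/-- Partial derivative. -/
def der (c : Finset ι → ℝ) (i : ι) : Finset ι → ℝ :=
  fun A => if i ∈ A then 0 else c (insert i A)

/-- The part without the variable `i`. -/
def rst (c : Finset ι → ℝ) (i : ι) : Finset ι → ℝ := fun A => if i ∈ A then 0 else c A

open Classical in
/-- Probability under the uniform distribution. -/
noncomputable def pr {Ω : Type} [Fintype Ω] (P : Ω → Prop) : ℝ :=
  𝔼 ω, if P ω then (1 : ℝ) else 0

/-- Standardised symmetric coordinates with fourth moment at most 3. -/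
structure Std {Λ : Type} [Fintype Λ] (φ : ι → Λ → ℝ) : Prop where
  m1 : ∀ i, 𝔼 l, φ i l = 0
  m2 : ∀ i, 𝔼 l, φ i l ^ 2 = 1
  m3 : ∀ i, 𝔼 l, φ i l ^ 3 = 0
  m4 : ∀ i, 𝔼 l, φ i l ^ 4 ≤ 3

/-- First row of the rotation of two sign vectors. -/
def rotU (α β : ℝ) (ω : ι → Bool × Bool) : ι → ℝ := fun i => α * sg (ω i).1 + β * sg (ω i).2

/-- Second row of the rotation of two sign vectors. -/
def rotW (α β : ℝ) (ω : ι → Bool × Bool) : ι → ℝ := fun i => β * sg (ω i).1 - α * sg (ω i).2

/-- Rational parametrisation of the circle, first coordinate. -/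
noncomputable def ca (s : ℝ) : ℝ := (1 - s ^ 2) / (1 + s ^ 2)

/-- Rational parametrisation of the circle, second coordinate. -/
noncomputable def cb (s : ℝ) : ℝ := 2 * s / (1 + s ^ 2)

/-- Small-ball probability. -/
noncomputable def sm (c : Finset ι → ℝ) (a : ℝ) : ℝ := pr fun x => |bv c x| ≤ a

/-- Error term of the replacement step. -/
noncomputable def Err (c : Finset ι → ℝ) (d : ℕ) (κ a : ℝ) : ℝ :=
  160000 * 9 ^ d * reg c / (κ * a) ^ 8

/-- Exponent of the small-ball scale. -/
def NN (d k : ℕ) : ℕ := 35 * d * (Nat.log 2 d + 6) + 44 * d * k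

/-- Restriction: the variables in `J` are set according to `ρ`. -/
def res (c : Finset ι → ℝ) (J : Finset ι) (ρ : ι → Bool) : Finset ι → ℝ :=
  fun B => if Disjoint B J then ∑ C ∈ J.powerset, c (B ∪ C) * ∏ i ∈ C, sg (ρ i) else 0

/-- Set the bits in `H` to 1. -/
def plantH (H : Finset ι) (x : ι → Bool) : ι → Bool := fun i => x i || decide (i ∈ H)

/-- Number of nonempty subsets of `Z` of size at most `d`. -/
def ovl (d : ℕ) (Z : Finset ι) : ℕ := (Z.powerset.filter fun C => C.Nonempty ∧ C.card ≤ d).card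

/-- Probability that planting changes the sign. -/
noncomputable def flip {Θ : Type} [Fintype Θ] (H : Θ → Finset ι) (c : Finset ι → ℝ) : ℝ :=
  pr fun z : Θ × (ι → Bool) => ¬ (0 ≤ bv c z.2 ↔ 0 ≤ bv c (plantH (H z.1) z.2))

/-- A random set contains a given set `D` with probability at most `p ^ |D|`. -/
def SubProd {Θ α : Type} [Fintype Θ] (S : Θ → Finset α) (p : ℝ) : Prop :=
  ∀ D : Finset α, pr (fun θ => D ⊆ S θ) ≤ p ^ D.card

section Basic

variable {Ω : Type} [Fintype Ω]

lemma sg_sq (b : Bool) : sg b ^ 2 = 1 := by cases b <;> simp [sg]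

lemma sg_not (b : Bool) : sg (!b) = - sg b := by cases b <;> simp [sg]

lemma sg_true : sg true = 1 := by simp [sg]

lemma pr_nonneg (P : Ω → Prop) : 0 ≤ pr P := by
  unfold pr
  exact expect_nonneg fun _ _ => by split_ifs <;> norm_num

lemma pr_mono {P Q : Ω → Prop} (h : ∀ ω, P ω → Q ω) : pr P ≤ pr Q := by
  unfold pr
  refine expect_le_expect fun ω _ => ?_
  by_cases hp : P ω
  · simp [hp, h ω hp]
  · simp only [hp, if_false]; split_ifs <;> norm_num

lemma pr_congr {P Q : Ω → Prop} (h : ∀ ω, P ω ↔ Q ω) : pr P = pr Q :=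
  le_antisymm (pr_mono fun ω => (h ω).1) (pr_mono fun ω => (h ω).2)

lemma pr_not [Nonempty Ω] (P : Ω → Prop) : pr (fun ω => ¬ P ω) = 1 - pr P := by
  unfold pr
  rw [eq_sub_iff_add_eq, ← expect_add_distrib]
  rw [Finset.expect_congr rfl (g := fun _ => (1 : ℝ))]
  · simp
  · intro ω _
    by_cases hp : P ω <;> simp [hp]

lemma pr_le_one [Nonempty Ω] (P : Ω → Prop) : pr P ≤ 1 := by
  have h := pr_not P
  have h2 := pr_nonneg fun ω => ¬ P ω
  linarith

/-- An event bounded pointwise by a function. -/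
lemma pr_le_expect {P : Ω → Prop} {f : Ω → ℝ} (h0 : ∀ ω, 0 ≤ f ω) (h1 : ∀ ω, P ω → 1 ≤ f ω) :
    pr P ≤ 𝔼 ω, f ω := by
  unfold pr
  refine expect_le_expect fun ω _ => ?_
  by_cases hp : P ω
  · simpa [hp] using h1 ω hp
  · simpa [hp] using h0 ω

lemma expect_le_pr {P : Ω → Prop} {f : Ω → ℝ} (h0 : ∀ ω, ¬ P ω → f ω ≤ 0) (h1 : ∀ ω, f ω ≤ 1) :
    𝔼 ω, f ω ≤ pr P := by
  unfold pr
  refine expect_le_expect fun ω _ => ?_
  by_cases hp : P ω
  · simpa [hp] using h1 ω
  · simpa [hp] using h0 ω hp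

lemma pr_or_le (P Q : Ω → Prop) : pr (fun ω => P ω ∨ Q ω) ≤ pr P + pr Q := by
  unfold pr
  rw [← expect_add_distrib]
  refine expect_le_expect fun ω _ => ?_
  by_cases hp : P ω <;> by_cases hq : Q ω <;> simp [hp, hq]

lemma pr_le_add {P Q R : Ω → Prop} (h : ∀ ω, P ω → Q ω ∨ R ω) : pr P ≤ pr Q + pr R :=
  (pr_mono h).trans (pr_or_le Q R)

lemma pr_exists_le {κ : Type} (s : Finset κ) (P : κ → Ω → Prop) :
    pr (fun ω => ∃ j ∈ s, P j ω) ≤ ∑ j ∈ s, pr (P j) := by
  classical
  unfold pr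
  rw [← expect_sum_comm]
  refine expect_le_expect fun ω _ => ?_
  split_ifs with h
  · obtain ⟨j, hj, hp⟩ := h
    calc (1 : ℝ) = if P j ω then (1 : ℝ) else 0 := by simp [hp]
      _ ≤ _ := single_le_sum (f := fun j => if P j ω then (1 : ℝ) else 0)
          (fun j _ => by split_ifs <;> norm_num) hj
  · exact sum_nonneg fun j _ => by split_ifs <;> norm_num

/-- Markov inequality. -/
lemma markov {f : Ω → ℝ} (h0 : ∀ ω, 0 ≤ f ω) {t : ℝ} (ht : 0 < t) :
    pr (fun ω => t < f ω) ≤ (𝔼 ω, f ω) / t := by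
  rw [expect_div]
  exact pr_le_expect (fun ω => div_nonneg (h0 ω) ht.le)
    fun ω h => by rw [le_div_iff₀ ht]; linarith

/-- Paley-Zygmund inequality. -/
lemma paley [Nonempty Ω] {Z : Ω → ℝ} {K : ℝ} (hK : 0 < K) (h1 : 𝔼 ω, Z ω = 1)
    (h2 : 𝔼 ω, Z ω ^ 2 ≤ K) : 1 / (4 * K) ≤ pr fun ω => 1 / 2 < Z ω := by
  classical
  have key : 𝔼 ω, Z ω ≤
      𝔼 ω, (1 / 2 + Z ω ^ 2 / (4 * K) + K * if 1 / 2 < Z ω then (1 : ℝ) else 0) := by
    refine expect_le_expect fun ω _ => ?_
    have hq : 0 ≤ Z ω ^ 2 / (4 * K) := by positivity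
    split_ifs with h
    · have : Z ω ≤ Z ω ^ 2 / (4 * K) + K := by
        rw [div_add' _ _ _ (by positivity), le_div_iff₀ (by positivity)]
        nlinarith [sq_nonneg (Z ω - 2 * K)]
      linarith
    · push Not at h
      linarith
  rw [expect_add_distrib, expect_add_distrib, expect_const univ_nonempty, ← expect_div,
    ← mul_expect, h1] at key
  have h3 : (𝔼 ω, Z ω ^ 2) / (4 * K) ≤ 1 / 4 := by
    rw [div_le_iff₀ (by positivity)]; linarith
  have h4 : 1 / 4 ≤ K * pr fun ω => 1 / 2 < Z ω := by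
    unfold pr
    convert (by linarith : (1 : ℝ) / 4 ≤ K * 𝔼 ω, if 1 / 2 < Z ω then (1 : ℝ) else 0)
  rw [div_le_iff₀ (by positivity)]
  nlinarith

lemma pr_prod {Ω' : Type} [Fintype Ω'] (P : Ω × Ω' → Prop) :
    pr P = 𝔼 a, pr fun b => P (a, b) := by
  unfold pr
  rw [← univ_product_univ, expect_product]

lemma pr_prod' {Ω' : Type} [Fintype Ω'] (P : Ω × Ω' → Prop) :
    pr P = 𝔼 b, pr fun a => P (a, b) := by
  unfold pr
  rw [← univ_product_univ, expect_product, expect_comm]

lemma pr_eq_card (P : Ω → Prop) [DecidablePred P] :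
    pr P = ((univ.filter P).card : ℝ) / Fintype.card Ω := by
  unfold pr
  rw [Fintype.expect_eq_sum_div_card, card_filter]
  congr 1
  push_cast
  exact sum_congr rfl fun ω _ => by by_cases h : P ω <;> simp [h]

lemma nrm_nonneg (c : Finset ι → ℝ) : 0 ≤ nrm c := sum_nonneg fun _ _ => sq_nonneg _

lemma infl_nonneg (c : Finset ι → ℝ) (i : ι) : 0 ≤ infl c i := sum_nonneg fun _ _ => sq_nonneg _

lemma reg_nonneg (c : Finset ι → ℝ) : 0 ≤ reg c := sum_nonneg fun _ _ => sq_nonneg _

lemma sm_mono (c : Finset ι → ℝ) {a b : ℝ} (h : a ≤ b) : sm c a ≤ sm c b :=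
  pr_mono fun _ hx => hx.trans h

lemma ca_sq_add_cb_sq (s : ℝ) : ca s ^ 2 + cb s ^ 2 = 1 := by
  unfold ca cb
  have : (1 + s ^ 2) ≠ 0 := by positivity
  field_simp
  ring

/-- A pair of independent bit vectors. -/
lemma expect_pair (F : (ι → Bool) → (ι → Bool) → ℝ) :
    𝔼 ω : ι → Bool × Bool, F (fun i => (ω i).1) (fun i => (ω i).2) = 𝔼 x, 𝔼 y, F x y := by
  rw [← expect_product', univ_product_univ]
  exact Fintype.expect_equiv (Equiv.arrowProdEquivProdArrow ι (fun _ => Bool) fun _ => Bool) _ _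
    fun _ => rfl

end Basic

end Pool.Agent.Work.MP_f474fe_lc.PT
end

-- merged part: Pool.Agent.Work.MP_f474fe_lc.PT.Bonami
section
/-!
Parseval identity and the fourth moment inequality for multilinear polynomials.

Plan. expect_update: the map (ω, l) ↦ (update ω i l, ω i) is an involution of (ι → Λ) × Λ; use
expect_product and Fintype.expect_equiv (or Equiv.funSplitAt / piSplitAt).
ev_split: split the sum over A by i ∈ A; for the sets containing i use the bijection
A ↦ A.erase i with inverse insert i (Finset.sum_nbij' on filters), prod_insert.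
parseval and bonami: induction on a finite set s of variables (Finset.induction_on), statement for all
c, d with c A ≠ 0 → A ⊆ s. Empty s: ev c z = c ∅. Step s = insert i s0: f = g + z i * h with
g = ev (rst c i), h = ev (der c i), both supported in s0, so independent of coordinate i
(ev_update). By expect_update and Std: E f^2 = E g^2 + E h^2,
E f^4 ≤ E g^4 + 6 E g^2 h^2 + 3 E h^4. If d = 0 then der c i = 0. If d = e + 1:
E g^4 ≤ 9^(e+1) G^2, E h^4 ≤ 9^e H^2, (E g^2 h^2)^2 ≤ E g^4 * E h^4 (expect_mul_sq_le_sq_mul_sq), so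
E g^2 h^2 ≤ 3 * 9^e G H (abs_le_of_sq_le or pow_le_pow_left), total ≤ 9^(e+1) (G + H)^2.
-/

set_option linter.unusedSectionVars false

namespace Pool.Agent.Work.MP_f474fe_lc.PT

open Finset BigOperators

variable {ι : Type} [Fintype ι] [DecidableEq ι]


lemma expect_update {Λ : Type} [Fintype Λ] [Nonempty Λ] (i : ι) (F : (ι → Λ) → ℝ) :
    𝔼 ω, F ω = 𝔼 ω, 𝔼 l, F (Function.update ω i l) := by
  rw [← expect_product' (f := fun ω l => F (Function.update ω i l)), univ_product_univ,
    Fintype.expect_equiv (Function.Involutive.toPerm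
      (fun p : (ι → Λ) × Λ => (Function.update p.1 i p.2, p.1 i)) fun p => by simp)
      (fun p => F (Function.update p.1 i p.2)) (fun p => F p.1) fun _ => rfl, ← univ_product_univ, expect_product]
  simp only [expect_const univ_nonempty]

lemma bonami_sum (i : ι) (F : Finset ι → ℝ) :
    ∑ A with i ∈ A, F A = ∑ A, if i ∈ A then 0 else F (insert i A) := by
  simp only [← ite_not (i ∈ _) _ (0 : ℝ), ← sum_filter]
  exact sum_nbij' (·.erase i) (insert i) (by simp) (by simp)
    (fun A h => insert_erase (mem_filter.1 h).2) (fun A h => erase_insert (mem_filter.1 h).2)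
    fun A h => by rw [insert_erase (mem_filter.1 h).2]

lemma bonami_split (i : ι) (F : Finset ι → ℝ) : ∑ A, F A =
    (∑ A, if i ∈ A then 0 else F A) + ∑ A, if i ∈ A then 0 else F (insert i A) := by
  rw [← bonami_sum, sum_filter, ← sum_add_distrib]
  exact sum_congr rfl fun A _ => by split_ifs <;> simp

lemma ev_split (c : Finset ι → ℝ) (i : ι) (z : ι → ℝ) :
    ev c z = ev (rst c i) z + z i * ev (der c i) z := by
  rw [ev, bonami_split i, ev, ev, mul_sum]
  refine congrArg₂ _ (sum_congr rfl fun A _ => ?_) (sum_congr rfl fun A _ => ?_)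
  · rw [rst, ite_mul, zero_mul]
  · by_cases h : i ∈ A
    · simp [der, h]
    · simp only [der, h, if_false, prod_insert h, mul_left_comm]

lemma ev_update (c : Finset ι → ℝ) (i : ι) (h : ∀ A, i ∈ A → c A = 0) (z : ι → ℝ) (t : ℝ) :
    ev c (Function.update z i t) = ev c z := by
  refine sum_congr rfl fun A _ => ?_
  by_cases k : i ∈ A
  · rw [h A k, zero_mul, zero_mul]
  · rw [prod_update_of_notMem k]

lemma nrm_der (c : Finset ι → ℝ) (i : ι) : nrm (der c i) = infl c i := by
  rw [infl, bonami_sum]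
  exact sum_congr rfl fun A _ => by rw [der, ite_pow, zero_pow two_ne_zero]

lemma nrm_split (c : Finset ι → ℝ) (i : ι) : nrm c = nrm (rst c i) + nrm (der c i) := by
  rw [nrm, bonami_split i]
  simp only [nrm, rst, der, ite_pow, zero_pow two_ne_zero]

lemma deg_rst {c : Finset ι → ℝ} {d : ℕ} (hc : Deg c d) (i : ι) : Deg (rst c i) d := by
  exact fun A h => hc A (ite_ne_left_iff.1 h).2.symm

lemma deg_der_succ {c : Finset ι → ℝ} {d : ℕ} (hc : Deg c (d + 1)) (i : ι) :
    Deg (der c i) d := by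
  intro A h
  have k := hc _ (ite_ne_left_iff.1 h).2.symm
  rwa [card_insert_of_notMem (ite_ne_left_iff.1 h).1, Nat.add_le_add_iff_right] at k

lemma deg_der {c : Finset ι → ℝ} {d : ℕ} (hc : Deg c d) (i : ι) : Deg (der c i) d := by
  exact deg_der_succ (fun A h => (hc A h).trans d.le_succ) i

/-- The influences sum to at most `d` times the squared norm. -/
lemma sum_infl_le {c : Finset ι → ℝ} {d : ℕ} (hc : Deg c d) : ∑ i, infl c i ≤ d * nrm c := by
  simp only [infl, sum_filter]
  rw [sum_comm, nrm, mul_sum]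
  refine sum_le_sum fun A _ => ?_
  rw [sum_ite_mem, univ_inter, sum_const, nsmul_eq_mul]
  by_cases h : c A = 0
  · simp [h]
  · exact mul_le_mul_of_nonneg_right (Nat.cast_le.2 (hc A h)) (sq_nonneg _)

lemma bonami_ind {P : (Finset ι → ℝ) → Prop} (h0 : ∀ c, (∀ A, A ≠ ∅ → c A = 0) → P c)
    (h1 : ∀ c i, P (rst c i) → P (der c i) → P c) (c : Finset ι → ℝ) : P c := by
  suffices h : ∀ (s : Finset ι) (c : Finset ι → ℝ), (∀ A, c A ≠ 0 → A ⊆ s) → P c from
    h univ c fun A _ => subset_univ A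
  intro s
  induction s using Finset.induction_on with
  | empty => exact fun c h => h0 c fun A hA => by_contra fun k => hA (subset_empty.1 (h A k))
  | insert i s _ ih =>
    refine fun c h => h1 c i (ih _ fun A k => ?_) (ih _ fun A k => ?_)
    · exact (subset_insert_iff_of_notMem (ite_ne_left_iff.1 k).1).1
        (h A (ite_ne_left_iff.1 k).2.symm)
    · exact (subset_insert_iff_of_notMem (ite_ne_left_iff.1 k).1).1
        ((subset_insert i A).trans (h _ (ite_ne_left_iff.1 k).2.symm))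

lemma bonami_base {c : Finset ι → ℝ} (h : ∀ A, A ≠ ∅ → c A = 0) :
    (∀ z, ev c z = c ∅) ∧ nrm c = c ∅ ^ 2 :=
  ⟨fun z => by
    rw [ev, Fintype.sum_eq_single ∅ fun A k => by rw [h A k, zero_mul], prod_empty, mul_one],
    Fintype.sum_eq_single ∅ fun A k => by rw [h A k, zero_pow two_ne_zero]⟩

lemma bonami_step {Λ : Type} [Fintype Λ] [Nonempty Λ] (φ : ι → Λ → ℝ) (c : Finset ι → ℝ) (i : ι)
    (G : ℝ → ℝ) : 𝔼 ω : ι → Λ, G (ev c fun j => φ j (ω j)) = 𝔼 ω : ι → Λ, 𝔼 l,
      G (ev (rst c i) (fun j => φ j (ω j)) + φ i l * ev (der c i) fun j => φ j (ω j)) := by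
  rw [expect_update i]
  refine expect_congr rfl fun ω _ => expect_congr rfl fun l _ => ?_
  rw [funext (Function.apply_update φ ω i l), ev_split c i, Function.update_self,
    ev_update (rst c i) i fun A k => if_pos k, ev_update (der c i) i fun A k => if_pos k]

lemma bonami_four {Λ : Type} [Fintype Λ] [Nonempty Λ] {φ : ι → Λ → ℝ} (hφ : Std φ) (i : ι)
    (g h : ℝ) : 𝔼 l, (g + φ i l * h) ^ 4 ≤ g ^ 4 + 6 * (g ^ 2 * h ^ 2) + 3 * h ^ 4 := by
  have e : ∀ x : ℝ, (g + x * h) ^ 4 = g ^ 4 + 4 * g ^ 3 * h * x + 6 * (g ^ 2 * h ^ 2) * x ^ 2 +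
    4 * g * h ^ 3 * x ^ 3 + h ^ 4 * x ^ 4 := fun x => by ring
  simp only [e, expect_add_distrib, ← mul_expect, hφ.m1, hφ.m2, hφ.m3, expect_const univ_nonempty]
  linarith [mul_le_mul_of_nonneg_left (hφ.m4 i) (by positivity : 0 ≤ h ^ 4)]

theorem parseval {Λ : Type} [Fintype Λ] [Nonempty Λ] {φ : ι → Λ → ℝ} (hφ : Std φ)
    (c : Finset ι → ℝ) : 𝔼 ω : ι → Λ, ev c (fun i => φ i (ω i)) ^ 2 = nrm c := by
  induction c using bonami_ind with
  | h0 c h => simp only [(bonami_base h).1, (bonami_base h).2, expect_const univ_nonempty]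
  | h1 c i h1 h2 =>
    rw [bonami_step φ c i (· ^ 2), nrm_split c i, ← h1, ← h2, ← expect_add_distrib]
    refine expect_congr rfl fun ω _ => ?_
    simp only [add_sq, mul_pow, expect_add_distrib, ← mul_expect, ← expect_mul, hφ.m1, hφ.m2,
      expect_const univ_nonempty]
    ring

theorem bonami {Λ : Type} [Fintype Λ] [Nonempty Λ] {φ : ι → Λ → ℝ} (hφ : Std φ)
    {c : Finset ι → ℝ} {d : ℕ} (hc : Deg c d) :
    𝔼 ω : ι → Λ, ev c (fun i => φ i (ω i)) ^ 4 ≤ 9 ^ d * nrm c ^ 2 := by
  have base : ∀ (c : Finset ι → ℝ) (d : ℕ), (∀ A, A ≠ ∅ → c A = 0) →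
      𝔼 ω : ι → Λ, ev c (fun i => φ i (ω i)) ^ 4 ≤ 9 ^ d * nrm c ^ 2 := fun c d h => by
    simp only [(bonami_base h).1, (bonami_base h).2, expect_const univ_nonempty, ← pow_mul]
    exact le_mul_of_one_le_left (by positivity) (one_le_pow₀ (by norm_num))
  induction c using bonami_ind generalizing d with
  | h0 c h => exact base c d h
  | h1 c i h1 h2 =>
    rcases d with _ | e
    · exact base c 0 fun A hA => by_contra fun k => hA (card_eq_zero.1 (Nat.le_zero.1 (hc A k)))
    have k1 := h1 (deg_rst hc i)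
    have k2 := h2 (deg_der_succ hc i)
    have k3 := expect_mul_sq_le_sq_mul_sq univ
      (fun ω : ι → Λ => ev (rst c i) (fun j => φ j (ω j)) ^ 2)
      fun ω => ev (der c i) (fun j => φ j (ω j)) ^ 2
    have k4 : 𝔼 ω : ι → Λ, ev c (fun i => φ i (ω i)) ^ 4 ≤ _ :=
      (bonami_step φ c i (· ^ 4)).trans_le (expect_le_expect fun ω _ => bonami_four hφ i _ _)
    simp only [← pow_mul] at k3
    have k5 := abs_le_of_sq_le_sq' (k3.trans ((mul_le_mul k1 k2 (expect_nonneg fun _ _ => by
      positivity) (by positivity)).trans_eq (show _ = (3 * 9 ^ e * nrm (rst c i) *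
        nrm (der c i)) ^ 2 by ring))) (by
      have := nrm_nonneg (rst c i)
      have := nrm_nonneg (der c i)
      positivity)
    rw [expect_add_distrib, expect_add_distrib, ← mul_expect, ← mul_expect] at k4
    rw [nrm_split c i]
    have k6 : 0 ≤ (9 : ℝ) ^ e * nrm (der c i) ^ 2 := by positivity
    rw [pow_succ] at k1 ⊢
    linarith [k5.2]

lemma std_sg : Std (fun (_ : ι) (b : Bool) => sg b) := by
  constructor <;> intro i <;> rw [Fintype.expect_eq_sum_div_card, Fintype.sum_bool] <;>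
    norm_num [sg]

theorem parseval_bv (c : Finset ι → ℝ) : 𝔼 x, bv c x ^ 2 = nrm c := parseval std_sg c

theorem bonami_bv {c : Finset ι → ℝ} {d : ℕ} (hc : Deg c d) :
    𝔼 x, bv c x ^ 4 ≤ 9 ^ d * nrm c ^ 2 := bonami std_sg hc

/-- Both rows of a rotation of two signs are standard coordinates. -/
lemma std_rot (α β : ι → ℝ) (h : ∀ i, α i ^ 2 + β i ^ 2 = 1) :
    Std (fun (i : ι) (l : Bool × Bool) => α i * sg l.1 + β i * sg l.2) := by
  have h2 := fun i => congrArg (· ^ 2) (h i)
  constructor <;> intro i <;>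
    simp only [Fintype.expect_eq_sum_div_card, Fintype.sum_prod_type, Fintype.sum_bool, sg,
      Fintype.card_prod, Fintype.card_bool, if_true, Bool.false_eq_true, if_false] <;> push_cast
  · ring
  · linarith [h i]
  · ring
  · linarith [h2 i, pow_nonneg (sq_nonneg (α i)) 2, pow_nonneg (sq_nonneg (β i)) 2]


end Pool.Agent.Work.MP_f474fe_lc.PT
end

-- merged part: Pool.Agent.Work.MP_f474fe_lc.PT.Holes
section
/-!
Overlap moments for random subsets and random transversals.

Plan. ovl_le: ovl d Z = ∑ j ∈ Icc 1 d, choose z j ≤ d * z^d (card_powersetCard, Nat.choose_le_pow).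
overlap_moment: for a natural number x, x^d ≤ (x+1).ascFactorial d = d! * choose (x+d) d ≤ d^d 2^(x+d), so
x^d ≤ 2 (2d)^d (2^x - 1) (x = 0: both sides 0 since 1 ≤ d). 2^|Z ∩ S θ| = ∑ D ∈ Z.powerset, 1[D ⊆ S θ],
expectation ≤ ∑ D ∈ Z.powerset, p^|D| = (1 + p)^|Z| ≤ exp (|Z| p).
subprod_subsets: the number of k-sets containing D is choose (m - j) (k - j) (zero if k < j), and
choose (m - j) (k - j) * m^j ≤ choose m k * k^j by induction on j (Nat.succ_mul_choose_eq); or induct on D.
subprod_trans: induction on D; for i ∉ D the map (T, v) ↦ insert v (T.erase i), T ⊇ insert i D,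
E v = E i, is injective into the transversals containing D, so b * #(T ⊇ insert i D) ≤ #(T ⊇ D) with
b = n / kn and kn * b = n.
-/

set_option linter.unusedSectionVars false

namespace Pool.Agent.Work.MP_f474fe_lc.PT

open Finset BigOperators

variable {ι : Type} [Fintype ι] [DecidableEq ι]


lemma ovl_le {d : ℕ} (hd : 1 ≤ d) (Z : Finset ι) : (ovl d Z : ℝ) ≤ d * (Z.card : ℝ) ^ d := by
  have h1 : ovl d Z ≤ ((Icc 1 d).biUnion fun j => Z.powersetCard j).card := by
    refine card_le_card fun C hC => ?_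
    obtain ⟨a, b, c⟩ := mem_filter.1 hC
    exact mem_biUnion.2 ⟨C.card, mem_Icc.2 ⟨card_pos.2 b, c⟩,
      mem_powersetCard.2 ⟨mem_powerset.1 a, rfl⟩⟩
  have h2 := sum_le_card_nsmul (Icc 1 d) (fun j => (Z.powersetCard j).card) (Z.card ^ d)
    fun j hj => by
      obtain ⟨a, b⟩ := mem_Icc.1 hj
      rw [card_powersetCard]
      refine (Nat.choose_le_pow _ _).trans ?_
      rcases Nat.eq_zero_or_pos Z.card with h | h
      · rw [h, zero_pow (by omega)]
        exact Nat.zero_le _
      · exact Nat.pow_le_pow_right h b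
  rw [Nat.card_Icc, Nat.add_sub_cancel, smul_eq_mul] at h2
  exact_mod_cast (h1.trans card_biUnion_le).trans h2

lemma Holes_pow (x : ℕ) {d : ℕ} (hd : 1 ≤ d) : (x : ℝ) ^ d ≤ 2 * (2 * d) ^ d * (2 ^ x - 1) := by
  rcases Nat.eq_zero_or_pos x with rfl | hx
  · simp [zero_pow (by omega : d ≠ 0)]
  have hd' : (0 : ℝ) < d := by exact_mod_cast hd
  have h1 : (x : ℝ) / (2 * d) ≤ Real.exp (x / (2 * d)) := by
    linarith [Real.add_one_le_exp ((x : ℝ) / (2 * d))]
  have h2 : Real.exp (1 / 2) ≤ 2 := by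
    refine (abs_le_of_sq_le_sq' ?_ zero_le_two).2
    rw [← Real.exp_nat_mul]
    norm_num
    linarith [Real.exp_one_lt_three]
  have h3 : ((x : ℝ) / (2 * d)) ^ d ≤ 2 ^ x :=
    calc _ ≤ _ := pow_le_pow_left₀ (by positivity) h1 d
      _ = Real.exp (1 / 2) ^ x := by
          rw [← Real.exp_nat_mul, ← Real.exp_nat_mul]
          congr 1
          field_simp
      _ ≤ _ := pow_le_pow_left₀ (Real.exp_pos _).le h2 x
  have h4 : (2 : ℝ) ^ 1 ≤ 2 ^ x := pow_le_pow_right₀ one_le_two hx
  rw [div_pow, div_le_iff₀ (by positivity)] at h3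
  have h5 := mul_le_mul_of_nonneg_left (show (2 : ℝ) ^ x ≤ 2 * (2 ^ x - 1) by linarith)
    (show (0 : ℝ) ≤ (2 * d) ^ d by positivity)
  linarith

theorem overlap_moment {Θ α : Type} [Fintype Θ] [Nonempty Θ] [DecidableEq α] {S : Θ → Finset α}
    {p : ℝ} (hS : SubProd S p) (hp : 0 ≤ p) (Z : Finset α) {d : ℕ} (hd : 1 ≤ d) :
    𝔼 θ, ((Z ∩ S θ).card : ℝ) ^ d ≤ 2 * (2 * d) ^ d * (Real.exp (Z.card * p) - 1) := by
  classical
  have h1 : ∀ θ, (2 : ℝ) ^ (Z ∩ S θ).card = ∑ D ∈ Z.powerset, if D ⊆ S θ then (1 : ℝ) else 0 := by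
    intro θ
    rw [sum_boole, ← Nat.cast_ofNat, ← Nat.cast_pow, ← card_powerset]
    congr 2
    ext D
    simp only [mem_powerset, subset_inter_iff, mem_filter]
  have h2 : 𝔼 θ, (2 : ℝ) ^ (Z ∩ S θ).card ≤ Real.exp (Z.card * p) := by
    simp only [h1]
    rw [expect_sum_comm]
    calc _ ≤ ∑ D ∈ Z.powerset, ∏ _i ∈ D, p := by
          refine sum_le_sum fun D _ => ?_
          rw [prod_const]
          refine le_of_eq_of_le ?_ (hS D)
          unfold pr
          congr!
      _ = ∏ _i ∈ Z, (1 + p) := (prod_one_add Z).symm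
      _ ≤ Real.exp (∑ _i ∈ Z, p) := Real.prod_one_add_le_exp_sum Z fun _ => hp
      _ = _ := by rw [sum_const, nsmul_eq_mul]
  refine (expect_le_expect fun θ _ => Holes_pow _ hd).trans ?_
  rw [← mul_expect, expect_sub_distrib, expect_const univ_nonempty]
  exact mul_le_mul_of_nonneg_left (sub_le_sub_right h2 1) (by positivity)

lemma Holes_desc {k m : ℕ} (h : k ≤ m) (j : ℕ) :
    k.descFactorial j * m ^ j ≤ m.descFactorial j * k ^ j := by
  induction j with
  | zero => simp
  | succ j ih =>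
    have h1 : (k - j) * m ≤ (m - j) * k := by
      rw [Nat.sub_mul, Nat.sub_mul, mul_comm k m]
      exact Nat.sub_le_sub_left (Nat.mul_le_mul_left _ h) _
    calc _ = ((k - j) * m) * (k.descFactorial j * m ^ j) := by
          rw [Nat.descFactorial_succ]; ring
      _ ≤ ((m - j) * k) * (m.descFactorial j * k ^ j) := Nat.mul_le_mul h1 ih
      _ = _ := by rw [Nat.descFactorial_succ]; ring

lemma Holes_choose {k m j : ℕ} (h : k ≤ m) (hj : j ≤ k) :
    (m - j).choose (k - j) * m ^ j ≤ m.choose k * k ^ j := by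
  have h1 := Holes_desc h j
  rw [Nat.descFactorial_eq_factorial_mul_choose, Nat.descFactorial_eq_factorial_mul_choose,
    mul_assoc, mul_assoc] at h1
  have h2 := Nat.mul_le_mul_left (m.choose k) (Nat.le_of_mul_le_mul_left h1 j.factorial_pos)
  rw [← mul_assoc, Nat.choose_mul hj, mul_assoc, mul_left_comm (m.choose k)] at h2
  exact Nat.le_of_mul_le_mul_left h2 (Nat.choose_pos (hj.trans h))

lemma Holes_uniq {n kn : ℕ} {E : Fin n → Fin kn} {T : Finset (Fin n)} (h : Transversal E T)
    {i v : Fin n} (hi : i ∈ T) (hv : E v = E i) : v ∉ T.erase i := fun hv' =>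
  ne_of_mem_erase hv' (card_le_one.1 (h (E i)).le v (mem_filter.2 ⟨mem_of_mem_erase hv', hv⟩) i
    (mem_filter.2 ⟨hi, rfl⟩))

lemma Holes_swap {n kn : ℕ} {E : Fin n → Fin kn} {T : Finset (Fin n)} (h : Transversal E T)
    {i v : Fin n} (hi : i ∈ T) (hv : E v = E i) : Transversal E (insert v (T.erase i)) := by
  intro j
  by_cases hj : E i = j
  · rw [filter_insert, if_pos (hv.trans hj), filter_eq_empty_iff.2]
    · simp
    · exact fun u hu e => Holes_uniq h hi (e.trans hj.symm) hu
  · rw [filter_insert, if_neg (hv ▸ hj), filter_erase, erase_eq_of_notMem (by simp [hj])]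
    exact h j

open Classical in
lemma Holes_count {n kn b : ℕ} {E : Fin n → Fin kn}
    (hE : ∀ j, (univ.filter fun v => E v = j).card = b) (D : Finset (Fin n)) :
    (univ.filter fun T => Transversal E T ∧ D ⊆ T).card * b ^ D.card ≤
      (univ.filter fun T => Transversal E T).card := by
  induction D using Finset.induction_on with
  | empty => simp
  | insert i D hi ih =>
    refine le_trans ?_ ih
    rw [card_insert_of_notMem hi, pow_succ', ← mul_assoc]
    refine Nat.mul_le_mul_right _ ?_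
    rw [← hE (E i), ← card_product]
    refine card_le_card_of_injOn (fun z => insert z.2 (z.1.erase i)) (fun z hz => ?_)
      fun z hz z' hz' e => ?_
    · simp only [coe_product, coe_filter, mem_univ, true_and, Set.mem_prod, Set.mem_ofPred_eq,
        insert_subset_iff] at hz ⊢
      exact ⟨Holes_swap hz.1.1 hz.1.2.1 hz.2,
        (subset_erase.2 ⟨hz.1.2.2, hi⟩).trans (subset_insert _ _)⟩
    · simp only [coe_product, coe_filter, mem_univ, true_and, Set.mem_prod, Set.mem_ofPred_eq,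
        insert_subset_iff] at hz hz' e
      have h1 : z.2 = z'.2 := (mem_insert.1 (e ▸ mem_insert_self _ _)).resolve_right
        (Holes_uniq hz'.1.1 hz'.1.2.1 hz.2)
      refine Prod.ext ?_ h1
      rw [← insert_erase hz.1.2.1, ← insert_erase hz'.1.2.1,
        ← erase_insert (Holes_uniq hz.1.1 hz.1.2.1 hz.2), e, h1,
        erase_insert (Holes_uniq hz'.1.1 hz'.1.2.1 hz'.2)]

theorem subprod_subsets (m k : ℕ) (hk : k ≤ m) :
    SubProd (fun S : {S : Finset (Fin m) // S.card = k} => S.1) ((k : ℝ) / m) := by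
  intro D
  rw [pr_eq_card, Fintype.card_finset_len, Fintype.card_fin]
  by_cases hj : D.card ≤ k
  · have h1 : (univ.filter fun S : {S : Finset (Fin m) // S.card = k} => D ⊆ S.1).card ≤
        (m - D.card).choose (k - D.card) := by
      have h2 : (Dᶜ.powersetCard (k - D.card)).card = (m - D.card).choose (k - D.card) := by
        rw [card_powersetCard, card_compl, Fintype.card_fin]
      rw [← h2]
      refine card_le_card_of_injOn (fun S => S.1 \ D) (fun S hS => ?_) fun S hS S' hS' e => ?_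
      · rw [mem_coe, mem_filter] at hS
        exact mem_coe.2 (mem_powersetCard.2 ⟨fun _ h => mem_compl.2 (mem_sdiff.1 h).2,
          by rw [card_sdiff_of_subset hS.2, S.2]⟩)
      · rw [mem_coe, mem_filter] at hS hS'
        refine Subtype.ext ?_
        rw [← sdiff_union_of_subset hS.2, ← sdiff_union_of_subset hS'.2]
        exact congrArg (· ∪ D) e
    have h3 := (Nat.mul_le_mul_right _ h1).trans (Holes_choose hk hj)
    have h4 : 0 < m ^ D.card := by
      rcases Nat.eq_zero_or_pos D.card with h | h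
      · simp [h]
      · exact Nat.pow_pos (by omega)
    rw [div_pow, div_le_div_iff₀ (by exact_mod_cast Nat.choose_pos hk) (by exact_mod_cast h4),
      mul_comm ((k : ℝ) ^ _)]
    exact_mod_cast h3
  · rw [filter_eq_empty_iff.2, card_empty, Nat.cast_zero, zero_div]
    · positivity
    · exact fun S _ h => hj ((card_le_card h).trans_eq S.2)

open Classical in
theorem subprod_trans {n kn : ℕ} (E : Fin n → Fin kn) (hdvd : kn ∣ n) (hkn : 1 ≤ kn) (hle : kn ≤ n)
    (hE : ∀ j, (univ.filter fun v => E v = j).card = n / kn) :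
    SubProd (fun T : {T : Finset (Fin n) // Transversal E T} => T.1) ((kn : ℝ) / n) := by
  intro D
  obtain ⟨b, hb⟩ := hdvd
  have h0 : n / kn = b := by rw [hb, Nat.mul_div_cancel_left _ hkn]
  have hb0 : 0 < b := h0 ▸ Nat.div_pos hle hkn
  have h1 := Holes_count (fun j => (hE j).trans h0) D
  have h2 : (univ.filter fun T : {T : Finset (Fin n) // Transversal E T} => D ⊆ T.1).card ≤
      (univ.filter fun T => Transversal E T ∧ D ⊆ T).card :=
    card_le_card_of_injOn Subtype.val
      (fun T hT => mem_coe.2 (mem_filter.2 ⟨mem_univ _, T.2, (mem_filter.1 hT).2⟩))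
      Subtype.val_injective.injOn
  have h3 : (kn : ℝ) / n = (b : ℝ)⁻¹ := by
    have : (kn : ℝ) ≠ 0 := by positivity
    conv_lhs => rw [hb]
    push_cast
    field_simp
  rw [pr_eq_card, Fintype.card_subtype, h3]
  refine div_le_of_le_mul₀ (by positivity) (by positivity) ?_
  rw [inv_pow, ← div_eq_inv_mul, le_div_iff₀ (by positivity)]
  exact_mod_cast (Nat.mul_le_mul_right _ h2).trans h1

lemma exists_trans {n kn : ℕ} (E : Fin n → Fin kn) (hkn : 1 ≤ kn) (hle : kn ≤ n)
    (hE : ∀ j, (univ.filter fun v => E v = j).card = n / kn) : ∃ T, Transversal E T := by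
  have h1 : ∀ j, ∃ v, E v = j := fun j => by
    obtain ⟨v, hv⟩ := card_pos.1 ((hE j).symm ▸ Nat.div_pos hle hkn)
    exact ⟨v, (mem_filter.1 hv).2⟩
  choose v hv using h1
  refine ⟨univ.image v, fun j => card_eq_one.2 ⟨v j, ?_⟩⟩
  ext u
  simp only [mem_filter, mem_image, mem_univ, true_and, mem_singleton]
  constructor
  · rintro ⟨⟨i, rfl⟩, h⟩
    rw [← h, hv]
  · rintro rfl
    exact ⟨⟨j, rfl⟩, hv j⟩

lemma trans_card {n kn : ℕ} {E : Fin n → Fin kn} {T : Finset (Fin n)} (h : Transversal E T) :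
    T.card = kn := by
  rw [card_eq_sum_card_fiberwise (f := E) (t := univ) fun _ _ => mem_coe.2 (mem_univ _),
    sum_congr rfl fun j _ => h j]
  simp


end Pool.Agent.Work.MP_f474fe_lc.PT
end
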