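import Pool.Agent.Work.MP_f474fe_lc.PT.Holes

-- merged part: Pool.Agent.Work.MP_f474fe_lc.PT.Lind
section
/-!
Replacement (Lindeberg) step for cosines of two rotated copies.

Plan. For I : Finset ι put αI i = if i ∈ I then α else 1, βI i = if i ∈ I then β else 0,
U I ω i = αI i * sg (ω i).1 + βI i * sg (ω i).2, W I ω i = βI i * sg (ω i).1 - αI i * sg (ω i).2,
F I = E cos (ξ * ev c (U I ω) + ξ' * ev c (W I ω)). Show |F (insert i I) - F I| ≤
16 * 9^d * Ξ^4 * infl c i ^ 2 for i ∉ I and sum by induction on I.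
One step: expect_update at i on both; by ev_split and ev_update the argument is A + h l with A
independent of l and h l = a * u l + b * w l, a = ξ * ev (der c i) (U I ω), b = ξ' * ev (der c i) (W I ω)
(the values of rst and der at U (insert i I) and U I agree since they do not depend on coordinate i).
cos_step (four values of l, Fintype.expect over Bool × Bool by simp [Fintype.expect_eq_sum_div_card,
Fintype.sum_prod_type]): average of cos (A + h l) is cos A * average of cos (h l) because h (!,!) = - h;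
1 - h^2/2 ≤ cos h ≤ 1 - h^2/2 + h^4/2 (Real.one_sub_sq_div_two_le_cos, Real.cos_bound for |h| ≤ 1,
cos ≤ 1 otherwise); average of h^2 is a^2 + b^2; h^4 ≤ 8 (a^4 + b^4).
Then bonami with std_rot (for W use the coefficients βI, -αI), deg_der, nrm_der.
lind_pow: strengthen to cos (ξ U + ξ' W) * cos (w U)^j * cos (w W)^k with |ξ| + j w ≤ Ξ,
|ξ'| + k w ≤ Ξ, both sides (rotation and α = 1, β = 0), by induction on j and on k using
cos x * cos y = (cos (x + y) + cos (x - y)) / 2. Finally for α = 1, β = 0: U = sg x, W = - sg y,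
expect_pair, and the involution y ↦ !y (Fintype.expect_equiv, sg_not).
-/

set_option linter.unusedSectionVars false

namespace Pool.Agent.Work.MP_f474fe_lc.PT

open Finset BigOperators

variable {ι : Type} [Fintype ι] [DecidableEq ι]


lemma Lind_cos_bound (x : ℝ) :
    0 ≤ Real.cos x - (1 - x ^ 2 / 2) ∧ Real.cos x - (1 - x ^ 2 / 2) ≤ x ^ 4 / 2 := by
  refine ⟨sub_nonneg.2 Real.one_sub_sq_div_two_le_cos, ?_⟩
  rcases le_total |x| 1 with h | h
  · have h1 := (abs_le.1 (Real.cos_bound h)).2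
    rw [show |x| ^ 4 = x ^ 4 from (by decide : Even 4).pow_abs x] at h1
    have : 0 ≤ x ^ 4 := by positivity
    linarith only [h1, this]
  · have h1 : 1 ≤ x ^ 2 := by rw [← sq_abs]; exact one_le_pow₀ h
    have h2 := Real.cos_le_one x
    linarith only [h2, h1, mul_nonneg_of_nonpos_of_nonpos (Mathlib.Tactic.Linarith.sub_nonpos_of_le (sq_nonneg x)) (Mathlib.Tactic.Linarith.sub_nonpos_of_le h1)]

lemma cos_step (α β A a b : ℝ) (h : α ^ 2 + β ^ 2 = 1) :
    |(𝔼 l : Bool × Bool, Real.cos (A + (a * (α * sg l.1 + β * sg l.2) +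
        b * (β * sg l.1 - α * sg l.2)))) - Real.cos A * (1 - (a ^ 2 + b ^ 2) / 2)| ≤
      4 * (a ^ 4 + b ^ 4) := by
  obtain ⟨p, hp⟩ : ∃ p, p = a * (α + β) + b * (β - α) := ⟨_, rfl⟩
  obtain ⟨q, hq⟩ : ∃ q, q = a * (α - β) + b * (β + α) := ⟨_, rfl⟩
  have e : (𝔼 l : Bool × Bool, Real.cos (A + (a * (α * sg l.1 + β * sg l.2) +
      b * (β * sg l.1 - α * sg l.2)))) = Real.cos A * ((Real.cos p + Real.cos q) / 2) := by
    have e1 : a * (α * 1 + β * 1) + b * (β * 1 - α * 1) = p := by rw [hp]; ring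
    have e2 : a * (α * 1 + β * -1) + b * (β * 1 - α * -1) = q := by rw [hq]; ring
    have e3 : a * (α * -1 + β * 1) + b * (β * -1 - α * 1) = -q := by rw [hq]; ring
    have e4 : a * (α * -1 + β * -1) + b * (β * -1 - α * -1) = -p := by rw [hp]; ring
    rw [Fintype.expect_eq_sum_div_card, Fintype.sum_prod_type]
    simp only [Fintype.sum_bool, sg, if_true, Bool.false_eq_true, if_false, e1, e2, e3, e4,
      Fintype.card_prod, Fintype.card_bool]
    simp only [Real.cos_add, Real.cos_neg, Real.sin_neg]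
    push_cast
    ring
  have e5 : p ^ 2 + q ^ 2 = 2 * (a ^ 2 + b ^ 2) := by
    rw [hp, hq]
    linear_combination 2 * (a ^ 2 + b ^ 2) * h
  obtain ⟨p1, p2⟩ := Lind_cos_bound p
  obtain ⟨q1, q2⟩ := Lind_cos_bound q
  have e6 : p ^ 4 + q ^ 4 ≤ 8 * (a ^ 4 + b ^ 4) := by
    have : (p ^ 2 + q ^ 2) ^ 2 = (2 * (a ^ 2 + b ^ 2)) ^ 2 := by rw [e5]
    linarith only [this, sq_nonneg (a ^ 2 - b ^ 2), sq_nonneg (p * q), sq_nonneg (p * q), sq_nonneg (a ^ (2 : ℕ) - b ^ (2 : ℕ))]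
  have e7 : 0 ≤ a ^ 4 + b ^ 4 := by positivity
  rw [e, ← mul_sub, abs_mul]
  refine (mul_le_of_le_one_left (abs_nonneg _) (Real.abs_cos_le_one A)).trans (abs_le.2 ?_)
  constructor <;> linarith only [e5, p1, p2, q1, q2, e6]

/-- First row with varying coefficients. -/
def Lind_U (α β : ι → ℝ) (ω : ι → Bool × Bool) : ι → ℝ :=
  fun i => α i * sg (ω i).1 + β i * sg (ω i).2

/-- Second row with varying coefficients. -/
def Lind_W (α β : ι → ℝ) (ω : ι → Bool × Bool) : ι → ℝ :=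
  fun i => β i * sg (ω i).1 - α i * sg (ω i).2

lemma Lind_ev (c : Finset ι → ℝ) (i : ι) (z : ι → ℝ) (t : ℝ) :
    ev c (Function.update z i t) = ev (rst c i) z + t * ev (der c i) z := by
  rw [ev_split c i, ev_update (rst c i) i (fun A hA => if_pos hA),
    ev_update (der c i) i (fun A hA => if_pos hA), Function.update_self]

lemma Lind_half {c : Finset ι → ℝ} {d : ℕ} (hc : Deg c d) {α β : ι → ℝ}
    (h : ∀ i, α i ^ 2 + β i ^ 2 = 1) {ξ ξ' Ξ : ℝ} (h1 : |ξ| ≤ Ξ) (h2 : |ξ'| ≤ Ξ) (i : ι) {s t : ℝ}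
    (hs : s ^ 2 + t ^ 2 = 1) :
    |(𝔼 ω, Real.cos (ξ * ev c (Lind_U (Function.update α i s) (Function.update β i t) ω) +
        ξ' * ev c (Lind_W (Function.update α i s) (Function.update β i t) ω))) -
      𝔼 ω, Real.cos (ξ * ev (rst c i) (Lind_U α β ω) + ξ' * ev (rst c i) (Lind_W α β ω)) *
        (1 - ((ξ * ev (der c i) (Lind_U α β ω)) ^ 2 +
          (ξ' * ev (der c i) (Lind_W α β ω)) ^ 2) / 2)| ≤ 8 * 9 ^ d * Ξ ^ 4 * infl c i ^ 2 := by
  have eU : ∀ ω l, Lind_U (Function.update α i s) (Function.update β i t) (Function.update ω i l) =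
      Function.update (Lind_U α β ω) i (s * sg l.1 + t * sg l.2) := by
    intro ω l
    funext j
    by_cases e : j = i
    · subst e
      simp [Lind_U]
    · simp [Lind_U, e]
  have eW : ∀ ω l, Lind_W (Function.update α i s) (Function.update β i t) (Function.update ω i l) =
      Function.update (Lind_W α β ω) i (t * sg l.1 - s * sg l.2) := by
    intro ω l
    funext j
    by_cases e : j = i
    · subst e
      simp [Lind_W]
    · simp [Lind_W, e]
  have b1 : 𝔼 ω, ev (der c i) (Lind_U α β ω) ^ 4 ≤ 9 ^ d * infl c i ^ 2 := by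
    rw [← nrm_der]
    exact bonami (std_rot α β h) (deg_der hc i)
  have b2 : 𝔼 ω, ev (der c i) (Lind_W α β ω) ^ 4 ≤ 9 ^ d * infl c i ^ 2 := by
    have := bonami (std_rot β (fun i => -α i) fun i => by rw [neg_sq, add_comm, h i])
      (deg_der hc i)
    simp only [nrm_der, neg_mul, ← sub_eq_add_neg] at this
    exact this
  have x1 : ξ ^ 4 ≤ Ξ ^ 4 := by
    rw [← (by decide : Even 4).pow_abs ξ]
    exact pow_le_pow_left₀ (abs_nonneg _) h1 4
  have x2 : ξ' ^ 4 ≤ Ξ ^ 4 := by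
    rw [← (by decide : Even 4).pow_abs ξ']
    exact pow_le_pow_left₀ (abs_nonneg _) h2 4
  rw [expect_update i, ← expect_sub_distrib]
  refine (abs_expect_le _ _).trans ((expect_le_expect (g := fun ω => 4 * Ξ ^ 4 *
    (ev (der c i) (Lind_U α β ω) ^ 4 + ev (der c i) (Lind_W α β ω) ^ 4)) fun ω _ => ?_).trans ?_)
  · have := cos_step s t (ξ * ev (rst c i) (Lind_U α β ω) + ξ' * ev (rst c i) (Lind_W α β ω))
      (ξ * ev (der c i) (Lind_U α β ω)) (ξ' * ev (der c i) (Lind_W α β ω)) hs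
    refine le_trans (le_of_eq ?_) (this.trans ?_)
    · congr 2
      refine Finset.expect_congr rfl fun l _ => ?_
      rw [eU, eW, Lind_ev, Lind_ev]
      congr 1
      ring
    · have y1 := mul_le_mul_of_nonneg_right x1
        ((by decide : Even 4).pow_nonneg (ev (der c i) (Lind_U α β ω)))
      have y2 := mul_le_mul_of_nonneg_right x2
        ((by decide : Even 4).pow_nonneg (ev (der c i) (Lind_W α β ω)))
      rw [mul_pow, mul_pow]
      linarith only [y1, y2]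
  · rw [← mul_expect, expect_add_distrib]
    have := mul_le_mul_of_nonneg_left (add_le_add b1 b2)
      (show 0 ≤ 4 * Ξ ^ 4 by positivity)
    linarith

theorem lind_cos {c : Finset ι → ℝ} {d : ℕ} (hc : Deg c d) {α β : ℝ} (h : α ^ 2 + β ^ 2 = 1)
    {ξ ξ' Ξ : ℝ} (h1 : |ξ| ≤ Ξ) (h2 : |ξ'| ≤ Ξ) :
    |(𝔼 ω, Real.cos (ξ * ev c (rotU α β ω) + ξ' * ev c (rotW α β ω))) -
      𝔼 ω, Real.cos (ξ * ev c (rotU 1 0 ω) + ξ' * ev c (rotW 1 0 ω))| ≤
      16 * 9 ^ d * Ξ ^ 4 * reg c := by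
  have key : ∀ I : Finset ι,
      |(𝔼 ω, Real.cos (ξ * ev c (Lind_U (fun i => if i ∈ I then α else 1)
          (fun i => if i ∈ I then β else 0) ω) + ξ' * ev c (Lind_W (fun i => if i ∈ I then α else 1)
          (fun i => if i ∈ I then β else 0) ω))) -
        𝔼 ω, Real.cos (ξ * ev c (rotU 1 0 ω) + ξ' * ev c (rotW 1 0 ω))| ≤
        16 * 9 ^ d * Ξ ^ 4 * ∑ i ∈ I, infl c i ^ 2 := by
    intro I
    induction I using Finset.induction_on with
    | empty =>
      simp only [notMem_empty, if_false, sum_empty, mul_zero]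
      exact (abs_eq_zero.2 (sub_self _)).le
    | insert i I hi ih =>
      have hI : ∀ j, (if j ∈ I then α else 1) ^ 2 + (if j ∈ I then β else 0) ^ 2 = 1 := by
        intro j
        split_ifs
        · exact h
        · norm_num
      have a1 := Lind_half hc hI h1 h2 i h
      have a2 := Lind_half hc hI h1 h2 i (hI i)
      have e : ∀ x y : ℝ, Function.update (fun j => if j ∈ I then x else y) i x =
          fun j => if j ∈ insert i I then x else y := by
        intro x y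
        funext j
        by_cases e : j = i
        · subst e
          simp
        · simp [e]
      rw [e, e] at a1
      rw [Function.update_eq_self, Function.update_eq_self] at a2
      rw [sum_insert hi]
      rw [abs_le] at a1 a2 ih ⊢
      constructor <;> linarith only [ih, a1, a2, a1.1, a1.2, a2.1, a2.2, ih.1, ih.2]
  have := key univ
  simp only [mem_univ, if_true] at this
  exact this

lemma Lind_abs {Ω : Type} [Fintype Ω] (X Y X' Y' : Ω → ℝ) {w Ξ B : ℝ} (hw : 0 ≤ w)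
    (H : ∀ ξ ξ' : ℝ, |ξ| ≤ Ξ → |ξ'| ≤ Ξ → |(𝔼 ω, Real.cos (ξ * X ω + ξ' * Y ω)) -
      𝔼 ω, Real.cos (ξ * X' ω + ξ' * Y' ω)| ≤ B) (j k : ℕ) :
    ∀ ξ ξ' : ℝ, |ξ| + j * w ≤ Ξ → |ξ'| + k * w ≤ Ξ →
      |(𝔼 ω, Real.cos (ξ * X ω + ξ' * Y ω) * (Real.cos (w * X ω) ^ j * Real.cos (w * Y ω) ^ k)) -
        𝔼 ω, Real.cos (ξ * X' ω + ξ' * Y' ω) *
          (Real.cos (w * X' ω) ^ j * Real.cos (w * Y' ω) ^ k)| ≤ B := by
  have t1 : ∀ ξ : ℝ, |ξ + w| ≤ |ξ| + w := fun ξ => (abs_add_le _ _).trans (by rw [abs_of_nonneg hw])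
  have t2 : ∀ ξ : ℝ, |ξ - w| ≤ |ξ| + w := fun ξ => (abs_sub _ _).trans (by rw [abs_of_nonneg hw])
  induction j with
  | zero =>
    induction k with
    | zero => simpa using H
    | succ k ih =>
      intro ξ ξ' h1 h2
      push_cast at h2
      have a1 := ih ξ (ξ' + w) h1 (by linarith [t1 ξ'])
      have a2 := ih ξ (ξ' - w) h1 (by linarith [t2 ξ'])
      have e : ∀ X Y : Ω → ℝ, (𝔼 ω, Real.cos (ξ * X ω + ξ' * Y ω) *
          (Real.cos (w * X ω) ^ 0 * Real.cos (w * Y ω) ^ (k + 1))) =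
          ((𝔼 ω, Real.cos (ξ * X ω + (ξ' + w) * Y ω) *
            (Real.cos (w * X ω) ^ 0 * Real.cos (w * Y ω) ^ k)) +
          𝔼 ω, Real.cos (ξ * X ω + (ξ' - w) * Y ω) *
            (Real.cos (w * X ω) ^ 0 * Real.cos (w * Y ω) ^ k)) / 2 := by
        intro X Y
        rw [← expect_add_distrib, expect_div]
        refine Finset.expect_congr rfl fun ω _ => ?_
        rw [add_mul, sub_mul, ← add_assoc, ← add_sub_assoc, Real.cos_add (_ + _), Real.cos_sub]
        ring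
      rw [e, e]
      rw [abs_le] at a1 a2 ⊢
      constructor <;> linarith only [a1, a2, a1.1, a1.2, a2.1, a2.2]
  | succ j ih =>
    intro ξ ξ' h1 h2
    push_cast at h1
    have a1 := ih (ξ + w) ξ' (by linarith [t1 ξ]) h2
    have a2 := ih (ξ - w) ξ' (by linarith [t2 ξ]) h2
    have e : ∀ X Y : Ω → ℝ, (𝔼 ω, Real.cos (ξ * X ω + ξ' * Y ω) *
        (Real.cos (w * X ω) ^ (j + 1) * Real.cos (w * Y ω) ^ k)) =
        ((𝔼 ω, Real.cos ((ξ + w) * X ω + ξ' * Y ω) *
          (Real.cos (w * X ω) ^ j * Real.cos (w * Y ω) ^ k)) +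
        𝔼 ω, Real.cos ((ξ - w) * X ω + ξ' * Y ω) *
          (Real.cos (w * X ω) ^ j * Real.cos (w * Y ω) ^ k)) / 2 := by
      intro X Y
      rw [← expect_add_distrib, expect_div]
      refine Finset.expect_congr rfl fun ω _ => ?_
      rw [add_mul, sub_mul, add_right_comm, ← add_sub_right_comm, Real.cos_add (_ + _),
        Real.cos_sub]
      ring
    rw [e, e]
    rw [abs_le] at a1 a2 ⊢
    constructor <;> linarith only [a1, a2, a1.1, a1.2, a2.1, a2.2]

theorem lind_pow {c : Finset ι → ℝ} {d : ℕ} (hc : Deg c d) {α β : ℝ} (h : α ^ 2 + β ^ 2 = 1)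
    (j k : ℕ) {w Ξ : ℝ} (hw : 0 ≤ w) (hj : j * w ≤ Ξ) (hk : k * w ≤ Ξ) :
    |(𝔼 ω, Real.cos (w * ev c (rotU α β ω)) ^ j * Real.cos (w * ev c (rotW α β ω)) ^ k) -
      (𝔼 x, Real.cos (w * bv c x) ^ j) * 𝔼 x, Real.cos (w * bv c x) ^ k| ≤
      16 * 9 ^ d * Ξ ^ 4 * reg c := by
  have a := Lind_abs (fun ω => ev c (rotU α β ω)) (fun ω => ev c (rotW α β ω))
    (fun ω => ev c (rotU 1 0 ω)) (fun ω => ev c (rotW 1 0 ω)) hw
    (fun ξ ξ' h1 h2 => lind_cos hc h h1 h2) j k 0 0 (by simpa using hj) (by simpa using hk)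
  simp only [zero_mul, add_zero, Real.cos_zero, one_mul] at a
  have e1 : ∀ ω : ι → Bool × Bool, ev c (rotU 1 0 ω) = bv c fun i => (ω i).1 := fun ω => by
    unfold rotU bv
    simp only [one_mul, zero_mul, add_zero]
  have e2 : ∀ ω : ι → Bool × Bool, ev c (rotW 1 0 ω) = bv c fun i => !(ω i).2 := fun ω => by
    unfold rotW bv
    simp only [one_mul, zero_mul, zero_sub, sg_not]
  have e3 : 𝔼 y : ι → Bool, Real.cos (w * bv c fun i => !y i) ^ k =
      𝔼 x, Real.cos (w * bv c x) ^ k :=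
    Fintype.expect_equiv (Equiv.piCongrRight fun _ => Equiv.boolNot) _ _ fun _ => rfl
  simp only [e1, e2] at a
  rw [expect_pair fun x y => Real.cos (w * bv c x) ^ j * Real.cos (w * bv c fun i => !y i) ^ k,
    ← expect_mul_expect, e3] at a
  exact a


end Pool.Agent.Work.MP_f474fe_lc.PT
end

-- merged part: Pool.Agent.Work.MP_f474fe_lc.PT.Smooth
section
/-!
Transfer of small-ball probabilities between sign vectors and rotated sign vectors.

Plan. Put L = ⌈4 / (κ^3 a^2)⌉₊, φ t = cos (κ t)^(2 L) = (1 - sin^2)^L ∈ [0,1].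
(P1) φ t ≥ 1 - L κ^2 t^2 (one_add_mul_le_pow, Real.sin_sq_le_sq), so φ t ≥ 1 - κ for |t| ≤ κ a / 3,
using L ≤ 5 / (κ^3 a^2). (P2) for a ≤ |t| ≤ 1/κ: sin^2 (κ t) ≥ (κ t)^2 / 4 (Real.mul_abs_le_abs_sin or
Real.sin_gt_sub_cube), (1 - v)^L ≤ 1 / (1 + L v), so φ t ≤ κ. This is bump.
Tails: pr (1/κ < |U|) ≤ κ^2 ≤ κ by markov for U^2 and parseval with std_rot (nrm c = 1).
lind_pow with w = κ, Ξ = 10 / (κ^2 a^2): the error 16 * 9^d * Ξ^4 * reg c equals Err c d κ a.
trans_one: φ U ≤ 1[|U| ≤ a] + κ + 1[1/κ < |U|], E φ(bv) ≥ (1 - κ) sm ≥ sm - κ; lind_pow with k = 0.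
trans_two: 1[a<|U|, a<|W|] ≤ (1 - φ U)(1 - φ W) + 2κ + two tails; expand the product, three uses of
lind_pow ((2L,0), (0,2L), (2L,2L)); 0 ≤ 1 - E φ(bv) ≤ (1 - sm) + κ; (v + κ)^2 ≤ v^2 + 3κ.
-/

set_option linter.unusedSectionVars false

namespace Pool.Agent.Work.MP_f474fe_lc.PT

open Finset BigOperators

variable {ι : Type} [Fintype ι] [DecidableEq ι]


lemma bump {κ a : ℝ} (hκ : 0 < κ) (hκ1 : κ ≤ 1) (ha : 0 < a) (ha1 : a ≤ 1) :
    ∃ L : ℕ, (2 * L : ℕ) * κ ≤ 10 / (κ ^ 2 * a ^ 2) ∧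
      (∀ t : ℝ, 0 ≤ Real.cos (κ * t) ^ (2 * L) ∧ Real.cos (κ * t) ^ (2 * L) ≤ 1) ∧
      (∀ t : ℝ, |t| ≤ κ * a / 3 → 1 - κ ≤ Real.cos (κ * t) ^ (2 * L)) ∧
      ∀ t : ℝ, a ≤ |t| → |t| ≤ 1 / κ → Real.cos (κ * t) ^ (2 * L) ≤ κ := by
  have hD : 0 < κ ^ 3 * a ^ 2 := by positivity
  have hD1 : κ ^ 3 * a ^ 2 ≤ 1 :=
    mul_le_one₀ (pow_le_one₀ hκ.le hκ1) (by positivity) (pow_le_one₀ ha.le ha1)
  obtain ⟨L, L1, L2⟩ : ∃ L : ℕ, 4 ≤ L * (κ ^ 3 * a ^ 2) ∧ L * (κ ^ 3 * a ^ 2) ≤ 5 := by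
    refine ⟨⌈4 / (κ ^ 3 * a ^ 2)⌉₊, (div_le_iff₀ hD).1 (Nat.le_ceil _), ?_⟩
    have h1 := (Nat.ceil_lt_add_one (a := 4 / (κ ^ 3 * a ^ 2)) (by positivity)).le
    have h2 := mul_le_mul_of_nonneg_right h1 hD.le
    rw [add_mul, div_mul_cancel₀ _ hD.ne'] at h2
    linarith only [hD1, h2]
  have e : ∀ t : ℝ, Real.cos (κ * t) ^ (2 * L) = (1 - Real.sin (κ * t) ^ 2) ^ L := fun t => by
    rw [pow_mul, Real.cos_sq']
  have s1 : ∀ t : ℝ, 0 ≤ 1 - Real.sin (κ * t) ^ 2 := fun t => sub_nonneg.2 (Real.sin_sq_le_one _)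
  refine ⟨L, ?_, fun t => ?_, fun t ht => ?_, fun t h1 h2 => ?_⟩
  · rw [le_div_iff₀ (by positivity)]
    push_cast
    linarith
  · rw [e]
    exact ⟨pow_nonneg (s1 t) _, pow_le_one₀ (s1 t) (by linarith [sq_nonneg (Real.sin (κ * t))])⟩
  · rw [e]
    have h1 := one_add_mul_le_pow (a := -Real.sin (κ * t) ^ 2) (by linarith only [s1, s1 t]) L
    have h2 : t ^ 2 ≤ (κ * a / 3) ^ 2 := by
      rw [← sq_abs t]
      exact pow_le_pow_left₀ (abs_nonneg _) ht 2
    have h3 : Real.sin (κ * t) ^ 2 ≤ κ ^ 3 * a ^ 2 * (κ / 9) :=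
      calc _ ≤ (κ * t) ^ 2 := Real.sin_sq_le_sq
        _ = κ ^ 2 * t ^ 2 := mul_pow _ _ _
        _ ≤ κ ^ 2 * (κ * a / 3) ^ 2 := by gcongr
        _ = _ := by ring
    have h4 := mul_le_mul_of_nonneg_left h3 (Nat.cast_nonneg (α := ℝ) L)
    have h5 := mul_le_mul_of_nonneg_right L2 (by positivity : 0 ≤ κ / 9)
    rw [← sub_eq_add_neg] at h1
    linarith only [hκ, h1, h4, h5]
  · rw [e]
    have h3 : |κ * t| ≤ 1 := by
      rw [abs_mul, abs_of_pos hκ]
      exact (le_div_iff₀' hκ).1 h2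
    have h4 := Real.mul_abs_le_abs_sin (h3.trans (by linarith only [Real.pi_gt_three]))
    have h5 : κ * a / 2 ≤ |Real.sin (κ * t)| := by
      have a1 : 1 / 2 ≤ 2 / Real.pi := by
        rw [div_le_div_iff₀ two_pos Real.pi_pos]
        linarith [Real.pi_le_four]
      have a2 : κ * a ≤ |κ * t| := by
        rw [abs_mul, abs_of_pos hκ]
        gcongr
      have a3 := mul_le_mul a1 a2 (by positivity) (by positivity)
      linarith only [h4, a3]
    have h6 : (κ * a / 2) ^ 2 ≤ Real.sin (κ * t) ^ 2 := by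
      rw [← sq_abs (Real.sin _)]
      gcongr
    have v1 := s1 t
    generalize Real.sin (κ * t) ^ 2 = v at h6 v1 ⊢
    have v0 : 0 ≤ v := le_trans (by positivity) h6
    have b1 : (1 - v) ^ L * (1 + L * v) ≤ 1 :=
      calc _ ≤ (1 - v) ^ L * (1 + v) ^ L :=
            mul_le_mul_of_nonneg_left (one_add_mul_le_pow (by linarith only [v0]) L) (pow_nonneg v1 _)
        _ = ((1 - v) * (1 + v)) ^ L := (mul_pow _ _ _).symm
        _ ≤ 1 := pow_le_one₀ (by positivity) (by linarith only [h6, mul_nonneg_of_nonpos_of_nonpos (Mathlib.Tactic.Linarith.sub_nonpos_of_le (sq_nonneg ((1 : ℝ) * κ * ((1 : ℝ) * a)))) (Mathlib.Tactic.Linarith.sub_nonpos_of_le (sq_nonneg ((1 : ℝ) * κ * ((1 : ℝ) * a)))), mul_nonneg_of_nonpos_of_nonpos (Mathlib.Tactic.Linarith.sub_nonpos_of_le (sq_nonneg ((1 : ℝ) * κ * ((1 : ℝ) * a)))) (Mathlib.Tactic.Linarith.sub_nonpos_of_le h6), mul_nonneg_of_nonpos_of_nonpos (Mathlib.Tactic.Linarith.sub_nonpos_of_le h6) (Mathlib.Tactic.Linarith.sub_nonpos_of_le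 h6)])
    have b2 : 1 ≤ κ * (1 + L * v) := by
      have := mul_le_mul_of_nonneg_left h6 (by positivity : 0 ≤ κ * L)
      linarith only [hκ, L1, this]
    have b3 := mul_le_mul_of_nonneg_left b2 (pow_nonneg v1 L)
    have b4 := mul_le_mul_of_nonneg_left b1 hκ.le
    linarith only [b3, b4]

lemma Smooth_tail {Ω : Type} [Fintype Ω] {f : Ω → ℝ} (h : 𝔼 ω, f ω ^ 2 = 1) {κ : ℝ} (hκ : 0 < κ)
    (hκ1 : κ ≤ 1) : (pr fun ω => 1 / κ < |f ω|) ≤ κ := by
  have h1 : (pr fun ω => 1 / κ < |f ω|) ≤ 𝔼 ω, κ ^ 2 * f ω ^ 2 := by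
    refine pr_le_expect (fun ω => by positivity) fun ω hω => ?_
    rw [← sq_abs (f ω), ← mul_pow]
    exact one_le_pow₀ ((div_lt_iff₀' hκ).1 hω).le
  rw [← mul_expect, h] at h1
  linarith only [h1, hκ, hκ1, mul_nonneg_of_nonpos_of_nonpos (le_of_lt (Mathlib.Tactic.Linarith.sub_neg_of_lt hκ)) (Mathlib.Tactic.Linarith.sub_nonpos_of_le hκ1)]

lemma Smooth_U {c : Finset ι → ℝ} (hn : nrm c = 1) {α β : ℝ} (h : α ^ 2 + β ^ 2 = 1) :
    𝔼 ω, ev c (rotU α β ω) ^ 2 = 1 :=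
  (parseval (std_rot (fun _ => α) (fun _ => β) fun _ => h) c).trans hn

lemma Smooth_W {c : Finset ι → ℝ} (hn : nrm c = 1) {α β : ℝ} (h : α ^ 2 + β ^ 2 = 1) :
    𝔼 ω, ev c (rotW α β ω) ^ 2 = 1 := by
  have e : ∀ ω : ι → Bool × Bool, rotW α β ω = rotU β (-α) ω := fun ω => by
    funext i
    simp only [rotW, rotU]
    ring
  simp only [e]
  exact Smooth_U hn (by linarith)

lemma Smooth_err (c : Finset ι → ℝ) (d : ℕ) {κ a : ℝ} (hκ : 0 < κ) (ha : 0 < a) :
    16 * 9 ^ d * (10 / (κ ^ 2 * a ^ 2)) ^ 4 * reg c = Err c d κ a := by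
  unfold Err
  field_simp
  ring

lemma Smooth_low (c : Finset ι → ℝ) {φ : ℝ → ℝ} {κ r : ℝ} (hκ : 0 < κ) (h0 : ∀ t, 0 ≤ φ t)
    (h1 : ∀ t, |t| ≤ r → 1 - κ ≤ φ t) : sm c r ≤ (𝔼 x, φ (bv c x)) + κ := by
  have h : sm c r ≤ 𝔼 x, (φ (bv c x) + κ) :=
    pr_le_expect (fun x => by linarith [h0 (bv c x)]) fun x hx => by linarith [h1 _ hx]
  rwa [expect_add_distrib, expect_const univ_nonempty] at h

theorem trans_one {c : Finset ι → ℝ} {d : ℕ} (hc : Deg c d) (hn : nrm c = 1) {α β : ℝ}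
    (h : α ^ 2 + β ^ 2 = 1) {κ a : ℝ} (hκ : 0 < κ) (hκ1 : κ ≤ 1) (ha : 0 < a) (ha1 : a ≤ 1) :
    sm c (κ * a / 3) ≤ (pr fun ω => |ev c (rotU α β ω)| ≤ a) + 3 * κ + Err c d κ a := by
  obtain ⟨L, l1, l2, l3, l4⟩ := bump hκ hκ1 ha ha1
  have e1 := lind_pow hc h (2 * L) 0 hκ.le l1 (by simp; positivity)
  simp only [pow_zero, mul_one, expect_const univ_nonempty, Smooth_err c d hκ ha] at e1
  have e2 := Smooth_low c (φ := fun t => Real.cos (κ * t) ^ (2 * L)) hκ (fun t => (l2 t).1) l3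
  have e3 := Smooth_tail (Smooth_U hn h) hκ hκ1
  have e4 : 𝔼 ω, (Real.cos (κ * ev c (rotU α β ω)) ^ (2 * L) - κ) ≤
      pr fun ω => |ev c (rotU α β ω)| ≤ a ∨ 1 / κ < |ev c (rotU α β ω)| := by
    refine expect_le_pr (fun ω hω => ?_) fun ω => by linarith only [hκ, l2, (l2 (ev c (rotU α β ω))).2]
    push Not at hω
    linarith only [l4, hω, l4 _ hω.1.le hω.2]
  rw [expect_sub_distrib, expect_const univ_nonempty] at e4
  have e5 := e4.trans (pr_or_le _ _)
  linarith only [e2, e3, e5, e1, (abs_le.1 e1).1]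

theorem trans_two {c : Finset ι → ℝ} {d : ℕ} (hc : Deg c d) (hn : nrm c = 1) {α β : ℝ}
    (h : α ^ 2 + β ^ 2 = 1) {κ a : ℝ} (hκ : 0 < κ) (hκ1 : κ ≤ 1) (ha : 0 < a) (ha1 : a ≤ 1) :
    (pr fun ω => a < |ev c (rotU α β ω)| ∧ a < |ev c (rotW α β ω)|) ≤
      (1 - sm c (κ * a / 3)) ^ 2 + 7 * κ + 3 * Err c d κ a := by
  obtain ⟨L, l1, l2, l3, l4⟩ := bump hκ hκ1 ha ha1
  have l0 : ((0 : ℕ) : ℝ) * κ ≤ 10 / (κ ^ 2 * a ^ 2) := by simp; positivity
  have e1 := lind_pow hc h (2 * L) 0 hκ.le l1 l0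
  have e1' := lind_pow hc h 0 (2 * L) hκ.le l0 l1
  have e1'' := lind_pow hc h (2 * L) (2 * L) hκ.le l1 l1
  simp only [pow_zero, mul_one, one_mul, expect_const univ_nonempty,
    Smooth_err c d hκ ha] at e1 e1' e1''
  have e2 := Smooth_low c (φ := fun t => Real.cos (κ * t) ^ (2 * L)) hκ (fun t => (l2 t).1) l3
  have e2' : 𝔼 x, Real.cos (κ * bv c x) ^ (2 * L) ≤ 1 :=
    expect_le univ_nonempty fun x _ => (l2 _).2
  have e3 := Smooth_tail (Smooth_U hn h) hκ hκ1
  have e3' := Smooth_tail (Smooth_W hn h) hκ hκ1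
  have e4 : (pr fun ω => (a < |ev c (rotU α β ω)| ∧ |ev c (rotU α β ω)| ≤ 1 / κ) ∧
      a < |ev c (rotW α β ω)| ∧ |ev c (rotW α β ω)| ≤ 1 / κ) ≤
      𝔼 ω, (1 + 2 * κ - Real.cos (κ * ev c (rotU α β ω)) ^ (2 * L) -
        Real.cos (κ * ev c (rotW α β ω)) ^ (2 * L) + Real.cos (κ * ev c (rotU α β ω)) ^ (2 * L) *
          Real.cos (κ * ev c (rotW α β ω)) ^ (2 * L)) := by
    refine pr_le_expect (fun ω => ?_) fun ω hω => ?_
    · have := mul_nonneg (sub_nonneg.2 (l2 (ev c (rotU α β ω))).2)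
        (sub_nonneg.2 (l2 (ev c (rotW α β ω))).2)
      linarith only [hκ, this]
    · have := mul_nonneg (l2 (ev c (rotU α β ω))).1 (l2 (ev c (rotW α β ω))).1
      linarith only [this, l4, hω, l4 _ hω.1.1.le hω.1.2, l4 _ hω.2.1.le hω.2.2]
  rw [expect_add_distrib, expect_sub_distrib, expect_sub_distrib,
    expect_const univ_nonempty] at e4
  have e5 : (pr fun ω => a < |ev c (rotU α β ω)| ∧ a < |ev c (rotW α β ω)|) ≤
      (pr fun ω => (a < |ev c (rotU α β ω)| ∧ |ev c (rotU α β ω)| ≤ 1 / κ) ∧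
        a < |ev c (rotW α β ω)| ∧ |ev c (rotW α β ω)| ≤ 1 / κ) +
      pr fun ω => 1 / κ < |ev c (rotU α β ω)| ∨ 1 / κ < |ev c (rotW α β ω)| := by
    refine pr_le_add fun ω hω => ?_
    rcases le_or_gt |ev c (rotU α β ω)| (1 / κ) with h1 | h1
    · rcases le_or_gt |ev c (rotW α β ω)| (1 / κ) with h2 | h2
      · exact Or.inl ⟨⟨hω.1, h1⟩, hω.2, h2⟩
      · exact Or.inr (Or.inr h2)
    · exact Or.inr (Or.inl h1)
  have e6 := pr_or_le (fun ω => 1 / κ < |ev c (rotU α β ω)|) fun ω => 1 / κ < |ev c (rotW α β ω)|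
  have s0 : 0 ≤ sm c (κ * a / 3) := pr_nonneg _
  have e7 : (1 - 𝔼 x, Real.cos (κ * bv c x) ^ (2 * L)) ^ 2 ≤ (1 - sm c (κ * a / 3) + κ) ^ 2 :=
    pow_le_pow_left₀ (by linarith only [e2']) (by linarith only [e2]) 2
  have e8 := mul_nonneg s0 hκ.le
  have e9 := mul_le_mul_of_nonneg_left hκ1 hκ.le
  linarith only [e3, e3', e4, e5, e6, e7, e8, e9, e1, e1', e1'', (abs_le.1 e1).1, (abs_le.1 e1').1, (abs_le.1 e1'').2]


end Pool.Agent.Work.MP_f474fe_lc.PT
end

-- merged part: Pool.Agent.Work.MP_f474fe_lc.PT.Lagr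
section
/-!
Lagrange extrapolation along the circle through two points.

Plan. prod_ge_factorial: induction on the card, removing the maximum m ≥ card (D ⊆ Icc 1 m).
lagr_poly: Lagrange.eq_interpolate_of_eval_eq / Lagrange.interpolate over J with nodes v j = j / M
(injective), eval_basis: |s - v k| ≤ 1 and |v j - v k| = |j - k| / M. For j ∈ J with i smaller and
r - i larger elements, ∏ |j - k| ≥ i! (r - i)! ≥ r! / 2^r (Nat.choose_le_two_pow,
Nat.choose_mul_factorial_mul_factorial), and r + 1 ≤ 2^r.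
lagr_ev: P = ∑ A, C (c A) * (1 + X^2)^(d - |A|) * ∏ i ∈ A, (C (x i) * (1 - X^2) + C (2 * y i) * X)
has natDegree ≤ 2 d, P.eval s = (1 + s^2)^d * ev c (ca s * x + cb s * y) (terms with c A = 0 vanish),
P.eval 0 = ev c x, P.eval 1 = 2^d * ev c y. On [0,1] the factor is at most 2^d. Take J of card 2d+1
inside the filter (exists_subset_card_eq), r = 2d, M = d t, r^r / r! ≤ exp r ≤ 3^r
(Real.pow_div_factorial_le_exp, Real.exp_one_lt_d9), so the constant is at most
2^d (6 t)^(2d) = (72 t^2)^d ≤ (9 t)^(2d).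
-/

set_option linter.unusedSectionVars false

namespace Pool.Agent.Work.MP_f474fe_lc.PT

open Finset BigOperators

variable {ι : Type} [Fintype ι] [DecidableEq ι]


lemma prod_ge_factorial (D : Finset ℕ) (h : ∀ j ∈ D, 1 ≤ j) : D.card.factorial ≤ ∏ j ∈ D, j := by
  induction D using Finset.induction_on_max with
  | empty => simp
  | insert m s hm ih =>
    have hn : m ∉ s := fun q => lt_irrefl _ (hm m q)
    have h1 := h m (mem_insert_self _ _)
    have h2 : s.card ≤ (Ico 1 m).card :=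
      card_le_card fun j hj => mem_Ico.2 ⟨h j (mem_insert_of_mem hj), hm j hj⟩
    rw [Nat.card_Ico] at h2
    rw [card_insert_of_notMem hn, prod_insert hn, Nat.factorial_succ]
    exact Nat.mul_le_mul (by omega) (ih fun j hj => h j (mem_insert_of_mem hj))

lemma Lagr_inj (A : Finset ℕ) (f : ℕ → ℕ) (hf : Set.InjOn f A) (h1 : ∀ k ∈ A, 1 ≤ f k) :
    A.card.factorial ≤ ∏ k ∈ A, f k := by
  have := prod_ge_factorial (A.image f) fun j hj => by
    obtain ⟨k, hk, rfl⟩ := mem_image.1 hj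
    exact h1 k hk
  rwa [card_image_of_injOn hf, prod_image hf] at this

lemma Lagr_dist (K : Finset ℕ) {j : ℕ} (hj : j ∉ K) :
    K.card.factorial ≤ 2 ^ K.card * ∏ k ∈ K, Nat.dist j k := by
  have h1 := Lagr_inj (K.filter fun k => k < j) (Nat.dist j) (fun a ha b hb e => by
    have a1 := (mem_filter.1 ha).2
    have b1 := (mem_filter.1 hb).2
    unfold Nat.dist at e
    omega) fun k hk => by
    have a1 := (mem_filter.1 hk).2
    unfold Nat.dist
    omega
  have h2 := Lagr_inj (K.filter fun k => ¬ k < j) (Nat.dist j) (fun a ha b hb e => by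
    have a1 := (mem_filter.1 ha).2
    have b1 := (mem_filter.1 hb).2
    unfold Nat.dist at e
    omega) fun k hk => by
    have a1 := (mem_filter.1 hk).2
    have a2 : k ≠ j := fun e => hj (e ▸ (mem_filter.1 hk).1)
    unfold Nat.dist
    omega
  rw [← prod_filter_mul_prod_filter_not K fun k => k < j,
    ← card_filter_add_card_filter_not (s := K) fun k => k < j,
    ← Nat.add_choose_mul_factorial_mul_factorial, mul_assoc]
  exact Nat.mul_le_mul (Nat.choose_le_two_pow _ _) (Nat.mul_le_mul h1 h2)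

lemma Lagr_cast (j k : ℕ) : ((Nat.dist j k : ℕ) : ℝ) = |(j : ℝ) - k| := by
  rcases le_total j k with h | h
  · rw [Nat.dist_eq_sub_of_le h, Nat.cast_sub h, abs_sub_comm,
      abs_of_nonneg (sub_nonneg.2 (Nat.cast_le.2 h))]
  · rw [Nat.dist_eq_sub_of_le_right h, Nat.cast_sub h,
      abs_of_nonneg (sub_nonneg.2 (Nat.cast_le.2 h))]

lemma Lagr_basis {r M : ℕ} (hM : 0 < M) (J : Finset ℕ) (hJ : J.card = r + 1)
    (hJM : ∀ j ∈ J, j ≤ M) {s : ℝ} (hs0 : 0 ≤ s) (hs1 : s ≤ 1) {j : ℕ} (hj : j ∈ J) :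
    |(Lagrange.basis J (fun j : ℕ => (j : ℝ) / M) j).eval s| ≤ (2 * M) ^ r / r.factorial := by
  have M0 : (0 : ℝ) < M := Nat.cast_pos.2 hM
  have hc : (J.erase j).card = r := by rw [card_erase_of_mem hj, hJ, Nat.add_sub_cancel]
  have h1 := Lagr_dist (J.erase j) (notMem_erase j J)
  rw [hc] at h1
  have h2 : (r.factorial : ℝ) ≤ 2 ^ r * ∏ k ∈ J.erase j, |(j : ℝ) - k| := by
    simp only [← Lagr_cast]
    exact_mod_cast h1
  have f0 : (0 : ℝ) < r.factorial := Nat.cast_pos.2 r.factorial_pos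
  have q0 : 0 < ∏ k ∈ J.erase j, |(j : ℝ) - k| :=
    (mul_pos_iff_of_pos_left (by positivity)).1 (f0.trans_le h2)
  rw [Lagrange.basis, Polynomial.eval_prod, abs_prod]
  calc _ ≤ ∏ k ∈ J.erase j, (M : ℝ) / |(j : ℝ) - k| := by
        refine prod_le_prod (fun _ _ => abs_nonneg _) fun k hk => ?_
        have a1 : (k : ℝ) / M ≤ 1 :=
          (div_le_one M0).2 (Nat.cast_le.2 (hJM k (mem_of_mem_erase hk)))
        have a2 : (0 : ℝ) ≤ k / M := by positivity
        have a3 : |s - (k : ℝ) / M| ≤ 1 := abs_le.2 ⟨by linarith only [hs0, a1], by linarith only [hs1, a2]⟩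
        simp only [Lagrange.basisDivisor, Polynomial.eval_mul, Polynomial.eval_C,
          Polynomial.eval_sub, Polynomial.eval_X]
        rw [abs_mul, ← sub_div, inv_div, abs_div, abs_of_pos M0]
        exact mul_le_of_le_one_right (by positivity) a3
    _ = M ^ r / ∏ k ∈ J.erase j, |(j : ℝ) - k| := by rw [prod_div_distrib, prod_const, hc]
    _ ≤ _ := by
        rw [div_le_div_iff₀ q0 f0, mul_pow, mul_comm (2 ^ r : ℝ), mul_assoc]
        exact mul_le_mul_of_nonneg_left h2 (by positivity)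

theorem lagr_poly (P : Polynomial ℝ) {r M : ℕ} (hP : P.natDegree ≤ r) (hM : 0 < M)
    (J : Finset ℕ) (hJ : J.card = r + 1) (hJM : ∀ j ∈ J, j ≤ M) {a : ℝ}
    (ha : ∀ j ∈ J, |P.eval ((j : ℝ) / M)| ≤ a) {s : ℝ} (hs0 : 0 ≤ s) (hs1 : s ≤ 1) :
    |P.eval s| ≤ a * (4 * M) ^ r / r.factorial := by
  have M0 : (0 : ℝ) < M := Nat.cast_pos.2 hM
  obtain ⟨j0, hj0⟩ : J.Nonempty := card_pos.1 (by omega)
  have a0 : 0 ≤ a := (abs_nonneg _).trans (ha j0 hj0)
  have hi : Set.InjOn (fun j : ℕ => (j : ℝ) / M) J := fun j _ k _ e =>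
    Nat.cast_injective (R := ℝ) ((div_left_inj' M0.ne').1 e)
  have hd : P.degree < J.card := by
    refine Polynomial.degree_le_natDegree.trans_lt ?_
    rw [hJ]
    exact_mod_cast Nat.lt_succ_of_le hP
  have e := Lagrange.eq_interpolate hi hd
  have h1 : ((r + 1 : ℕ) : ℝ) ≤ 2 ^ r := by exact_mod_cast Nat.lt_two_pow_self
  calc |P.eval s| = |∑ j ∈ J, P.eval ((j : ℝ) / M) *
        (Lagrange.basis J (fun j : ℕ => (j : ℝ) / M) j).eval s| := by
        conv_lhs => rw [e, Lagrange.interpolate_apply, Polynomial.eval_finsetSum]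
        simp only [Polynomial.eval_mul, Polynomial.eval_C]
    _ ≤ ∑ j ∈ J, a * ((2 * M) ^ r / r.factorial) := by
        refine (abs_sum_le_sum_abs _ _).trans (sum_le_sum fun j hj => ?_)
        rw [abs_mul]
        exact mul_le_mul (ha j hj) (Lagr_basis hM J hJ hJM hs0 hs1 hj) (abs_nonneg _) a0
    _ = ((r + 1 : ℕ) : ℝ) * (a * ((2 * M) ^ r / r.factorial)) := by
        rw [sum_const, hJ, nsmul_eq_mul]
    _ ≤ 2 ^ r * (a * ((2 * M) ^ r / r.factorial)) :=
        mul_le_mul_of_nonneg_right h1 (by positivity)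
    _ = _ := by
        rw [show (4 * M : ℝ) = 2 * (2 * M) by ring, mul_pow 2 (2 * M : ℝ)]
        ring

lemma Lagr_exists {c : Finset ι → ℝ} {d : ℕ} (hc : Deg c d) (x y : ι → ℝ) :
    ∃ P : Polynomial ℝ, P.natDegree ≤ 2 * d ∧
      ∀ s, P.eval s = (1 + s ^ 2) ^ d * ev c fun i => ca s * x i + cb s * y i := by
  refine ⟨∑ A, Polynomial.C (c A) * ((1 + Polynomial.X ^ 2) ^ (d - A.card) *
    ∏ i ∈ A, (Polynomial.C (x i) * (1 - Polynomial.X ^ 2) + Polynomial.C (2 * y i) * Polynomial.X)),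
    Polynomial.natDegree_sum_le_of_forall_le _ _ fun A _ => ?_, fun s => ?_⟩
  · by_cases h : c A = 0
    · simp [h]
    · have h1 := hc A h
      have h2 : (1 + Polynomial.X ^ 2 : Polynomial ℝ).natDegree ≤ 2 := by compute_degree
      have h3 := Polynomial.natDegree_pow_le_of_le (d - A.card) h2
      have h4 := (Polynomial.natDegree_prod_le A fun i => Polynomial.C (x i) *
        (1 - Polynomial.X ^ 2) + Polynomial.C (2 * y i) * Polynomial.X).trans
        (sum_le_card_nsmul _ _ 2 fun i _ => by compute_degree)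
      rw [smul_eq_mul] at h4
      refine (Polynomial.natDegree_C_mul_le _ _).trans (Polynomial.natDegree_mul_le.trans ?_)
      omega
  · rw [Polynomial.eval_finsetSum, ev, mul_sum]
    refine sum_congr rfl fun A _ => ?_
    by_cases h : c A = 0
    · simp [h]
    · have h1 : (1 + s ^ 2) ^ d = (1 + s ^ 2) ^ (d - A.card) * ∏ _i ∈ A, (1 + s ^ 2) := by
        rw [prod_const, ← pow_add, Nat.sub_add_cancel (hc A h)]
      have h2 : ∀ i, x i * (1 - s ^ 2) + 2 * y i * s = (1 + s ^ 2) * (ca s * x i + cb s * y i) := by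
        intro i
        have : (1 + s ^ 2) ≠ 0 := by positivity
        unfold ca cb
        field_simp
      simp only [Polynomial.eval_mul, Polynomial.eval_C, Polynomial.eval_pow, Polynomial.eval_add,
        Polynomial.eval_one, Polynomial.eval_X, Polynomial.eval_prod, Polynomial.eval_sub, h2,
        prod_mul_distrib]
      rw [h1]
      ring

lemma Lagr_const (d t : ℕ) :
    (2 : ℝ) ^ d * (4 * (d * t : ℕ)) ^ (2 * d) / (2 * d).factorial ≤ (9 * t) ^ (2 * d) := by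
  have h1 := Real.pow_div_factorial_le_exp ((2 * d : ℕ) : ℝ) (Nat.cast_nonneg _) (2 * d)
  have h2 : Real.exp ((2 * d : ℕ) : ℝ) ≤ 3 ^ (2 * d) := by
    rw [← Real.exp_one_pow]
    exact pow_le_pow_left₀ (Real.exp_pos 1).le (Real.exp_one_lt_d9.le.trans (by norm_num)) _
  have h3 : (4 * (d * t : ℕ) : ℝ) = (2 * t) * (2 * d : ℕ) := by
    push_cast
    ring
  calc _ = 2 ^ d * (2 * t : ℝ) ^ (2 * d) * (((2 * d : ℕ) : ℝ) ^ (2 * d) / (2 * d).factorial) := by
        rw [h3, mul_pow]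
        ring
    _ ≤ 2 ^ d * (2 * t : ℝ) ^ (2 * d) * 3 ^ (2 * d) :=
        mul_le_mul_of_nonneg_left (h1.trans h2) (by positivity)
    _ = (2 * (2 * t) ^ 2 * 3 ^ 2) ^ d := by rw [pow_mul, pow_mul, ← mul_pow, ← mul_pow]
    _ ≤ ((9 * t) ^ 2) ^ d := pow_le_pow_left₀ (by positivity) (by linarith only [sq_nonneg (t : ℝ), sq_nonneg ↑t]) _
    _ = _ := (pow_mul _ _ _).symm

open Classical in
theorem lagr_ev {c : Finset ι → ℝ} {d : ℕ} (hc : Deg c d) (hd : 1 ≤ d) {t : ℕ} (ht : 1 ≤ t)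
    (x y : ι → ℝ) {a : ℝ}
    (h : 2 * d + 1 ≤ ((range (d * t + 1)).filter fun j : ℕ =>
      |ev c fun i => ca ((j : ℝ) / (d * t : ℕ)) * x i + cb ((j : ℝ) / (d * t : ℕ)) * y i| ≤ a).card) :
    |ev c x| ≤ (9 * t) ^ (2 * d) * a ∧ |ev c y| ≤ (9 * t) ^ (2 * d) * a := by
  obtain ⟨P, hP, hev⟩ := Lagr_exists hc x y
  obtain ⟨J, hJ, hJc⟩ := exists_subset_card_eq h
  have hM : 0 < d * t := Nat.mul_pos hd ht
  have M0 : (0 : ℝ) < (d * t : ℕ) := Nat.cast_pos.2 hM
  have hle : ∀ j ∈ J, j ≤ d * t := fun j hj =>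
    Nat.lt_succ_iff.1 (mem_range.1 (mem_filter.1 (hJ hj)).1)
  obtain ⟨j0, hj0⟩ : J.Nonempty := card_pos.1 (by omega)
  have a0 : 0 ≤ a := (abs_nonneg _).trans (mem_filter.1 (hJ hj0)).2
  have key : ∀ s : ℝ, 0 ≤ s → s ≤ 1 → |P.eval s| ≤ (9 * t) ^ (2 * d) * a := fun s s0 s1 => by
    refine (lagr_poly P hP hM J hJc hle (a := 2 ^ d * a) (fun j hj => ?_) s0 s1).trans ?_
    · have a1 : (j : ℝ) / (d * t : ℕ) ≤ 1 := (div_le_one M0).2 (Nat.cast_le.2 (hle j hj))
      have a2 : (0 : ℝ) ≤ j / (d * t : ℕ) := by positivity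
      rw [hev, abs_mul, abs_of_nonneg (by positivity)]
      exact mul_le_mul (pow_le_pow_left₀ (by positivity) (by linarith only [a1, a2, mul_nonneg_of_nonpos_of_nonpos (Mathlib.Tactic.Linarith.sub_nonpos_of_le a1) (Mathlib.Tactic.Linarith.sub_nonpos_of_le a2)]) _)
        (mem_filter.1 (hJ hj)).2 (abs_nonneg _) (by positivity)
    · refine le_of_eq_of_le ?_ (mul_le_mul_of_nonneg_right (Lagr_const d t) a0)
      ring
  have k0 := key 0 le_rfl zero_le_one
  have k1 := key 1 zero_le_one le_rfl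
  rw [hev] at k0 k1
  constructor
  · simpa [ca, cb] using k0
  · have e : (fun i => ca 1 * x i + cb 1 * y i) = y := funext fun i => by norm_num [ca, cb]
    rw [e, abs_mul, abs_of_nonneg (by positivity)] at k1
    exact (le_mul_of_one_le_left (abs_nonneg _) (one_le_pow₀ (by norm_num))).trans k1


end Pool.Agent.Work.MP_f474fe_lc.PT
end

-- merged part: Pool.Agent.Work.MP_f474fe_lc.PT.Steps
section
/-!
The two doubling inequalities.

Plan. M = d t, nodes s j = j / M for j in range (M + 1), (α, β) = (ca (s j), cb (s j)), x i = sg (ω i).1,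
y i = sg (ω i).2, b = (9 t)^(2 d) a. Then rotU α β ω = α x + β y and rotW α β ω = α (- y) + β x.
step_large: if b < |ev c x| then by lagr_ev (for (x, y), first part, and for (- y, x), second part)
at most 2 d nodes have |U j| ≤ a and at most 2 d have |W j| ≤ a, so at least M + 1 - 4 d nodes have both
large. Pointwise (M + 1 - 4 d) 1[b < |ev c x|] ≤ ∑ j, 1[both large at j]; take expectations
(expect_sum_comm, expect_pair for the marginal), trans_two for every j, divide by M + 1,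
4 d / (M + 1) ≤ 4 / t.
step_small: pointwise ∑ j, 1[|U j| ≤ a] ≤ 2 d + (M + 1) 1[|ev c x| ≤ b] 1[|ev c y| ≤ b];
expectation of the product is sm c b ^ 2 (expect_pair); trans_one for every j.
-/

set_option linter.unusedSectionVars false

namespace Pool.Agent.Work.MP_f474fe_lc.PT

open Finset BigOperators

variable {ι : Type} [Fintype ι] [DecidableEq ι]

lemma Steps_pr_both (P Q : (ι → Bool) → Prop) :
    (pr fun ω : ι → Bool × Bool => P (fun i => (ω i).1) ∧ Q (fun i => (ω i).2)) = pr P * pr Q := by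
  classical
  unfold pr
  have h := expect_pair (ι := ι) (fun x y => (if P x then (1 : ℝ) else 0) * if Q y then (1 : ℝ) else 0)
  rw [expect_mul_expect, ← h]
  refine expect_congr rfl fun ω _ => ?_
  by_cases hp : P (fun i => (ω i).1) <;> by_cases hq : Q (fun i => (ω i).2) <;> simp [hp, hq]

lemma Steps_pr_true {Ω : Type} [Fintype Ω] [Nonempty Ω] : (pr fun _ : Ω => True) = 1 := by
  unfold pr
  simp

lemma Steps_pr_fst (P : (ι → Bool) → Prop) :
    (pr fun ω : ι → Bool × Bool => P (fun i => (ω i).1)) = pr P := by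
  have h := Steps_pr_both P (fun _ => True)
  rw [Steps_pr_true, mul_one] at h
  rw [← h]
  exact pr_congr fun ω => by simp

open Classical in
lemma Steps_sum_pr {Ω : Type} [Fintype Ω] (s : Finset ℕ) (P : ℕ → Ω → Prop) :
    ∑ j ∈ s, pr (P j) = 𝔼 ω, ((s.filter fun j => P j ω).card : ℝ) := by
  unfold pr
  rw [← expect_sum_comm]
  refine expect_congr rfl fun ω _ => ?_
  rw [card_filter]
  push_cast
  exact sum_congr rfl fun j _ => by by_cases h : P j ω <;> simp [h]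

lemma Steps_mul_pr {Ω : Type} [Fintype Ω] (r : ℝ) (P : Ω → Prop) [DecidablePred P] :
    r * pr P = 𝔼 ω, if P ω then r else 0 := by
  unfold pr
  rw [mul_expect]
  refine expect_congr rfl fun ω _ => ?_
  by_cases h : P ω <;> simp [h]

lemma Steps_rotU (α β : ℝ) (ω : ι → Bool × Bool) :
    rotU α β ω = fun i => α * sg (ω i).1 + β * sg (ω i).2 := rfl

lemma Steps_rotW (α β : ℝ) (ω : ι → Bool × Bool) :
    rotW α β ω = fun i => α * (- sg (ω i).2) + β * sg (ω i).1 := by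
  funext i
  unfold rotW
  ring

open Classical in
lemma Steps_U {c : Finset ι → ℝ} {d : ℕ} (hc : Deg c d) (hd : 1 ≤ d) {t : ℕ} (ht : 1 ≤ t)
    {a : ℝ} (ω : ι → Bool × Bool)
    (h : ¬ (|bv c fun i => (ω i).1| ≤ (9 * t) ^ (2 * d) * a ∧
      |bv c fun i => (ω i).2| ≤ (9 * t) ^ (2 * d) * a)) :
    ((range (d * t + 1)).filter fun j : ℕ =>
      |ev c (rotU (ca ((j : ℝ) / (d * t : ℕ))) (cb ((j : ℝ) / (d * t : ℕ))) ω)| ≤ a).card
        ≤ 2 * d := by
  by_contra hcon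
  apply h
  exact lagr_ev hc hd ht (fun i => sg (ω i).1) (fun i => sg (ω i).2) (a := a)
    (by simpa only [Steps_rotU] using Nat.succ_le_of_lt (not_le.1 hcon))

open Classical in
lemma Steps_W {c : Finset ι → ℝ} {d : ℕ} (hc : Deg c d) (hd : 1 ≤ d) {t : ℕ} (ht : 1 ≤ t)
    {a : ℝ} (ω : ι → Bool × Bool)
    (h : ¬ (|bv c fun i => (ω i).1| ≤ (9 * t) ^ (2 * d) * a)) :
    ((range (d * t + 1)).filter fun j : ℕ =>
      |ev c (rotW (ca ((j : ℝ) / (d * t : ℕ))) (cb ((j : ℝ) / (d * t : ℕ))) ω)| ≤ a).card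
        ≤ 2 * d := by
  by_contra hcon
  apply h
  exact (lagr_ev hc hd ht (fun i => - sg (ω i).2) (fun i => sg (ω i).1) (a := a)
    (by simpa only [Steps_rotW] using Nat.succ_le_of_lt (not_le.1 hcon))).2


theorem step_large {c : Finset ι → ℝ} {d : ℕ} (hc : Deg c d) (hd : 1 ≤ d) (hn : nrm c = 1)
    {t : ℕ} (ht : 1 ≤ t) {κ a : ℝ} (hκ : 0 < κ) (hκ1 : κ ≤ 1) (ha : 0 < a) (ha1 : a ≤ 1) :
    (1 - sm c ((9 * t) ^ (2 * d) * a)) * (1 - 4 / t) ≤
      (1 - sm c (κ * a / 3)) ^ 2 + 7 * κ + 3 * Err c d κ a := by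
  classical
  set b : ℝ := (9 * t) ^ (2 * d) * a with hb
  set R : ℝ := (1 - sm c (κ * a / 3)) ^ 2 + 7 * κ + 3 * Err c d κ a with hR
  set N : ℝ := ((d * t + 1 : ℕ) : ℝ) with hN
  let U : ℕ → (ι → Bool × Bool) → ℝ := fun j ω =>
    |ev c (rotU (ca ((j : ℝ) / (d * t : ℕ))) (cb ((j : ℝ) / (d * t : ℕ))) ω)|
  let W : ℕ → (ι → Bool × Bool) → ℝ := fun j ω =>
    |ev c (rotW (ca ((j : ℝ) / (d * t : ℕ))) (cb ((j : ℝ) / (d * t : ℕ))) ω)|
  have h1 : ∑ j ∈ range (d * t + 1), pr (fun ω => a < U j ω ∧ a < W j ω) ≤ N * R := by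
    calc _ ≤ ∑ j ∈ range (d * t + 1), R :=
          sum_le_sum fun j _ => trans_two hc hn (ca_sq_add_cb_sq _) hκ hκ1 ha ha1
      _ = N * R := by rw [sum_const, card_range, nsmul_eq_mul]
  have h2 : (N - 4 * d) * (pr fun ω : ι → Bool × Bool => ¬ |bv c fun i => (ω i).1| ≤ b) ≤
      ∑ j ∈ range (d * t + 1), pr (fun ω => a < U j ω ∧ a < W j ω) := by
    rw [Steps_sum_pr, Steps_mul_pr]
    refine expect_le_expect fun ω _ => ?_
    split_ifs with h
    · exact Nat.cast_nonneg _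
    · have hU := Steps_U hc hd ht ω (a := a) (fun hh => h hh.1)
      have hW := Steps_W hc hd ht ω (a := a) h
      have hsub : range (d * t + 1) ⊆
          ((range (d * t + 1)).filter fun j => a < U j ω ∧ a < W j ω) ∪
            (((range (d * t + 1)).filter fun j => U j ω ≤ a) ∪
              ((range (d * t + 1)).filter fun j => W j ω ≤ a)) := by
        intro j hj
        simp only [mem_union, mem_filter, hj, true_and]
        by_cases h3 : U j ω ≤ a
        · exact Or.inr (Or.inl h3)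
        · by_cases h4 : W j ω ≤ a
          · exact Or.inr (Or.inr h4)
          · exact Or.inl ⟨not_le.1 h3, not_le.1 h4⟩
      have hcard := (card_le_card hsub).trans ((card_union_le _ _).trans
        (Nat.add_le_add_left (card_union_le _ _) _))
      rw [card_range] at hcard
      have h5 : d * t + 1 ≤
          ((range (d * t + 1)).filter fun j => a < U j ω ∧ a < W j ω).card + (2 * d + 2 * d) :=
        hcard.trans (Nat.add_le_add_left (Nat.add_le_add hU hW) _)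
      have h6 : (((d * t + 1 : ℕ)) : ℝ) ≤
          (((range (d * t + 1)).filter fun j => a < U j ω ∧ a < W j ω).card : ℝ)
            + (2 * d + 2 * d) := by exact_mod_cast h5
      have h7 : N - 4 * d ≤
          (((range (d * t + 1)).filter fun j => a < U j ω ∧ a < W j ω).card : ℝ) := by
        rw [hN]; linarith only [h6]
      refine h7.trans (le_of_eq ?_)
      congr
  have h3 : (pr fun ω : ι → Bool × Bool => ¬ |bv c fun i => (ω i).1| ≤ b) = 1 - sm c b := by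
    rw [Steps_pr_fst (fun x => ¬ |bv c x| ≤ b), pr_not]
    rfl
  rw [h3] at h2
  have h4 : 0 ≤ 1 - sm c b := by
    have := pr_le_one fun x : ι → Bool => |bv c x| ≤ b
    unfold sm
    linarith only [this]
  have htR : (0 : ℝ) < t := by exact_mod_cast ht
  have hNe : N = d * t + 1 := by rw [hN]; push_cast; ring
  have hN0 : 0 < N := by rw [hNe]; positivity
  have h5 : N * (1 - 4 / t) ≤ N - 4 * d := by
    have : 4 * (d : ℝ) ≤ N * (4 / t) := by
      rw [hNe, ← mul_div_assoc, le_div_iff₀ htR]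
      linarith only []
    linarith only [this]
  have h6 : N * ((1 - sm c b) * (1 - 4 / t)) ≤ N * R := by
    calc N * ((1 - sm c b) * (1 - 4 / t)) = (N * (1 - 4 / t)) * (1 - sm c b) := by ring
      _ ≤ (N - 4 * d) * (1 - sm c b) := mul_le_mul_of_nonneg_right h5 h4
      _ ≤ N * R := h2.trans h1
  exact le_of_mul_le_mul_left h6 hN0

theorem step_small {c : Finset ι → ℝ} {d : ℕ} (hc : Deg c d) (hd : 1 ≤ d) (hn : nrm c = 1)
    {t : ℕ} (ht : 1 ≤ t) {κ a : ℝ} (hκ : 0 < κ) (hκ1 : κ ≤ 1) (ha : 0 < a) (ha1 : a ≤ 1) :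
    sm c (κ * a / 3) ≤ sm c ((9 * t) ^ (2 * d) * a) ^ 2 + 2 / t + 3 * κ + Err c d κ a := by
  classical
  set b : ℝ := (9 * t) ^ (2 * d) * a with hb
  set R : ℝ := sm c (κ * a / 3) - 3 * κ - Err c d κ a with hR
  set N : ℝ := ((d * t + 1 : ℕ) : ℝ) with hN
  let U : ℕ → (ι → Bool × Bool) → ℝ := fun j ω =>
    |ev c (rotU (ca ((j : ℝ) / (d * t : ℕ))) (cb ((j : ℝ) / (d * t : ℕ))) ω)|
  have h1 : N * R ≤ ∑ j ∈ range (d * t + 1), pr (fun ω => U j ω ≤ a) := by
    calc N * R = ∑ j ∈ range (d * t + 1), R := by rw [sum_const, card_range, nsmul_eq_mul]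
      _ ≤ _ := sum_le_sum fun j _ => by
          have := trans_one hc hn (ca_sq_add_cb_sq ((j : ℝ) / (d * t : ℕ))) hκ hκ1 ha ha1
          rw [hR]
          linarith only [this]
  have h2 : ∑ j ∈ range (d * t + 1), pr (fun ω => U j ω ≤ a) ≤ 2 * d +
      N * (pr fun ω : ι → Bool × Bool =>
        |bv c fun i => (ω i).1| ≤ b ∧ |bv c fun i => (ω i).2| ≤ b) := by
    rw [Steps_sum_pr, Steps_mul_pr]
    rw [← expect_const (s := (univ : Finset (ι → Bool × Bool))) univ_nonempty (2 * (d : ℝ)),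
      ← expect_add_distrib]
    refine expect_le_expect fun ω _ => ?_
    split_ifs with h
    · have h5 : ((range (d * t + 1)).filter fun j => U j ω ≤ a).card ≤ d * t + 1 :=
        (card_filter_le _ _).trans (card_range _).le
      have h6 : (((range (d * t + 1)).filter fun j => U j ω ≤ a).card : ℝ) ≤ N := by
        rw [hN]; exact_mod_cast h5
      have h7 : (((range (d * t + 1)).filter fun j => U j ω ≤ a).card : ℝ) ≤ 2 * d + N := by
        have : (0 : ℝ) ≤ 2 * d := by positivity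
        linarith only [h6]
      convert h7
    · have hU := Steps_U hc hd ht ω (a := a) h
      have h7 : (((range (d * t + 1)).filter fun j => U j ω ≤ a).card : ℝ) ≤ 2 * d + 0 := by
        rw [add_zero]; exact_mod_cast hU
      convert h7
  rw [Steps_pr_both (fun x => |bv c x| ≤ b) (fun x => |bv c x| ≤ b)] at h2
  have h3 : (pr fun x : ι → Bool => |bv c x| ≤ b) = sm c b := rfl
  rw [h3] at h2
  have htR : (0 : ℝ) < t := by exact_mod_cast ht
  have hNe : N = d * t + 1 := by rw [hN]; push_cast; ring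
  have hN0 : 0 < N := by rw [hNe]; positivity
  have h5 : 2 * (d : ℝ) ≤ N * (2 / t) := by
    rw [hNe, ← mul_div_assoc, le_div_iff₀ htR]
    linarith only []
  have h6 : N * R ≤ N * (sm c b ^ 2 + 2 / t) := by
    calc N * R ≤ 2 * d + N * (sm c b * sm c b) := h1.trans h2
      _ ≤ N * (2 / t) + N * (sm c b * sm c b) := by linarith only [h5]
      _ = N * (sm c b ^ 2 + 2 / t) := by ring
  have h7 := le_of_mul_le_mul_left h6 hN0
  rw [hR] at h7
  linarith only [h7]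


end Pool.Agent.Work.MP_f474fe_lc.PT
end

-- merged part: Pool.Agent.Work.MP_f474fe_lc.PT.Anti
section
/-!
Anti-concentration of regular polynomials on the cube.

Plan. γ = 1 / (4 * 9^d), J = Nat.log 2 d + 6, so 32 d ≤ 2^J.
anti_base: a j = (1/2)^(34 d j + 1), v j = 1 - sm c (a j). v 0 ≥ γ by paley (Z = bv^2, parseval_bv,
bonami_bv), v is monotone. step_large with t = 64, κ = (1/2)^(13 d), a = a j / 576^(2 d):
κ a / 3 ≥ a (j+1), 7 κ ≤ γ / 32, 3 Err ≤ γ / 32 (κ a ≥ (1/2)^(35 d J) for j < J), hence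
v (j+1)^2 ≥ (7/8) v j; w j = (8/7) v j has w (j+1)^2 ≥ w j, w J ^ (2^J) ≥ w 0 ≥ (1/32)^d;
if w J < 6/7 then w J ^ (2^J) ≤ (6/7)^(32 d) < (1/32)^d. So v J ≥ 3/4.
anti: strong induction on k (reg hypothesis is monotone). k = 0 trivial, k = 1, 2 from anti_base.
k ≥ 3: k' = (k + 2) / 2, step_small with t = 2^(k+4), κ = (1/2)^(k+5),
a = (1/2)^(NN d k') / (9 t)^(2 d): κ a / 3 ≥ (1/2)^(NN d k' + 11 d k) ≥ (1/2)^(NN d k) as
4 (k - k') ≥ k; errors 2/t, 3 κ ≤ (1/2)^(k+3), Err ≤ (1/2)^(k+2), and 2 k' ≥ k + 1.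
-/

set_option linter.unusedSectionVars false

namespace Pool.Agent.Work.MP_f474fe_lc.PT

open Finset BigOperators

variable {ι : Type} [Fintype ι] [DecidableEq ι]


theorem anti_pos (n : ℕ) : (0 : ℝ) < (1 / 2) ^ n := by positivity

theorem anti_le {m n : ℕ} (h : m ≤ n) : (1 / 2 : ℝ) ^ n ≤ (1 / 2) ^ m :=
  pow_le_pow_of_le_one (by norm_num) (by norm_num) h

theorem anti_one (n : ℕ) : (1 / 2 : ℝ) ^ n ≤ 1 := pow_le_one₀ (by norm_num) (by norm_num)

theorem anti_cancel (m n : ℕ) : (2 : ℝ) ^ m * (1 / 2) ^ (n + m) = (1 / 2) ^ n := by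
  rw [pow_add, mul_left_comm, ← mul_pow]
  norm_num

theorem anti_nine (d : ℕ) : (9 : ℝ) ^ d ≤ 2 ^ (4 * d) := by
  rw [pow_mul]
  exact pow_le_pow_left₀ (by norm_num) (by norm_num) _

theorem anti_third (r f : ℕ) : (1 / 2 : ℝ) ^ (r + f + 2) ≤ (1 / 2) ^ r * (1 / 2) ^ f / 3 := by
  have := anti_pos (r + f)
  rw [← pow_add, pow_add _ (r + f)]
  linarith only [this]

theorem anti_err {c : Finset ι → ℝ} {d R r f s : ℕ} (hr : reg c ≤ (1 / 2) ^ R)
    (h : s + 8 * (r + f) + (18 + 4 * d) ≤ R) :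
    Err c d ((1 / 2) ^ r) ((1 / 2) ^ f) ≤ (1 / 2) ^ s := by
  rw [Err, ← pow_add, ← pow_mul, div_le_iff₀ (anti_pos _), ← pow_add, mul_comm (r + f),
    ← anti_cancel (18 + 4 * d)]
  refine mul_le_mul ?_ (hr.trans (anti_le h)) (reg_nonneg c) (by positivity)
  rw [pow_add]
  exact mul_le_mul (by norm_num) (anti_nine d) (by positivity) (by positivity)

theorem anti_zero {c : Finset ι → ℝ} {d : ℕ} (hc : Deg c d) (hn : nrm c = 1) :
    (1 / 2 : ℝ) ^ (4 * d + 2) ≤ 1 - sm c ((1 / 2) ^ 1) := by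
  have h1 := paley (Z := fun x => bv c x ^ 2) (K := 9 ^ d) (by positivity)
    ((parseval_bv c).trans hn) (by
      have := bonami_bv hc
      rw [hn, one_pow, mul_one] at this
      simpa only [← pow_mul] using this)
  have h2 : (1 / 2 : ℝ) ^ (4 * d + 2) ≤ 1 / (4 * 9 ^ d) := by
    rw [le_div_iff₀ (by positivity)]
    have a1 := anti_cancel (4 * d + 2) 0
    have a2 := mul_le_mul_of_nonneg_left (anti_nine d) (anti_pos (4 * d + 2)).le
    rw [zero_add, pow_zero, pow_add (2 : ℝ)] at a1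
    linarith only [a1, a2]
  rw [sm, ← pr_not]
  refine h2.trans (h1.trans (pr_mono fun x hx hx' => ?_))
  have := sq_le_sq' (abs_le.1 hx').1 (abs_le.1 hx').2
  linarith only [hx, this]

theorem anti_iter {v : ℕ → ℝ} {J : ℕ} (h0 : ∀ j, 0 ≤ v j)
    (h : ∀ j < J, 7 / 8 * v j ≤ v (j + 1) ^ 2) : 8 / 7 * v 0 ≤ (8 / 7 * v J) ^ 2 ^ J := by
  induction J with
  | zero => simp
  | succ J ih =>
    refine (ih fun j hj => h j (by omega)).trans ?_
    rw [pow_succ' 2 J, pow_mul]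
    refine pow_le_pow_left₀ (by have := h0 J; linarith only [this]) ?_ _
    have := h J (Nat.lt_succ_self J)
    rw [mul_pow]
    linarith only [this]

theorem anti_large {c : Finset ι → ℝ} {d : ℕ} (hc : Deg c d) (hd : 1 ≤ d) (hn : nrm c = 1)
    {R e : ℕ} (hr : reg c ≤ (1 / 2) ^ R)
    (h : 4 * d + 11 + 8 * (4 * d + 9 + (e + 19 * d)) + (18 + 4 * d) ≤ R) :
    15 / 16 * (1 - sm c ((1 / 2) ^ e)) ≤
      (1 - sm c ((1 / 2) ^ (e + 23 * d + 11))) ^ 2 + (1 / 2) ^ (4 * d + 2) / 16 := by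
  have h1 := step_large hc hd hn (t := 64) (by norm_num) (anti_pos (4 * d + 9)) (anti_one _)
    (anti_pos (e + 19 * d)) (anti_one _)
  have h2 := anti_err hr h
  have h3 : (9 * ((64 : ℕ) : ℝ)) ^ (2 * d) * (1 / 2) ^ (e + 19 * d) ≤ (1 / 2) ^ e := by
    rw [← anti_cancel (19 * d) e]
    refine mul_le_mul_of_nonneg_right ?_ (anti_pos _).le
    rw [pow_mul, pow_mul]
    exact pow_le_pow_left₀ (by positivity) (by norm_num) _
  have h4 := sm_mono c h3
  have h5 := sm_mono c (anti_third (4 * d + 9) (e + 19 * d))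
  rw [show 4 * d + 9 + (e + 19 * d) + 2 = e + 23 * d + 11 by ring] at h5
  have h6 : (1 - sm c ((1 / 2) ^ (4 * d + 9) * (1 / 2) ^ (e + 19 * d) / 3)) ^ 2 ≤
      (1 - sm c ((1 / 2) ^ (e + 23 * d + 11))) ^ 2 :=
    pow_le_pow_left₀ (sub_nonneg.2 (pr_le_one _)) (sub_le_sub_left h5 1) 2
  have h7 : (1 / 2 : ℝ) ^ (4 * d + 9) = (1 / 2) ^ (4 * d + 2) / 128 := by ring
  have h8 : (1 / 2 : ℝ) ^ (4 * d + 11) = (1 / 2) ^ (4 * d + 2) / 512 := by ring
  have h9 := anti_pos (4 * d + 2)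
  have h10 : (1 : ℝ) - 4 / ((64 : ℕ) : ℝ) = 15 / 16 := by norm_num
  rw [h10] at h1
  linarith only [h1, h2, h4, h6, h7, h8, h9]

theorem anti_small {c : Finset ι → ℝ} {d : ℕ} (hc : Deg c d) (hd : 1 ≤ d) (hn : nrm c = 1)
    {R e k : ℕ} (hr : reg c ≤ (1 / 2) ^ R)
    (h : k + 2 + 8 * (k + 5 + (e + 2 * d * (k + 8))) + (18 + 4 * d) ≤ R) :
    sm c ((1 / 2) ^ (e + 2 * d * (k + 8) + k + 7)) ≤
      sm c ((1 / 2) ^ e) ^ 2 + (1 / 2) ^ k / 2 := by
  have h1 := step_small hc hd hn (t := 2 ^ (k + 4)) Nat.one_le_two_pow (anti_pos (k + 5))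
    (anti_one _) (anti_pos (e + 2 * d * (k + 8))) (anti_one _)
  have h2 := anti_err hr h
  have h3 : (9 * ((2 ^ (k + 4) : ℕ) : ℝ)) ^ (2 * d) * (1 / 2) ^ (e + 2 * d * (k + 8)) ≤
      (1 / 2) ^ e := by
    rw [← anti_cancel (2 * d * (k + 8)) e]
    refine mul_le_mul_of_nonneg_right ?_ (anti_pos _).le
    rw [mul_comm (2 * d), pow_mul (2 : ℝ) (k + 8)]
    refine pow_le_pow_left₀ (by positivity) ?_ _
    have : (0 : ℝ) < 2 ^ (k + 4) := by positivity
    rw [show k + 8 = k + 4 + 4 from rfl, pow_add (2 : ℝ) (k + 4) 4]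
    push_cast
    linarith only [this]
  have h4 := pow_le_pow_left₀ (pr_nonneg _) (sm_mono c h3) 2
  have h5 := sm_mono c (anti_third (k + 5) (e + 2 * d * (k + 8)))
  rw [show k + 5 + (e + 2 * d * (k + 8)) + 2 = e + 2 * d * (k + 8) + k + 7 by ring] at h5
  have h7 : (1 / 2 : ℝ) ^ (k + 5) = (1 / 2) ^ k / 32 := by ring
  have h8 : (1 / 2 : ℝ) ^ (k + 2) = (1 / 2) ^ k / 4 := by ring
  have h9 := anti_pos k
  have h10 : (2 : ℝ) / ((2 ^ (k + 4) : ℕ) : ℝ) = (1 / 2) ^ k / 8 := by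
    push_cast
    rw [one_div, inv_pow]
    field_simp
    ring
  rw [h10] at h1
  unfold sm at *
  linarith only [h1, h2, h4, h5, h7, h8, h9]

theorem anti_base {c : Finset ι → ℝ} {d : ℕ} (hc : Deg c d) (hd : 1 ≤ d) (hn : nrm c = 1)
    (hr : reg c ≤ (1 / 2) ^ (9 * NN d 0)) : sm c ((1 / 2) ^ NN d 0) ≤ 1 / 4 := by
  obtain ⟨J, hJ⟩ : ∃ J, J = Nat.log 2 d + 6 := ⟨_, rfl⟩
  have hN : NN d 0 = 35 * (d * J) := by rw [NN, hJ]; ring
  have hJ6 : 6 ≤ J := by omega
  have hdJ : J ≤ d * J := Nat.le_mul_of_pos_left _ hd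
  have hdJ' : d * 6 ≤ d * J := Nat.mul_le_mul_left _ hJ6
  have hE : ∀ j ≤ J, 1 + j * (23 * d + 11) ≤ NN d 0 := fun j hj => by
    have h1 : j * (23 * d + 11) ≤ J * (23 * d + 11) := Nat.mul_le_mul_right _ hj
    have h2 : J * (23 * d + 11) = 23 * (d * J) + 11 * J := by ring
    omega
  have h0 : (1 / 2 : ℝ) ^ (4 * d + 2) ≤ 1 - sm c ((1 / 2) ^ 1) := anti_zero hc hn
  have hlow : ∀ j, (1 / 2 : ℝ) ^ (4 * d + 2) ≤ 1 - sm c ((1 / 2) ^ (1 + j * (23 * d + 11))) :=
    fun j => by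
      have := sm_mono c (anti_le (show 1 ≤ 1 + j * (23 * d + 11) by omega))
      linarith only [h0, this]
  have hv := anti_iter (v := fun j => 1 - sm c ((1 / 2) ^ (1 + j * (23 * d + 11)))) (J := J)
    (fun j => (anti_pos _).le.trans (hlow j)) (fun j hj => by
      have h1 := hE (j + 1) hj
      have h2 : 1 + (j + 1) * (23 * d + 11) = 1 + j * (23 * d + 11) + 23 * d + 11 := by ring
      have h3 := anti_large hc hd hn hr (e := 1 + j * (23 * d + 11)) (by omega)
      have h4 := hlow j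
      simp only [h2]
      linarith only [h3, h4])
  by_contra hcon
  have h1 := sm_mono c (anti_le (hE J le_rfl))
  have h2 : 32 * d ≤ 2 ^ J := by
    have := Nat.lt_pow_succ_log_self (b := 2) one_lt_two d
    rw [hJ, pow_add]
    rw [pow_succ] at this
    omega
  have h3 : (8 / 7 * (1 - sm c ((1 / 2) ^ (1 + J * (23 * d + 11))))) ^ 2 ^ J ≤
      (6 / 7 : ℝ) ^ 2 ^ J :=
    pow_le_pow_left₀ (by have := (anti_pos _).le.trans (hlow J); linarith only [this]) (by linarith only [hcon, h1]) _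
  have h4 : (6 / 7 : ℝ) ^ 2 ^ J ≤ (6 / 7) ^ (32 * d) :=
    pow_le_pow_of_le_one (by norm_num) (by norm_num) h2
  have h5 : (6 / 7 : ℝ) ^ (32 * d) ≤ (1 / 2) ^ (7 * d) := by
    rw [pow_mul, pow_mul]
    exact pow_le_pow_left₀ (by positivity) (by norm_num) _
  have h6 : (1 / 2 : ℝ) ^ (7 * d) ≤ (1 / 2) ^ (4 * d + 2) := anti_le (by omega)
  have h7 := hlow 0
  have h8 := anti_pos (4 * d + 2)
  linarith only [hv, h3, h4, h5, h6, h7, h8]

theorem anti {c : Finset ι → ℝ} {d : ℕ} (hc : Deg c d) (hd : 1 ≤ d) (hn : nrm c = 1) (k : ℕ)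
    (hr : reg c ≤ (1 / 2) ^ (9 * NN d k)) : sm c ((1 / 2) ^ NN d k) ≤ (1 / 2) ^ k := by
  induction k using Nat.strong_induction_on with
  | _ k ih =>
  have hm : ∀ j ≤ k, NN d j ≤ NN d k := fun j hj =>
    Nat.add_le_add_left (Nat.mul_le_mul_left _ hj) _
  have hr' : ∀ j ≤ k, reg c ≤ (1 / 2) ^ (9 * NN d j) := fun j hj =>
    hr.trans (anti_le (Nat.mul_le_mul_left _ (hm j hj)))
  by_cases hk : k ≤ 2
  · have h1 := anti_base hc hd hn (hr' 0 (Nat.zero_le k))
    have h2 := sm_mono c (anti_le (hm 0 (Nat.zero_le k)))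
    have h3 := anti_le hk
    norm_num at h3 ⊢
    norm_num at h1 h2
    linarith only [h3, h1, h2]
  obtain ⟨j, hj⟩ : ∃ j, j = (k + 2) / 2 := ⟨_, rfl⟩
  have h1 := ih j (by omega) (hr' j (by omega))
  obtain ⟨u, rfl⟩ : ∃ u, k = j + u := ⟨k - j, by omega⟩
  have a1 : NN d (j + u) = NN d j + 44 * (d * u) := by rw [NN, NN]; ring
  have a2 : d * (j + u) ≤ 4 * (d * u) := by
    rw [← mul_assoc, mul_comm 4 d, mul_assoc]
    exact Nat.mul_le_mul_left _ (by omega)
  have a3 : d * 3 ≤ d * (j + u) := Nat.mul_le_mul_left _ (by omega)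
  have a4 : j + u ≤ d * (j + u) := Nat.le_mul_of_pos_left _ hd
  have a5 : 2 * d * (j + u + 8) = 2 * (d * (j + u)) + 16 * d := by ring
  have h2 := anti_small hc hd hn hr (k := j + u) (e := NN d j) (by omega)
  have h3 := sm_mono c (anti_le (show NN d j + 2 * d * (j + u + 8) + (j + u) + 7 ≤ NN d (j + u) by
    omega))
  have h4 : sm c ((1 / 2) ^ NN d j) ^ 2 ≤ (1 / 2) ^ (j + u + 1) := by
    refine (pow_le_pow_left₀ (pr_nonneg _) h1 2).trans ?_
    rw [← pow_mul]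
    exact anti_le (by omega)
  rw [pow_succ (1 / 2 : ℝ)] at h4
  have h5 := anti_pos (j + u)
  linarith only [h2, h3, h4]


end Pool.Agent.Work.MP_f474fe_lc.PT
end

-- merged part: Pool.Agent.Work.MP_f474fe_lc.PT.Reg
section
/-!
Restrictions; with probability exp(-O(d)) a restriction of the influential variables
is regular.

Plan. ev_res: every A is uniquely B ∪ C with B = A \ J, C = A ∩ J (sum_nbij' on the sigma or product
of (B disjoint from J) and J.powerset, or Finset.sum_product), prod_union, piecewise on B and C.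
For B put slice c J B C = if C ⊆ J ∧ Disjoint B J then c (B ∪ C) else 0. Then
res c J ρ B = bv (slice c J B) ρ, Deg (slice c J B) d, ∑ B, nrm (slice c J B) = nrm c and
∑ B with i ∈ B, nrm (slice c J B) = if i ∈ J then 0 else infl c i.
For a family 𝓑: E (∑ B ∈ 𝓑, res B ^2)^2 ≤ 9^d (∑ B ∈ 𝓑, nrm (slice B))^2 (expand the square,
Cauchy-Schwarz and bonami_bv for every pair).
regular: τ' = τ / (32 * 81^d * d), J = {i | τ' < infl c i}, card J * τ' ≤ d (sum_infl_le).
paley for Z = nrm (res c J ρ): probability of 1/2 < Z is at least 1/(4 * 9^d).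
E reg (res c J ρ) ≤ 9^d τ' d, markov: probability of τ/4 < reg is at most 1/(8 * 9^d).
-/

set_option linter.unusedSectionVars false

namespace Pool.Agent.Work.MP_f474fe_lc.PT

open Finset BigOperators

variable {ι : Type} [Fintype ι] [DecidableEq ι]


lemma reg_split (J : Finset ι) (F : Finset ι → ℝ) :
    ∑ A, F A = ∑ B, if Disjoint B J then ∑ C ∈ J.powerset, F (B ∪ C) else 0 := by
  rw [← Finset.sum_filter, ← Finset.sum_product']
  refine Finset.sum_nbij' (fun A => (A \ J, A ∩ J)) (fun p => p.1 ∪ p.2) ?_ ?_ ?_ ?_ ?_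
  · intro A _
    simp [Finset.sdiff_disjoint]
  · intro p _
    simp
  · intro A _
    exact sdiff_union_inter A J
  · rintro ⟨B, C⟩ hp
    simp only [mem_product, mem_filter, mem_univ, true_and, mem_powerset] at hp
    obtain ⟨h1, h2⟩ := hp
    refine Prod.ext ?_ ?_
    · ext i
      simp only [mem_sdiff, mem_union]
      exact ⟨fun h => h.1.resolve_right fun hc => h.2 (h2 hc),
        fun h => ⟨Or.inl h, Finset.disjoint_left.1 h1 h⟩⟩
    · ext i
      simp only [mem_inter, mem_union]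
      exact ⟨fun h => h.1.resolve_left fun hb => Finset.disjoint_left.1 h1 hb h.2,
        fun h => ⟨Or.inr h, h2 h⟩⟩
  · intro A _
    rw [sdiff_union_inter]

lemma ev_res (c : Finset ι → ℝ) (J : Finset ι) (ρ : ι → Bool) (z : ι → ℝ) :
    ev (res c J ρ) z = ev c (J.piecewise (fun i => sg (ρ i)) z) := by
  unfold ev
  rw [reg_split J (fun A => c A * ∏ i ∈ A, J.piecewise (fun i => sg (ρ i)) z i)]
  refine sum_congr rfl fun B _ => ?_
  unfold res
  split_ifs with h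
  · rw [sum_mul]
    refine sum_congr rfl fun C hC => ?_
    rw [mem_powerset] at hC
    rw [prod_union (h.mono_right hC)]
    have h1 : ∏ i ∈ B, J.piecewise (fun i => sg (ρ i)) z i = ∏ i ∈ B, z i :=
      prod_congr rfl fun i hi => piecewise_eq_of_notMem _ _ _ (Finset.disjoint_left.1 h hi)
    have h2 : ∏ i ∈ C, J.piecewise (fun i => sg (ρ i)) z i = ∏ i ∈ C, sg (ρ i) :=
      prod_congr rfl fun i hi => piecewise_eq_of_mem _ _ _ (hC hi)
    rw [h1, h2]
    ring
  · simp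

lemma deg_res {c : Finset ι → ℝ} {d : ℕ} (hc : Deg c d) (J : Finset ι) (ρ : ι → Bool) :
    Deg (res c J ρ) d := by
  intro B hB
  unfold res at hB
  split_ifs at hB with h
  · obtain ⟨C, -, hC⟩ := Finset.exists_ne_zero_of_sum_ne_zero hB
    exact (card_le_card subset_union_left).trans (hc _ (left_ne_zero_of_mul hC))
  · exact absurd rfl hB

/-- The coefficient of `B` after restriction, as a polynomial in the variables of `J`. -/
def regSlice (c : Finset ι → ℝ) (J B : Finset ι) : Finset ι → ℝ :=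
  fun C => if C ⊆ J ∧ Disjoint B J then c (B ∪ C) else 0

lemma reg_res_eq (c : Finset ι → ℝ) (J : Finset ι) (ρ : ι → Bool) (B : Finset ι) :
    res c J ρ B = bv (regSlice c J B) ρ := by
  unfold res bv ev regSlice
  split_ifs with h
  · simp only [h, and_true, ite_mul, zero_mul]
    rw [← Finset.sum_filter]
    refine sum_congr ?_ fun _ _ => rfl
    ext C
    simp
  · simp [h]

lemma reg_deg_slice {c : Finset ι → ℝ} {d : ℕ} (hc : Deg c d) (J B : Finset ι) :
    Deg (regSlice c J B) d := by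
  intro C hC
  unfold regSlice at hC
  split_ifs at hC with h
  · exact (card_le_card subset_union_right).trans (hc _ hC)
  · exact absurd rfl hC

lemma reg_nrm_slice (c : Finset ι → ℝ) (J B : Finset ι) :
    nrm (regSlice c J B) = if Disjoint B J then ∑ C ∈ J.powerset, c (B ∪ C) ^ 2 else 0 := by
  unfold nrm regSlice
  split_ifs with h
  · simp only [h, and_true, ite_pow, ne_eq, OfNat.ofNat_ne_zero, not_false_eq_true, zero_pow]
    rw [← Finset.sum_filter]
    refine sum_congr ?_ fun _ _ => rfl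
    ext C
    simp
  · simp [h]

lemma reg_sum_slice (c : Finset ι → ℝ) (J : Finset ι) :
    ∑ B, nrm (regSlice c J B) = nrm c := by
  simp only [reg_nrm_slice]
  exact (reg_split J fun A => c A ^ 2).symm

lemma reg_sum_slice_mem (c : Finset ι → ℝ) (J : Finset ι) (i : ι) :
    ∑ B with i ∈ B, nrm (regSlice c J B) = if i ∈ J then 0 else infl c i := by
  simp only [reg_nrm_slice]
  split_ifs with hi
  · refine sum_eq_zero fun B hB => if_neg fun h => ?_
    exact Finset.disjoint_left.1 h (mem_filter.1 hB).2 hi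
  · unfold infl
    rw [sum_filter, sum_filter, reg_split J fun A => if i ∈ A then c A ^ 2 else 0]
    refine sum_congr rfl fun B _ => ?_
    by_cases h : Disjoint B J
    · simp only [h, if_true]
      by_cases hB : i ∈ B
      · simp [hB]
      · rw [if_neg hB]
        refine (sum_eq_zero fun C hC => if_neg fun h' => ?_).symm
        exact (mem_union.1 h').elim hB fun hc => hi (mem_powerset.1 hC hc)
    · simp [h]

lemma reg_pair {a b : Finset ι → ℝ} {d : ℕ} (ha : Deg a d) (hb : Deg b d) :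
    𝔼 ρ, bv a ρ ^ 2 * bv b ρ ^ 2 ≤ 9 ^ d * (nrm a * nrm b) := by
  have h1 := Finset.expect_mul_sq_le_sq_mul_sq (univ : Finset (ι → Bool))
    (fun ρ => bv a ρ ^ 2) (fun ρ => bv b ρ ^ 2)
  simp only [← pow_mul] at h1
  have h2 := bonami_bv ha
  have h3 := bonami_bv hb
  have h4 : (0 : ℝ) ≤ 𝔼 ρ, bv b ρ ^ 4 := expect_nonneg fun _ _ => by positivity
  have h5 : (𝔼 ρ, bv a ρ ^ 2 * bv b ρ ^ 2) ^ 2 ≤ (9 ^ d * (nrm a * nrm b)) ^ 2 :=
    calc _ ≤ (𝔼 ρ, bv a ρ ^ 4) * 𝔼 ρ, bv b ρ ^ 4 := h1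
      _ ≤ (9 ^ d * nrm a ^ 2) * (9 ^ d * nrm b ^ 2) :=
          mul_le_mul h2 h3 h4 (by positivity)
      _ = _ := by ring
  have h6 : (0 : ℝ) ≤ 9 ^ d * (nrm a * nrm b) :=
    mul_nonneg (by positivity) (mul_nonneg (nrm_nonneg a) (nrm_nonneg b))
  exact (le_abs_self _).trans (abs_le_of_sq_le_sq' h5 h6 |> fun h => abs_le.2 h)

lemma reg_family {c : Finset ι → ℝ} {d : ℕ} (hc : Deg c d) (J : Finset ι)
    (T : Finset (Finset ι)) :
    𝔼 ρ, (∑ B ∈ T, res c J ρ B ^ 2) ^ 2 ≤ 9 ^ d * (∑ B ∈ T, nrm (regSlice c J B)) ^ 2 := by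
  simp only [reg_res_eq]
  simp only [sq (∑ B ∈ T, _), sum_mul_sum]
  rw [expect_sum_comm, mul_sum]
  refine sum_le_sum fun B _ => ?_
  rw [expect_sum_comm, mul_sum]
  exact sum_le_sum fun B' _ => reg_pair (reg_deg_slice hc J B) (reg_deg_slice hc J B')

lemma reg_mean (c : Finset ι → ℝ) (J : Finset ι) : 𝔼 ρ, nrm (res c J ρ) = nrm c := by
  rw [← reg_sum_slice c J]
  unfold nrm
  rw [expect_sum_comm]
  refine sum_congr rfl fun B _ => ?_
  simp only [reg_res_eq]
  exact parseval_bv _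

theorem regular {c : Finset ι → ℝ} {d : ℕ} (hc : Deg c d) (hd : 1 ≤ d) (hn : nrm c = 1)
    {τ : ℝ} (hτ : 0 < τ) :
    ∃ J : Finset ι, (J.card : ℝ) ≤ 32 * 81 ^ d * d ^ 2 / τ ∧
      1 / (8 * 9 ^ d) ≤
        pr fun ρ => 0 < nrm (res c J ρ) ∧ reg (res c J ρ) ≤ τ * nrm (res c J ρ) ^ 2 := by
  classical
  have hd' : (0 : ℝ) < d := by exact_mod_cast hd
  obtain ⟨t, ht⟩ : ∃ t : ℝ, t = τ / (32 * 81 ^ d * d) := ⟨_, rfl⟩
  have ht0 : 0 < t := by rw [ht]; positivity
  have hs := sum_infl_le hc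
  rw [hn, mul_one] at hs
  obtain ⟨J, hJ⟩ : ∃ J : Finset ι, J = univ.filter fun i => t < infl c i := ⟨_, rfl⟩
  refine ⟨J, ?_, ?_⟩
  · have h1 : (J.card : ℝ) * t ≤ d :=
      calc (J.card : ℝ) * t = ∑ _i ∈ J, t := by simp
        _ ≤ ∑ i ∈ J, infl c i := sum_le_sum fun i hi => by
            rw [hJ] at hi
            exact (mem_filter.1 hi).2.le
        _ ≤ ∑ i, infl c i :=
            sum_le_sum_of_subset_of_nonneg (subset_univ _) fun i _ _ => infl_nonneg c i
        _ ≤ d := hs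
    rw [← le_div_iff₀ ht0, ht] at h1
    refine h1.trans (le_of_eq ?_)
    field_simp
  · have h9 : (0 : ℝ) < 9 ^ d := by positivity
    have h1 : 1 / (4 * 9 ^ d) ≤ pr fun ρ => 1 / 2 < nrm (res c J ρ) := by
      refine paley h9 (by rw [reg_mean, hn]) ?_
      have := reg_family hc J univ
      rw [reg_sum_slice, hn, one_pow, mul_one] at this
      exact this
    have h2 : 𝔼 ρ, reg (res c J ρ) ≤ 9 ^ d * (t * d) := by
      unfold reg
      rw [expect_sum_comm]
      calc ∑ i, 𝔼 ρ, infl (res c J ρ) i ^ 2 ≤ ∑ i, 9 ^ d * (t * infl c i) := by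
            refine sum_le_sum fun i _ => ?_
            have := reg_family hc J (univ.filter fun B => i ∈ B)
            rw [reg_sum_slice_mem] at this
            refine this.trans (mul_le_mul_of_nonneg_left ?_ h9.le)
            have h0 := infl_nonneg c i
            split_ifs with hi
            · have := mul_nonneg ht0.le h0
              simpa using this
            · have hi' : infl c i ≤ t := by
                by_contra hlt
                exact hi (hJ ▸ mem_filter.2 ⟨mem_univ i, not_le.1 hlt⟩)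
              linarith only [h0, hi', mul_nonneg_of_nonpos_of_nonpos (Mathlib.Tactic.Linarith.sub_nonpos_of_le h0) (Mathlib.Tactic.Linarith.sub_nonpos_of_le hi')]
        _ = 9 ^ d * (t * ∑ i, infl c i) := by rw [← mul_sum, ← mul_sum]
        _ ≤ 9 ^ d * (t * d) := by gcongr
    have h3 : pr (fun ρ => τ / 4 < reg (res c J ρ)) ≤ 1 / (8 * 9 ^ d) := by
      refine (markov (fun ρ => reg_nonneg _) (by positivity)).trans ?_
      refine (div_le_div_of_nonneg_right h2 (by positivity)).trans (le_of_eq ?_)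
      have h81 : (81 : ℝ) ^ d = 9 ^ d * 9 ^ d := by rw [← mul_pow]; norm_num
      rw [ht, h81]
      field_simp
      norm_num
    have h4 := pr_le_add (P := fun ρ => 1 / 2 < nrm (res c J ρ))
      (Q := fun ρ => 0 < nrm (res c J ρ) ∧ reg (res c J ρ) ≤ τ * nrm (res c J ρ) ^ 2)
      (R := fun ρ => τ / 4 < reg (res c J ρ)) fun ρ h => by
        by_cases h' : τ / 4 < reg (res c J ρ)
        · exact Or.inr h'
        · refine Or.inl ⟨by linarith only [h], (not_lt.1 h').trans ?_⟩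
          have : 1 / 4 ≤ nrm (res c J ρ) ^ 2 := by linarith only [h, mul_pos_of_neg_of_neg (Mathlib.Tactic.Linarith.sub_neg_of_lt h) (Mathlib.Tactic.Linarith.sub_neg_of_lt h)]
          linarith only [hτ, this, mul_nonneg_of_nonpos_of_nonpos (le_of_lt (Mathlib.Tactic.Linarith.sub_neg_of_lt hτ)) (Mathlib.Tactic.Linarith.sub_nonpos_of_le this)]
    have h5 : (1 : ℝ) / (4 * 9 ^ d) = 1 / (8 * 9 ^ d) + 1 / (8 * 9 ^ d) := by
      field_simp
      norm_num
    linarith only [h1, h3, h4, h5]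


end Pool.Agent.Work.MP_f474fe_lc.PT
end

-- merged part: Pool.Agent.Work.MP_f474fe_lc.PT.L2
section
/-!
Planting a random set of coordinates moves a low-degree polynomial little in the mean square.

Plan. schur: g θ = ∑ C ∈ (H θ).powerset, a C. E g^2 = ∑ C, a C * E_θ (g θ * 1[C ⊆ H θ]), sum over the
family 𝒞 of nonempty C of card ≤ d; Cauchy-Schwarz (sum_mul_sq_le_sq_mul_sq);
∑ C ∈ 𝒞, (E_θ g θ 1[C ⊆ H θ])^2 = E_θ E_θ' g θ g θ' ovl d (H θ ∩ H θ') ≤ μ E g^2 by
g g' ≤ (g^2 + g'^2)/2 and symmetry (inter_comm, expect_comm). So (E g^2)^2 ≤ nrm a * μ * E g^2.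
l2: bv c (plantH H x) = bv (res c H fun _ => true) x (ev_res), so by parseval_bv for the difference of
coefficient functions E_x (..)^2 = ∑ B, (res c H true B - c B)^2. For B disjoint from H the term is
(∑ C ∈ H.powerset, a B C)^2 with a B C = if C.Nonempty ∧ Disjoint B C then c (B ∪ C) else 0; otherwise
it is c B ^ 2. ∑ B, nrm (a B) ≤ 2^d nrm c (each A arises from at most 2^|A| pairs, C ⊆ A, B = A \ C);
pr (B meets H θ) ≤ |B| p ≤ d p (pr_exists_le).
-/

set_option linter.unusedSectionVars false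

namespace Pool.Agent.Work.MP_f474fe_lc.PT

open Finset BigOperators

variable {ι : Type} [Fintype ι] [DecidableEq ι]


/-- Indicator of an inclusion. -/
def l2ind (C Z : Finset ι) : ℝ := if C ⊆ Z then 1 else 0

lemma l2_ovl (d : ℕ) (Z Z' : Finset ι) :
    ∑ C with C.Nonempty ∧ C.card ≤ d, l2ind C Z * l2ind C Z' = (ovl d (Z ∩ Z') : ℝ) := by
  have h : (Z ∩ Z').powerset.filter (fun C => C.Nonempty ∧ C.card ≤ d) =
      (univ.filter fun C : Finset ι => C.Nonempty ∧ C.card ≤ d).filter (· ⊆ Z ∩ Z') := by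
    ext C
    simp only [mem_filter, mem_powerset, mem_univ, true_and, and_comm]
  rw [ovl, h, card_filter]
  push_cast
  refine sum_congr rfl fun C _ => ?_
  by_cases h1 : C ⊆ Z <;> by_cases h2 : C ⊆ Z' <;> simp [l2ind, subset_inter_iff, h1, h2]

lemma l2_sum {d : ℕ} {a : Finset ι → ℝ} (ha : Deg a d) (ha0 : a ∅ = 0) (Z : Finset ι) :
    ∑ C ∈ Z.powerset, a C = ∑ C with C.Nonempty ∧ C.card ≤ d, a C * l2ind C Z := by
  have h : Z.powerset = univ.filter (· ⊆ Z) := by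
    ext C
    simp
  rw [h, sum_filter, sum_filter]
  refine sum_congr rfl fun C _ => ?_
  by_cases h0 : a C = 0
  · simp [h0]
  · have h1 : C.Nonempty := nonempty_iff_ne_empty.2 fun e => h0 (e ▸ ha0)
    simp [l2ind, h1, ha C h0]

lemma l2_mu {Θ : Type} [Fintype Θ] [Nonempty Θ] (H : Θ → Finset ι) {d : ℕ} {μ : ℝ}
    (h2 : ∀ θ, 𝔼 θ', (ovl d (H θ ∩ H θ') : ℝ) ≤ μ) : 0 ≤ μ :=
  (expect_nonneg fun _ _ => Nat.cast_nonneg _).trans (h2 (Classical.arbitrary Θ))

lemma l2_form {Θ : Type} [Fintype Θ] {K : Θ → Θ → ℝ} {μ : ℝ} (h0 : ∀ θ θ', 0 ≤ K θ θ')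
    (hs : ∀ θ θ', K θ θ' = K θ' θ) (h2 : ∀ θ, 𝔼 θ', K θ θ' ≤ μ) (g : Θ → ℝ) :
    𝔼 θ, 𝔼 θ', g θ * g θ' * K θ θ' ≤ μ * 𝔼 θ, g θ ^ 2 := by
  have h1 : 𝔼 θ, 𝔼 θ', g θ ^ 2 * K θ θ' ≤ μ * 𝔼 θ, g θ ^ 2 := by
    rw [mul_expect]
    refine expect_le_expect fun θ _ => ?_
    rw [← mul_expect, mul_comm μ]
    exact mul_le_mul_of_nonneg_left (h2 θ) (sq_nonneg _)
  have h3 : 𝔼 θ, 𝔼 θ', g θ' ^ 2 * K θ θ' = 𝔼 θ, 𝔼 θ', g θ ^ 2 * K θ θ' := by
    rw [expect_comm]
    exact expect_congr rfl fun θ _ => expect_congr rfl fun θ' _ => by rw [hs]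
  have h4 : 𝔼 θ, 𝔼 θ', (g θ * g θ' * K θ θ' + g θ * g θ' * K θ θ') ≤
      𝔼 θ, 𝔼 θ', (g θ ^ 2 * K θ θ' + g θ' ^ 2 * K θ θ') :=
    expect_le_expect fun θ _ => expect_le_expect fun θ' _ => by
      linarith only [h0, mul_nonneg (sq_nonneg (g θ - g θ')) (h0 θ θ'), sq_nonneg (g θ - g θ')]
  simp only [expect_add_distrib] at h4
  linarith

theorem schur {Θ : Type} [Fintype Θ] [Nonempty Θ] (H : Θ → Finset ι) {d : ℕ} {μ : ℝ}
    (h2 : ∀ θ, 𝔼 θ', (ovl d (H θ ∩ H θ') : ℝ) ≤ μ) {a : Finset ι → ℝ} (ha : Deg a d)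
    (ha0 : a ∅ = 0) : 𝔼 θ, (∑ C ∈ (H θ).powerset, a C) ^ 2 ≤ μ * nrm a := by
  have hμ := l2_mu H h2
  set g : Θ → ℝ := fun θ => ∑ C ∈ (H θ).powerset, a C with hg
  change 𝔼 θ, g θ ^ 2 ≤ _
  have h1 : 𝔼 θ, g θ ^ 2 =
      ∑ C with C.Nonempty ∧ C.card ≤ d, a C * 𝔼 θ, g θ * l2ind C (H θ) := by
    simp only [mul_expect]
    rw [← expect_sum_comm]
    refine expect_congr rfl fun θ _ => ?_
    have e : g θ = _ := l2_sum ha ha0 (H θ)
    rw [sq]
    nth_rewrite 2 [e]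
    rw [mul_sum]
    exact sum_congr rfl fun C _ => by ring
  have h3 : ∑ C with C.Nonempty ∧ C.card ≤ d, (𝔼 θ, g θ * l2ind C (H θ)) ^ 2 =
      𝔼 θ, 𝔼 θ', g θ * g θ' * (ovl d (H θ ∩ H θ') : ℝ) := by
    simp only [sq, expect_mul_expect, ← l2_ovl, mul_sum]
    rw [← expect_sum_comm]
    refine expect_congr rfl fun θ _ => ?_
    rw [← expect_sum_comm]
    exact expect_congr rfl fun θ' _ => sum_congr rfl fun C _ => by ring
  have h4 := l2_form (K := fun θ θ' => (ovl d (H θ ∩ H θ') : ℝ)) (fun _ _ => Nat.cast_nonneg _)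
    (fun _ _ => by rw [inter_comm]) h2 g
  have h5 := sum_mul_sq_le_sq_mul_sq (univ.filter fun C : Finset ι => C.Nonempty ∧ C.card ≤ d) a
    fun C => 𝔼 θ, g θ * l2ind C (H θ)
  have h6 : ∑ C with C.Nonempty ∧ C.card ≤ d, a C ^ 2 ≤ nrm a :=
    sum_le_sum_of_subset_of_nonneg (filter_subset _ _) fun _ _ _ => sq_nonneg _
  have h7 : 0 ≤ 𝔼 θ, g θ ^ 2 := expect_nonneg fun _ _ => sq_nonneg _
  rw [← h1] at h5
  have h8 := h5.trans (mul_le_mul h6 (h3.le.trans h4) (sum_nonneg fun _ _ => sq_nonneg _)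
    (nrm_nonneg a))
  by_contra h9
  have h10 := mul_nonneg hμ (nrm_nonneg a)
  linarith only [h8, h9, h10, mul_pos_of_neg_of_neg (Mathlib.Tactic.Linarith.sub_neg_of_lt (lt_of_not_ge h9)) (Mathlib.Tactic.Linarith.sub_neg_of_lt (lt_of_not_ge h9)), mul_nonneg_of_nonpos_of_nonpos (le_of_lt (Mathlib.Tactic.Linarith.sub_neg_of_lt (lt_of_not_ge h9))) (Mathlib.Tactic.Linarith.sub_nonpos_of_le h10)]

/-- The coefficients of the monomials that collapse to `B`. -/
def l2a (c : Finset ι → ℝ) (B : Finset ι) : Finset ι → ℝ :=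
  fun C => if C.Nonempty ∧ Disjoint B C then c (B ∪ C) else 0

lemma l2a_deg {c : Finset ι → ℝ} {d : ℕ} (hc : Deg c d) (B : Finset ι) : Deg (l2a c B) d := by
  intro C h
  unfold l2a at h
  split_ifs at h
  · exact (card_le_card subset_union_right).trans (hc _ h)
  · exact absurd rfl h

lemma l2a_nrm {c : Finset ι → ℝ} {d : ℕ} (hc : Deg c d) :
    ∑ B, nrm (l2a c B) ≤ 2 ^ d * nrm c := by
  have h1 : ∀ C : Finset ι, ∑ B, l2a c B C ^ 2 ≤ ∑ A, if C ⊆ A then c A ^ 2 else 0 := by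
    intro C
    have e : ∑ B with Disjoint B C, c (B ∪ C) ^ 2 = ∑ A with C ⊆ A, c A ^ 2 := by
      refine sum_nbij' (· ∪ C) (· \ C) (fun B _ => by simp) (fun A _ => by simp [sdiff_disjoint])
        (fun B hB => union_sdiff_cancel_right (by simpa using hB))
        (fun A hA => sdiff_union_of_subset (by simpa using hA)) fun _ _ => rfl
    rw [← sum_filter, ← e, sum_filter]
    refine sum_le_sum fun B _ => ?_
    unfold l2a
    by_cases h : Disjoint B C <;> by_cases h' : C.Nonempty <;> simp [h, h', sq_nonneg]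
  unfold nrm
  rw [sum_comm, mul_sum]
  refine (sum_le_sum fun C _ => h1 C).trans ?_
  rw [sum_comm]
  refine sum_le_sum fun A _ => ?_
  have h : (univ.filter fun C : Finset ι => C ⊆ A) = A.powerset := by
    ext C
    simp
  rw [← sum_filter, h, sum_const, card_powerset, nsmul_eq_mul]
  by_cases h0 : c A = 0
  · simp [h0]
  · push_cast
    exact mul_le_mul_of_nonneg_right (pow_le_pow_right₀ one_le_two (hc A h0)) (sq_nonneg _)

lemma l2_fix (c : Finset ι → ℝ) (J : Finset ι) :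
    𝔼 x, (bv c (plantH J x) - bv c x) ^ 2 ≤ ∑ B, ((∑ C ∈ J.powerset, l2a c B C) ^ 2 +
      c B ^ 2 * if ∃ i ∈ B, i ∈ J then 1 else 0) := by
  have h1 : ∀ x, bv c (plantH J x) - bv c x =
      bv (fun B => res c J (fun _ => true) B - c B) x := by
    intro x
    have e : bv c (plantH J x) = bv (res c J fun _ => true) x := by
      unfold bv
      rw [ev_res]
      congr 1
      funext i
      by_cases h : i ∈ J <;> simp [plantH, h]
    rw [e]
    simp only [bv, ev, sub_mul, sum_sub_distrib]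
  simp only [h1]
  rw [parseval_bv]
  refine sum_le_sum fun B _ => ?_
  beta_reduce
  by_cases h : Disjoint B J
  · have e : res c J (fun _ => true) B - c B = ∑ C ∈ J.powerset, l2a c B C := by
      rw [res, if_pos h, sub_eq_iff_eq_add', ← add_sum_erase _ _ (empty_mem_powerset J),
        ← add_sum_erase _ (l2a c B) (empty_mem_powerset J)]
      simp only [sg_true, prod_const_one, mul_one, union_empty, l2a, Finset.not_nonempty_empty,
        false_and, if_false, zero_add]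
      congr 1
      refine sum_congr rfl fun C hC => ?_
      rw [mem_erase, mem_powerset] at hC
      rw [if_pos ⟨nonempty_iff_ne_empty.2 hC.1, h.mono_right hC.2⟩]
    rw [e]
    exact le_add_of_nonneg_right (by positivity)
  · rw [res, if_neg h, if_pos (not_disjoint_iff.1 h), zero_sub, neg_sq, mul_one]
    exact le_add_of_nonneg_left (sq_nonneg _)

theorem l2 {Θ : Type} [Fintype Θ] [Nonempty Θ] (H : Θ → Finset ι) {d : ℕ} {p μ : ℝ}
    (h1 : ∀ i, pr (fun θ => i ∈ H θ) ≤ p) (hp : 0 ≤ p)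
    (h2 : ∀ θ, 𝔼 θ', (ovl d (H θ ∩ H θ') : ℝ) ≤ μ) {c : Finset ι → ℝ} (hc : Deg c d) :
    𝔼 θ, 𝔼 x, (bv c (plantH (H θ) x) - bv c x) ^ 2 ≤ (2 ^ d * μ + d * p) * nrm c := by
  refine (expect_le_expect fun θ _ => l2_fix c (H θ)).trans ?_
  rw [expect_sum_comm]
  have h3 : ∀ B : Finset ι, c B ^ 2 * pr (fun θ => ∃ i ∈ B, i ∈ H θ) ≤ d * p * c B ^ 2 := by
    intro B
    by_cases h0 : c B = 0
    · simp [h0]
    rw [mul_comm]
    refine mul_le_mul_of_nonneg_right ((pr_exists_le B fun i θ => i ∈ H θ).trans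
      ((sum_le_card_nsmul _ _ _ fun i _ => h1 i).trans ?_)) (sq_nonneg _)
    rw [nsmul_eq_mul]
    exact mul_le_mul_of_nonneg_right (Nat.cast_le.2 (hc B h0)) hp
  have h4 := mul_le_mul_of_nonneg_left (l2a_nrm hc) (l2_mu H h2)
  refine (sum_le_sum (g := fun B => μ * nrm (l2a c B) + d * p * c B ^ 2) fun B _ => ?_).trans ?_
  · rw [expect_add_distrib, ← mul_expect]
    refine add_le_add (schur H h2 (l2a_deg hc B) (by simp [l2a])) (le_of_eq_of_le ?_ (h3 B))
    unfold pr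
    congr
    funext θ
    congr
  · rw [sum_add_distrib, ← mul_sum, ← mul_sum]
    change _ + _ * nrm c ≤ _
    linarith


end Pool.Agent.Work.MP_f474fe_lc.PT
end

-- merged part: Pool.Agent.Work.MP_f474fe_lc.PT.Sup
section
/-!
The sign of a low-degree polynomial rarely changes under planting.

Plan. flip_reg: scale c by 1 / sqrt (nrm c) (signs, Deg unchanged, reg scales by nrm^2); a sign change
forces |bv c x| ≤ a or a^2 < (difference)^2 for a = (1/2)^(NN d k); anti, markov, l2, pr_prod.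
flip_res: x ↦ J.piecewise ρ x pushes the uniform measure on pairs (ρ, x) to the uniform measure
(involution (ρ, x) ↦ (piecewise ρ x, piecewise x ρ)); if H θ is disjoint from J then
bv c (plantH (H θ) (piecewise ρ x)) = bv (res c J ρ) (plantH (H θ) x); pr (H θ meets J) ≤ |J| p.
flip_le: β = sSup of flip H c over Deg c d; for every c: flip H c ≤ |J| p + γ ε + (1 - γ) β with
γ = 1/(8 * 9^d), τ = (1/2)^(9 NN), if ε ≤ β (otherwise nothing to prove); nrm c = 0 gives flip = 0.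
-/

set_option linter.unusedSectionVars false

namespace Pool.Agent.Work.MP_f474fe_lc.PT

open Finset BigOperators

variable {ι : Type} [Fintype ι] [DecidableEq ι]


lemma Sup_bv (t : ℝ) (c : Finset ι → ℝ) (x : ι → Bool) :
    bv (fun A => t * c A) x = t * bv c x := by
  unfold bv ev
  rw [mul_sum]
  exact sum_congr rfl fun A _ => by ring

lemma Sup_nrm (t : ℝ) (c : Finset ι → ℝ) : nrm (fun A => t * c A) = t ^ 2 * nrm c := by
  unfold nrm
  rw [mul_sum]
  exact sum_congr rfl fun A _ => by ring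

lemma Sup_reg (t : ℝ) (c : Finset ι → ℝ) : reg (fun A => t * c A) = (t ^ 2) ^ 2 * reg c := by
  unfold reg
  rw [mul_sum]
  refine sum_congr rfl fun i _ => ?_
  rw [← mul_pow]
  congr 1
  unfold infl
  rw [mul_sum]
  exact sum_congr rfl fun A _ => by ring

lemma Sup_flip {Θ : Type} [Fintype Θ] (H : Θ → Finset ι) {t : ℝ} (ht : 0 < t)
    (c : Finset ι → ℝ) : flip H (fun A => t * c A) = flip H c := by
  unfold flip
  refine pr_congr fun z => ?_
  rw [Sup_bv, Sup_bv, mul_nonneg_iff_of_pos_left ht, mul_nonneg_iff_of_pos_left ht]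

/-- Normalisation. -/
lemma Sup_norm {Θ : Type} [Fintype Θ] (H : Θ → Finset ι) {d : ℕ} {c : Finset ι → ℝ}
    (hc : Deg c d) (hn : 0 < nrm c) :
    ∃ c' : Finset ι → ℝ, Deg c' d ∧ nrm c' = 1 ∧ reg c' * nrm c ^ 2 = reg c ∧
      flip H c' = flip H c := by
  have hs : 0 < Real.sqrt (nrm c) := Real.sqrt_pos.2 hn
  have ht : (Real.sqrt (nrm c))⁻¹ ^ 2 = (nrm c)⁻¹ := by rw [inv_pow, Real.sq_sqrt hn.le]
  refine ⟨fun A => (Real.sqrt (nrm c))⁻¹ * c A, fun A hA => hc A (right_ne_zero_of_mul hA), ?_, ?_,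
    Sup_flip H (inv_pos.2 hs) c⟩
  · rw [Sup_nrm, ht, inv_mul_cancel₀ hn.ne']
  · rw [Sup_reg, ht]
    field_simp

lemma Sup_piece (J : Finset ι) (F : (ι → Bool) → ℝ) :
    𝔼 x, F x = 𝔼 ρ, 𝔼 x, F (J.piecewise ρ x) := by
  have inv : Function.Involutive fun z : (ι → Bool) × (ι → Bool) =>
      (J.piecewise z.1 z.2, J.piecewise z.2 z.1) := by
    intro z
    refine Prod.ext ?_ ?_ <;> funext i <;> by_cases h : i ∈ J <;> simp [h]
  rw [← expect_product', univ_product_univ]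
  have e : 𝔼 z : (ι → Bool) × (ι → Bool), F (J.piecewise z.1 z.2) =
      𝔼 z : (ι → Bool) × (ι → Bool), F z.1 :=
    Fintype.expect_equiv inv.toPerm _ _ fun _ => rfl
  rw [e, ← univ_product_univ, expect_product]
  simp

lemma Sup_bv_res (c : Finset ι → ℝ) (J : Finset ι) (ρ x : ι → Bool) :
    bv (res c J ρ) x = bv c (J.piecewise ρ x) := by
  unfold bv
  rw [ev_res]
  congr 1
  funext i
  by_cases h : i ∈ J <;> simp [h]

lemma Sup_plant {H J : Finset ι} (h : Disjoint H J) (ρ x : ι → Bool) :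
    plantH H (J.piecewise ρ x) = J.piecewise ρ (plantH H x) := by
  funext i
  by_cases hi : i ∈ J
  · have : i ∉ H := fun h' => disjoint_left.1 h h' hi
    simp [plantH, hi, this]
  · simp [plantH, hi]

lemma Sup_num {d N : ℕ} (hd : 1 ≤ d) (hN : 210 * d ≤ N) :
    (2 : ℝ) ^ (2 * N) * d + 8 * 9 ^ d * (32 * 81 ^ d * d ^ 2 / (1 / 2) ^ (9 * N)) ≤ 2 ^ (10 * N) := by
  have h1 : (d : ℝ) ≤ 2 ^ d := by exact_mod_cast (Nat.lt_two_pow_self (n := d)).le
  have h2 : (9 : ℝ) ^ d ≤ (2 ^ d) ^ 4 := by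
    rw [← pow_mul, mul_comm, pow_mul]
    exact pow_le_pow_left₀ (by norm_num) (by norm_num) d
  have h3 : (81 : ℝ) ^ d ≤ (2 ^ d) ^ 7 := by
    rw [← pow_mul, mul_comm, pow_mul]
    exact pow_le_pow_left₀ (by norm_num) (by norm_num) d
  have h4 : (2 : ℝ) ≤ 2 ^ d := by
    calc (2 : ℝ) = 2 ^ 1 := by norm_num
      _ ≤ 2 ^ d := pow_le_pow_right₀ (by norm_num) hd
  have h5 : ((2 : ℝ) ^ d) ^ 210 ≤ 2 ^ N := by
    rw [← pow_mul]
    exact pow_le_pow_right₀ (by norm_num) (by omega)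
  have h6 : (2 : ℝ) ^ (2 * N) ≤ 2 ^ (9 * N) := pow_le_pow_right₀ (by norm_num) (by omega)
  have e1 : (2 : ℝ) ^ (10 * N) = 2 ^ (9 * N) * 2 ^ N := by rw [← pow_add]; congr 1; omega
  rw [e1, one_div, inv_pow, div_inv_eq_mul]
  have hd0 : (0 : ℝ) ≤ d := Nat.cast_nonneg d
  generalize (2 : ℝ) ^ d = u at h1 h2 h3 h4 h5
  have h7 : (256 : ℝ) ≤ u ^ 8 := by
    calc (256 : ℝ) = 2 ^ 8 := by norm_num
      _ ≤ u ^ 8 := pow_le_pow_left₀ (by norm_num) h4 8
  have h8 : 8 * 9 ^ d * (32 * 81 ^ d * (d : ℝ) ^ 2) ≤ u ^ 21 := by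
    calc 8 * 9 ^ d * (32 * 81 ^ d * (d : ℝ) ^ 2) = 256 * 9 ^ d * 81 ^ d * (d : ℝ) ^ 2 := by ring
      _ ≤ u ^ 8 * u ^ 4 * u ^ 7 * u ^ 2 := by gcongr
      _ = u ^ 21 := by ring
  have h9 : u ≤ u ^ 21 := le_self_pow₀ (by linarith only [h4]) (by norm_num)
  have h10 : 2 * u ^ 21 ≤ u ^ 210 := by
    calc 2 * u ^ 21 ≤ u * u ^ 21 := by gcongr
      _ = u ^ 22 := by ring
      _ ≤ u ^ 210 := pow_le_pow_right₀ (by linarith only [h4]) (by norm_num)
  have hq : (0 : ℝ) < 2 ^ (9 * N) := by positivity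
  calc (2 : ℝ) ^ (2 * N) * d + 8 * 9 ^ d * (32 * 81 ^ d * d ^ 2 * 2 ^ (9 * N))
      = 2 ^ (2 * N) * d + 2 ^ (9 * N) * (8 * 9 ^ d * (32 * 81 ^ d * (d : ℝ) ^ 2)) := by ring
    _ ≤ 2 ^ (9 * N) * u ^ 21 + 2 ^ (9 * N) * u ^ 21 := by
        gcongr
        linarith only [h1, h9]
    _ = 2 ^ (9 * N) * (2 * u ^ 21) := by ring
    _ ≤ 2 ^ (9 * N) * 2 ^ N := by
        gcongr
        linarith only [h5, h10]

theorem flip_reg {Θ : Type} [Fintype Θ] [Nonempty Θ] (H : Θ → Finset ι) {d : ℕ} (hd : 1 ≤ d)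
    {p μ : ℝ} (h1 : ∀ i, pr (fun θ => i ∈ H θ) ≤ p) (hp : 0 ≤ p)
    (h2 : ∀ θ, 𝔼 θ', (ovl d (H θ ∩ H θ') : ℝ) ≤ μ) (k : ℕ) {c : Finset ι → ℝ} (hc : Deg c d)
    (hn : 0 < nrm c) (hr : reg c ≤ (1 / 2) ^ (9 * NN d k) * nrm c ^ 2) :
    flip H c ≤ (1 / 2) ^ k + 2 ^ (2 * NN d k) * (2 ^ d * μ + d * p) := by
  obtain ⟨c', hc', hn', hr', hf⟩ := Sup_norm H hc hn
  have hr2 : reg c' ≤ (1 / 2) ^ (9 * NN d k) := by
    rw [← hr'] at hr
    exact le_of_mul_le_mul_right hr (by positivity)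
  have ha := anti hc' hd hn' k hr2
  have hl := l2 H h1 hp h2 hc'
  rw [hn', mul_one] at hl
  obtain ⟨a, ha0, hae⟩ : ∃ a : ℝ, 0 < a ∧ a = (1 / 2) ^ NN d k := ⟨_, by positivity, rfl⟩
  rw [← hae] at ha
  have key : flip H c' ≤ (pr fun z : Θ × (ι → Bool) => |bv c' z.2| ≤ a) +
      pr fun z : Θ × (ι → Bool) => a ^ 2 < (bv c' (plantH (H z.1) z.2) - bv c' z.2) ^ 2 := by
    refine pr_le_add fun z hz => ?_
    by_cases h : |bv c' z.2| ≤ a
    · exact Or.inl h
    · refine Or.inr ?_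
      push Not at h
      generalize bv c' z.2 = u at h hz
      generalize bv c' (plantH (H z.1) z.2) = v at hz
      by_cases hu : 0 ≤ u
      · have hv : v < 0 := by
          by_contra hv
          exact hz ⟨fun _ => not_lt.1 hv, fun _ => hu⟩
        rw [abs_of_nonneg hu] at h
        linarith only [ha0, h, hv, mul_pos_of_neg_of_neg (Mathlib.Tactic.Linarith.sub_neg_of_lt ha0) (Mathlib.Tactic.Linarith.sub_neg_of_lt h), mul_pos_of_neg_of_neg (Mathlib.Tactic.Linarith.sub_neg_of_lt ha0) (Mathlib.Tactic.Linarith.sub_neg_of_lt hv), mul_pos_of_neg_of_neg (Mathlib.Tactic.Linarith.sub_neg_of_lt h) (Mathlib.Tactic.Linarith.sub_neg_of_lt h), mul_pos_of_neg_of_neg (Mathlib.Tactic.Linarith.sub_neg_of_lt h) (Mathlib.Tactic.Linarith.sub_neg_of_lt hv), mul_pos_of_neg_of_neg (Mathlib.Tactic.Linarith.sub_neg_of_lt hv) (Mathlib.Tactic.Linarith.sub_neg_of_lt hv)]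
      · have hv : 0 ≤ v := by
          by_contra hv
          exact hz ⟨fun h => absurd h hu, fun h => absurd h hv⟩
        rw [abs_of_neg (not_le.1 hu)] at h
        linarith only [ha0, h, hv, mul_pos_of_neg_of_neg (Mathlib.Tactic.Linarith.sub_neg_of_lt ha0) (Mathlib.Tactic.Linarith.sub_neg_of_lt h), mul_nonneg_of_nonpos_of_nonpos (le_of_lt (Mathlib.Tactic.Linarith.sub_neg_of_lt ha0)) (Mathlib.Tactic.Linarith.sub_nonpos_of_le hv), mul_pos_of_neg_of_neg (Mathlib.Tactic.Linarith.sub_neg_of_lt h) (Mathlib.Tactic.Linarith.sub_neg_of_lt h), mul_nonneg_of_nonpos_of_nonpos (le_of_lt (Mathlib.Tactic.Linarith.sub_neg_of_lt h)) (Mathlib.Tactic.Linarith.sub_nonpos_of_le hv), mul_nonneg_of_nonpos_of_nonpos (Mathlib.Tactic.Linarith.sub_nonpos_of_le hv) (Mathlib.Tactic.Linarith.sub_nonpos_of_le hv)]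
  have e1 : (pr fun z : Θ × (ι → Bool) => |bv c' z.2| ≤ a) = sm c' a := by
    rw [pr_prod]
    exact expect_const (univ_nonempty (α := Θ)) (sm c' a)
  have e2 := markov (f := fun z : Θ × (ι → Bool) =>
    (bv c' (plantH (H z.1) z.2) - bv c' z.2) ^ 2) (fun _ => sq_nonneg _) (pow_pos ha0 2)
  rw [← univ_product_univ, expect_product] at e2
  have e3 : (2 ^ d * μ + d * p) / a ^ 2 = 2 ^ (2 * NN d k) * (2 ^ d * μ + d * p) := by
    rw [hae, ← pow_mul, one_div, inv_pow, div_inv_eq_mul, mul_comm, mul_comm (NN d k)]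
  have e4 := div_le_div_of_nonneg_right hl (pow_pos ha0 2).le
  rw [← hf, ← e3]
  rw [e1] at key
  exact key.trans (add_le_add ha (e2.trans e4))

theorem flip_res {Θ : Type} [Fintype Θ] [Nonempty Θ] (H : Θ → Finset ι) {p : ℝ}
    (h1 : ∀ i, pr (fun θ => i ∈ H θ) ≤ p) (c : Finset ι → ℝ) (J : Finset ι) :
    flip H c ≤ J.card * p + 𝔼 ρ, flip H (res c J ρ) := by
  classical
  have hJ : (pr fun θ => ∃ i ∈ J, i ∈ H θ) ≤ J.card * p := by
    refine (pr_exists_le J fun i θ => i ∈ H θ).trans ?_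
    simpa using sum_le_card_nsmul J _ p fun i _ => h1 i
  have key : ∀ θ, (pr fun x => ¬ (0 ≤ bv c x ↔ 0 ≤ bv c (plantH (H θ) x))) ≤
      (if ∃ i ∈ J, i ∈ H θ then (1 : ℝ) else 0) +
      𝔼 ρ, pr fun x => ¬ (0 ≤ bv (res c J ρ) x ↔ 0 ≤ bv (res c J ρ) (plantH (H θ) x)) := by
    intro θ
    split_ifs with h
    · exact (pr_le_one _).trans (le_add_of_nonneg_right (expect_nonneg fun _ _ => pr_nonneg _))
    · have hd : Disjoint (H θ) J := disjoint_left.2 fun i hi hj => h ⟨i, hj, hi⟩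
      rw [zero_add]
      unfold pr
      rw [Sup_piece J]
      simp only [Sup_bv_res, Sup_plant hd]
      exact le_rfl
  unfold flip
  simp only [pr_prod]
  refine (expect_le_expect fun θ _ => key θ).trans ?_
  rw [expect_add_distrib, expect_comm]
  refine add_le_add (le_trans (le_of_eq ?_) hJ) le_rfl
  unfold pr
  exact expect_congr rfl fun θ _ => by congr

theorem flip_le {Θ : Type} [Fintype Θ] [Nonempty Θ] (H : Θ → Finset ι) {d : ℕ} (hd : 1 ≤ d)
    {p μ : ℝ} (h1 : ∀ i, pr (fun θ => i ∈ H θ) ≤ p) (hp : 0 ≤ p)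
    (h2 : ∀ θ, 𝔼 θ', (ovl d (H θ ∩ H θ') : ℝ) ≤ μ) (k : ℕ) {c : Finset ι → ℝ} (hc : Deg c d) :
    flip H c ≤ (1 / 2) ^ k + 2 ^ (10 * NN d k) * (μ + p) := by
  classical
  have hμ : 0 ≤ μ := le_trans (expect_nonneg fun _ _ => Nat.cast_nonneg _)
    (h2 (Classical.arbitrary Θ))
  have hN : 210 * d ≤ NN d k := by
    unfold NN
    linarith only [Nat.zero_le (Nat.log 2 d), Nat.zero_le (d * Nat.log 2 d), Nat.zero_le (d * k)]
  obtain ⟨ε, hε⟩ : ∃ ε : ℝ, ε = (1 / 2) ^ k + 2 ^ (2 * NN d k) * (2 ^ d * μ + d * p) := ⟨_, rfl⟩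
  obtain ⟨L, hL⟩ : ∃ L : ℝ, L = 32 * 81 ^ d * d ^ 2 / (1 / 2) ^ (9 * NN d k) := ⟨_, rfl⟩
  have hε0 : 0 ≤ ε := by rw [hε]; positivity
  have hL0 : 0 ≤ L := by rw [hL]; positivity
  have hK : (0 : ℝ) < 8 * 9 ^ d := by positivity
  have hbd : BddAbove {r : ℝ | ∃ c' : Finset ι → ℝ, Deg c' d ∧ flip H c' = r} :=
    ⟨1, by rintro r ⟨c', -, rfl⟩; exact pr_le_one _⟩
  obtain ⟨β, hβ⟩ : ∃ β, β = sSup {r : ℝ | ∃ c' : Finset ι → ℝ, Deg c' d ∧ flip H c' = r} :=
    ⟨_, rfl⟩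
  have hle : ∀ c' : Finset ι → ℝ, Deg c' d → flip H c' ≤ β := fun c' h =>
    hβ ▸ le_csSup hbd ⟨c', h, rfl⟩
  have main : β ≤ ε + 8 * 9 ^ d * L * p := by
    by_cases hc' : β ≤ ε
    · exact hc'.trans (le_add_of_nonneg_right (by positivity))
    push Not at hc'
    have hγ : (1 : ℝ) / (8 * 9 ^ d) ≤ 1 := by
      rw [div_le_one hK]
      have : (1 : ℝ) ≤ 9 ^ d := one_le_pow₀ (by norm_num)
      linarith only [this]
    have step : β ≤ L * p + (β - (β - ε) * (1 / (8 * 9 ^ d))) := by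
      nth_rewrite 1 [hβ]
      refine csSup_le ⟨_, c, hc, rfl⟩ ?_
      rintro r ⟨c₀, hc₀, rfl⟩
      rcases (nrm_nonneg c₀).eq_or_lt with h0 | h0
      · have hz : ∀ x, bv c₀ x = 0 := by
          intro x
          unfold bv ev
          refine sum_eq_zero fun A _ => ?_
          have := (sum_eq_zero_iff_of_nonneg fun A _ => sq_nonneg (c₀ A)).1 h0.symm A (mem_univ A)
          rw [pow_eq_zero_iff two_ne_zero] at this
          rw [this, zero_mul]
        have : flip H c₀ = 0 := by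
          unfold flip pr
          simp [hz]
        rw [this]
        have := mul_le_mul_of_nonneg_left hγ (sub_pos.2 hc').le
        have := mul_nonneg hL0 hp
        linarith
      · obtain ⟨c', hc1, hn1, -, hf⟩ := Sup_norm H hc₀ h0
        obtain ⟨J, hJ, hg⟩ := regular hc1 hd hn1 (τ := (1 / 2) ^ (9 * NN d k)) (by positivity)
        rw [← hf]
        refine (flip_res H h1 c' J).trans (add_le_add
          (mul_le_mul_of_nonneg_right (hL ▸ hJ) hp) ?_)
        refine le_trans ?_ (sub_le_sub_left (mul_le_mul_of_nonneg_left hg (sub_pos.2 hc').le) β)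
        unfold pr
        rw [mul_expect]
        nth_rewrite 1 [← expect_const (univ_nonempty (α := ι → Bool)) β]
        rw [← expect_sub_distrib]
        refine expect_le_expect fun ρ _ => ?_
        split_ifs with h
        · have := flip_reg H hd h1 hp h2 k (deg_res hc1 J ρ) h.1 h.2
          linarith only [hε, this]
        · have := hle _ (deg_res hc1 J ρ)
          linarith only [this]
    have h3 : (β - ε) / (8 * 9 ^ d) ≤ L * p := by
      rw [mul_one_div] at step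
      linarith only [step]
    rw [div_le_iff₀ hK] at h3
    linarith only [h3]
  have n1 := Sup_num hd hN
  rw [← hL] at n1
  have n2 : (2 : ℝ) ^ (2 * NN d k) * 2 ^ d ≤ 2 ^ (10 * NN d k) := by
    rw [← pow_add]
    exact pow_le_pow_right₀ (by norm_num) (by omega)
  have n3 := mul_le_mul_of_nonneg_right n1 hp
  have n4 := mul_le_mul_of_nonneg_right n2 hμ
  have := hle c hc
  rw [hε] at main
  linarith only [main, n3, n4, this]


end Pool.Agent.Work.MP_f474fe_lc.PT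
end

-- merged part: Pool.Agent.Work.MP_f474fe_lc.PT.Conv
section
/-!
Polynomials in 0-1 variables as multilinear polynomials in signs.

Plan. Functions of the form bv c with Deg c d are closed under sums and scalar multiples. A monomial
with exponent vector e evaluates at a 0-1 point to ∏ i ∈ e.support, (1 + sg (x i)) / 2
= ∑ A ∈ e.support.powerset, (1/2)^|support| * ∏ i ∈ A, sg (x i) (Finset.prod_one_add), and
|support| ≤ e.sum (fun _ n => n) ≤ totalDegree (MvPolynomial.le_totalDegree). MvPolynomial.eval_eq.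
-/

set_option linter.unusedSectionVars false

namespace Pool.Agent.Work.MP_f474fe_lc.PT

open Finset BigOperators

variable {ι : Type} [Fintype ι] [DecidableEq ι]


lemma conv_sum {κ : Type} (s : Finset κ) (F : κ → (ι → Bool) → ℝ) {d : ℕ}
    (h : ∀ j ∈ s, ∃ c : Finset ι → ℝ, Deg c d ∧ ∀ x, F j x = bv c x) :
    ∃ c : Finset ι → ℝ, Deg c d ∧ ∀ x, ∑ j ∈ s, F j x = bv c x := by
  classical
  choose! c hc using h
  refine ⟨fun A => ∑ j ∈ s, c j A, ?_, ?_⟩
  · intro A hA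
    obtain ⟨j, hj, hne⟩ := exists_ne_zero_of_sum_ne_zero hA
    exact (hc j hj).1 A hne
  · intro x
    rw [sum_congr rfl fun j hj => (hc j hj).2 x]
    unfold bv ev
    rw [sum_comm]
    exact sum_congr rfl fun A _ => by rw [sum_mul]

lemma conv_mono (r : ℝ) (D : Finset ι) {d : ℕ} (hD : D.card ≤ d) :
    ∃ c : Finset ι → ℝ, Deg c d ∧
      ∀ x : ι → Bool, r * ∏ i ∈ D, (if x i then (1 : ℝ) else 0) = bv c x := by
  refine ⟨fun A => if A ⊆ D then r * (1 / 2) ^ D.card else 0, ?_, ?_⟩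
  · intro A hA
    by_cases h : A ⊆ D
    · exact (card_le_card h).trans hD
    · simp [h] at hA
  · intro x
    have h1 : ∏ i ∈ D, (if x i then (1 : ℝ) else 0) = ∏ i ∈ D, ((1 / 2) * (1 + sg (x i))) :=
      prod_congr rfl fun i _ => by cases x i <;> norm_num [sg]
    rw [h1, prod_mul_distrib, prod_const, prod_one_add]
    unfold bv ev
    rw [← mul_assoc, mul_sum]
    rw [← sum_subset (subset_univ D.powerset)]
    · exact sum_congr rfl fun A hA => by simp only [if_pos (mem_powerset.1 hA)]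
    · intro A _ hA
      simp only [if_neg (fun h => hA (mem_powerset.2 h)), zero_mul]

theorem conv (p : MvPolynomial ι ℝ) {d : ℕ} (hp : p.totalDegree ≤ d) :
    ∃ c : Finset ι → ℝ, Deg c d ∧
      ∀ x : ι → Bool, MvPolynomial.eval (fun e => if x e then 1 else 0) p = bv c x := by
  have key := conv_sum (ι := ι) p.support
    (fun e x => p.coeff e * ∏ i ∈ e.support, (if x i then (1 : ℝ) else 0)) (d := d) ?_
  · obtain ⟨c, hc, h⟩ := key
    refine ⟨c, hc, fun x => ?_⟩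
    rw [← h x, MvPolynomial.eval_eq]
    refine sum_congr rfl fun e _ => ?_
    congr 1
    refine prod_congr rfl fun i hi => ?_
    have : e i ≠ 0 := Finsupp.mem_support_iff.1 hi
    cases x i <;> simp [this]
  · intro e he
    refine conv_mono _ _ ?_
    refine le_trans ?_ ((MvPolynomial.le_totalDegree he).trans hp)
    rw [Finsupp.sum, card_eq_sum_ones]
    exact sum_le_sum fun i hi => Nat.one_le_iff_ne_zero.2 (Finsupp.mem_support_iff.1 hi)


end Pool.Agent.Work.MP_f474fe_lc.PT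
end

-- merged part: Pool.Agent.Work.MP_f474fe_lc.PT.Main
section
/-!
Final inequality.
-/

set_option linter.unusedSectionVars false

namespace Pool.Agent.Work.MP_f474fe_lc.PT

open Finset BigOperators

variable {ι : Type} [Fintype ι] [DecidableEq ι]


theorem flip_final {Θ : Type} [Fintype Θ] [Nonempty Θ] (H : Θ → Finset ι) {d : ℕ} (hd : 1 ≤ d)
    {p μ lam : ℝ} (h1 : ∀ i, pr (fun θ => i ∈ H θ) ≤ p) (hp : 0 ≤ p)
    (h2 : ∀ θ, 𝔼 θ', (ovl d (H θ ∩ H θ') : ℝ) ≤ μ) (hlam : 0 < lam)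
    (h3 : μ + p ≤ 5 * d * (2 * d) ^ (2 * d) * lam) {c : Finset ι → ℝ} (hc : Deg c d) :
    flip H c ≤ 256 * d * lam ^ (1 / (500 * d) : ℝ) := by
  set r : ℝ := lam ^ (1 / (500 * d) : ℝ) with hr
  have hdR : (1 : ℝ) ≤ d := by exact_mod_cast hd
  have hr0 : 0 < r := Real.rpow_pos_of_pos hlam _
  have hrl : r ^ (500 * d) = lam := by
    rw [hr, ← Real.rpow_natCast, ← Real.rpow_mul hlam.le]
    have : (1 / (500 * d) : ℝ) * ((500 * d : ℕ) : ℝ) = 1 := by
      push_cast; field_simp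
    rw [this, Real.rpow_one]
  set y : ℝ := 64 * d * r with hy
  have hy0 : 0 < y := by positivity
  by_cases hy1 : 1 ≤ y
  · have : flip H c ≤ 1 := pr_le_one _
    linarith only [hy0, hy1, this]
  push Not at hy1
  obtain ⟨k, hk1, hk2⟩ := exists_nat_pow_near_of_lt_one hy0 hy1.le
    (by norm_num : (0 : ℝ) < 1 / 2) (by norm_num)
  have hmain := flip_le H hd h1 hp h2 k hc
  have hJ : (2 : ℝ) ^ (Nat.log 2 d + 6) ≤ 64 * d := by
    have : 2 ^ Nat.log 2 d ≤ d := Nat.pow_log_le_self 2 (by omega)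
    have h' : (2 : ℝ) ^ Nat.log 2 d ≤ d := by exact_mod_cast this
    rw [pow_add]; linarith only [h']
  have h64 : (1 : ℝ) ≤ 64 * d := by linarith only [hdR, hy0, hy1]
  have hA : (2 : ℝ) ^ (10 * NN d k) ≤ (64 * d) ^ (350 * d) * 2 ^ (440 * d * k) := by
    have : 10 * NN d k = (Nat.log 2 d + 6) * (350 * d) + 440 * d * k := by unfold NN; ring
    rw [this, pow_add, pow_mul]
    gcongr
  have hB : (5 : ℝ) * d * (2 * d) ^ (2 * d) ≤ (64 * d) ^ (150 * d) := by
    have e1 : (5 : ℝ) * d ≤ (64 * d) ^ (148 * d) := by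
      calc (5 : ℝ) * d ≤ 64 * d := by linarith only [hdR, hy0, hy1]
        _ = (64 * d) ^ 1 := (pow_one _).symm
        _ ≤ _ := pow_le_pow_right₀ h64 (by omega)
    have e2 : (2 * (d : ℝ)) ^ (2 * d) ≤ (64 * d) ^ (2 * d) := by gcongr; norm_num
    calc (5 : ℝ) * d * (2 * d) ^ (2 * d) ≤ (64 * d) ^ (148 * d) * (64 * d) ^ (2 * d) := by gcongr
      _ = _ := by rw [← pow_add]; congr 1; ring
  have hC : (64 * (d : ℝ)) ^ (500 * d) * lam ≤ (1 / 2) ^ (k * (500 * d)) := by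
    rw [← hrl, ← mul_pow, pow_mul (1 / 2 : ℝ) k]
    exact pow_le_pow_left₀ hy0.le hk2 _
  have hD : (2 : ℝ) ^ (10 * NN d k) * (μ + p) ≤ (1 / 2) ^ k := by
    calc (2 : ℝ) ^ (10 * NN d k) * (μ + p)
        ≤ 2 ^ (10 * NN d k) * (5 * d * (2 * d) ^ (2 * d) * lam) := by gcongr
      _ ≤ ((64 * d) ^ (350 * d) * 2 ^ (440 * d * k)) * ((64 * d) ^ (150 * d) * lam) := by gcongr
      _ = 2 ^ (440 * d * k) * ((64 * d) ^ (500 * d) * lam) := by
          have : 500 * d = 350 * d + 150 * d := by ring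
          rw [this, pow_add]; ring
      _ ≤ 2 ^ (440 * d * k) * (1 / 2) ^ (k * (500 * d)) := by gcongr
      _ = (1 / 2) ^ (60 * d * k) := by
          have : k * (500 * d) = 440 * d * k + 60 * d * k := by ring
          rw [this, pow_add, ← mul_assoc, ← mul_pow]; norm_num
      _ ≤ (1 / 2) ^ k := by
          apply pow_le_pow_of_le_one (by norm_num) (by norm_num)
          nlinarith only [hd]
  rw [pow_succ] at hk1
  linarith only [hk1, hmain, hD]

lemma main_pr_and {Ω Ω' : Type} [Fintype Ω] [Fintype Ω'] (P : Ω → Prop) (Q : Ω' → Prop) :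
    pr (fun z : Ω × Ω' => P z.1 ∧ Q z.2) = pr P * pr Q := by
  classical
  unfold pr
  rw [← univ_product_univ, expect_product, expect_mul]
  refine expect_congr rfl fun a _ => ?_
  rw [mul_expect]
  refine expect_congr rfl fun b _ => ?_
  by_cases hp : P a <;> by_cases hq : Q b <;> simp [hp, hq]

lemma main_ovl {m n d : ℕ} (hd : 1 ≤ d) (S S' : Finset (Fin m)) (T T' : Finset (Fin n)) :
    (ovl d (S ×ˢ T ∩ S' ×ˢ T') : ℝ) ≤ d * (((S ∩ S').card : ℝ) ^ d * ((T ∩ T').card : ℝ) ^ d) := by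
  refine (ovl_le hd _).trans ?_
  rw [product_inter_product, card_product]
  push_cast
  rw [mul_pow]

lemma main_exp {x : ℝ} : x ≤ Real.exp x - 1 := by linarith [Real.add_one_le_exp x]

theorem ptf_main (m n km kn : ℕ) (E : Fin n → Fin kn) (hkm : 1 ≤ km) (hkm' : km ≤ m)
    (hkn : 1 ≤ kn) (hkn' : kn ≤ n) (hdvd : kn ∣ n)
    (hE : ∀ j, (univ.filter fun v => E v = j).card = n / kn) (s d : ℕ) (hd : 1 ≤ d)
    (A : (Fin m × Fin n → Bool) → Bool) (hA : PTFTest s d A) :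
    1 - 256 * s * d * ((Real.exp ((km : ℝ) ^ 2 / m) - 1) * (Real.exp ((kn : ℝ) ^ 2 / n) - 1)) ^
      (1 / (500 * d) : ℝ) ≤ totalError km E A := by
  classical
  obtain ⟨q, g, hq, hg⟩ := hA
  choose c hc hcv using fun i => conv (q i) (hq i)
  have : Nonempty {S : Finset (Fin m) // S.card = km} := by
    obtain ⟨S, -, hS⟩ := exists_subset_card_eq (s := (univ : Finset (Fin m))) (n := km)
      (by simpa using hkm')
    exact ⟨⟨S, hS⟩⟩
  have : Nonempty {T : Finset (Fin n) // Transversal E T} := by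
    obtain ⟨T, hT⟩ := exists_trans E hkn hkn' hE
    exact ⟨⟨T, hT⟩⟩
  let Θ := {S : Finset (Fin m) // S.card = km} × {T : Finset (Fin n) // Transversal E T}
  let H : Θ → Finset (Fin m × Fin n) := fun θ => θ.1.1 ×ˢ θ.2.1
  have hS := subprod_subsets m km hkm'
  have hT := subprod_trans E hdvd hkn hkn' hE
  have hm0 : (0 : ℝ) < m := by exact_mod_cast (by omega : 0 < m)
  have hn0 : (0 : ℝ) < n := by exact_mod_cast (by omega : 0 < n)
  have hkm1 : (1 : ℝ) ≤ km := by exact_mod_cast hkm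
  have hkn1 : (1 : ℝ) ≤ kn := by exact_mod_cast hkn
  have hdR : (1 : ℝ) ≤ d := by exact_mod_cast hd
  set a : ℝ := Real.exp ((km : ℝ) ^ 2 / m) - 1 with ha
  set b : ℝ := Real.exp ((kn : ℝ) ^ 2 / n) - 1 with hb
  have ha1 : (km : ℝ) / m ≤ a := by
    refine le_trans ?_ main_exp
    gcongr; linarith only [hkm1, mul_nonneg_of_nonpos_of_nonpos (Mathlib.Tactic.Linarith.sub_nonpos_of_le (Mathlib.Tactic.Linarith.natCast_nonneg ℝ km)) (Mathlib.Tactic.Linarith.sub_nonpos_of_le hkm1)]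
  have hb1 : (kn : ℝ) / n ≤ b := by
    refine le_trans ?_ main_exp
    gcongr; linarith only [hkn1, mul_nonneg_of_nonpos_of_nonpos (Mathlib.Tactic.Linarith.sub_nonpos_of_le (Mathlib.Tactic.Linarith.natCast_nonneg ℝ kn)) (Mathlib.Tactic.Linarith.sub_nonpos_of_le hkn1)]
  have hpa : (0 : ℝ) < km / m := by positivity
  have hpb : (0 : ℝ) < kn / n := by positivity
  have ha0 : 0 < a := hpa.trans_le ha1
  have hb0 : 0 < b := hpb.trans_le hb1
  have h1 : ∀ e, pr (fun θ : Θ => e ∈ H θ) ≤ (km : ℝ) / m * (kn / n) := by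
    intro e
    have e1 : pr (fun θ : Θ => e ∈ H θ) =
        pr (fun θ : Θ => ({e.1} : Finset (Fin m)) ⊆ θ.1.1 ∧ ({e.2} : Finset (Fin n)) ⊆ θ.2.1) :=
      pr_congr fun θ => by simp [H, mem_product]
    rw [e1, main_pr_and (fun S : {S : Finset (Fin m) // S.card = km} => {e.1} ⊆ S.1)
      (fun T : {T : Finset (Fin n) // Transversal E T} => {e.2} ⊆ T.1)]
    have e2 := hS {e.1}
    have e3 := hT {e.2}
    rw [card_singleton, pow_one] at e2 e3
    exact mul_le_mul e2 e3 (pr_nonneg _) hpa.le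
  have h2 : ∀ θ : Θ, 𝔼 θ', (ovl d (H θ ∩ H θ') : ℝ) ≤ 4 * d * (2 * d) ^ (2 * d) * (a * b) := by
    intro θ
    have e1 := overlap_moment hS hpa.le θ.1.1 hd
    have e2 := overlap_moment hT hpb.le θ.2.1 hd
    rw [θ.1.2] at e1
    rw [trans_card θ.2.2] at e2
    have f1 : (km : ℝ) * (km / m) = (km : ℝ) ^ 2 / m := by ring
    have f2 : (kn : ℝ) * (kn / n) = (kn : ℝ) ^ 2 / n := by ring
    rw [f1, ← ha] at e1
    rw [f2, ← hb] at e2
    calc 𝔼 θ' : Θ, (ovl d (H θ ∩ H θ') : ℝ)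
        ≤ 𝔼 θ' : Θ, (d : ℝ) * (((θ.1.1 ∩ θ'.1.1).card : ℝ) ^ d * ((θ.2.1 ∩ θ'.2.1).card : ℝ) ^ d) := by
          exact expect_le_expect fun θ' _ => main_ovl hd _ _ _ _
      _ = d * ((𝔼 S : {S : Finset (Fin m) // S.card = km}, ((θ.1.1 ∩ S.1).card : ℝ) ^ d) *
            𝔼 T : {T : Finset (Fin n) // Transversal E T}, ((θ.2.1 ∩ T.1).card : ℝ) ^ d) := by
          rw [← mul_expect, expect_mul_expect, ← univ_product_univ, expect_product]
      _ ≤ d * ((2 * (2 * d) ^ d * a) * (2 * (2 * d) ^ d * b)) := by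
          exact mul_le_mul_of_nonneg_left (mul_le_mul e1 e2
            (expect_nonneg fun _ _ => pow_nonneg (Nat.cast_nonneg _) _)
            (mul_nonneg (by positivity) ha0.le)) (Nat.cast_nonneg _)
      _ = _ := by rw [two_mul d, pow_add]; ring
  have h3 : 4 * d * (2 * d) ^ (2 * d) * (a * b) + (km : ℝ) / m * (kn / n) ≤
      5 * d * (2 * d) ^ (2 * d) * (a * b) := by
    have e1 : (km : ℝ) / m * (kn / n) ≤ a * b := mul_le_mul ha1 hb1 hpb.le ha0.le
    have e2 : (1 : ℝ) ≤ d * (2 * d) ^ (2 * d) :=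
      one_le_mul_of_one_le_of_one_le hdR (one_le_pow₀ (by linarith only [hdR]))
    have e3 : 0 < a * b := mul_pos ha0 hb0
    linarith only [e1, e2, e3, mul_nonneg_of_nonpos_of_nonpos (Mathlib.Tactic.Linarith.sub_nonpos_of_le e2) (le_of_lt (Mathlib.Tactic.Linarith.sub_neg_of_lt e3))]
  have hflip : ∀ i, flip H (c i) ≤ 256 * d * (a * b) ^ (1 / (500 * d) : ℝ) := fun i =>
    flip_final H hd h1 (by positivity) h2 (mul_pos ha0 hb0) h3 (hc i)
  have hcardG : (Fintype.card (Fin m × Fin n → Bool) : ℝ) = 2 ^ (m * n) := by simp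
  have hsec : (Secrets m km E).card = Fintype.card Θ := by
    rw [← card_univ]
    symm
    refine card_nbij (fun θ : Θ => (θ.1.1, θ.2.1)) ?_ ?_ ?_
    · intro θ _
      simp [Secrets, θ.1.2, θ.2.2]
    · intro θ _ θ' _ h
      simp only [Prod.mk.injEq] at h
      exact Prod.ext (Subtype.ext h.1) (Subtype.ext h.2)
    · intro ST hST
      simp only [Secrets, coe_filter, mem_univ, true_and, Set.mem_ofPred_eq] at hST
      exact ⟨(⟨ST.1, hST.1⟩, ⟨ST.2, hST.2⟩), by simp, rfl⟩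
  have hplant : ∀ (θ : Θ) (G : Fin m × Fin n → Bool),
      plant G (θ.1.1, θ.2.1) = plantH (H θ) G := by
    intro θ G
    funext e
    simp [plant, plantH, H, mem_product]
  have hT1 : ((univ.filter fun G => A G = true).card : ℝ) / 2 ^ (m * n) =
      1 - pr fun z : Θ × (Fin m × Fin n → Bool) => A z.2 = false := by
    rw [pr_prod]
    dsimp only
    rw [expect_const univ_nonempty, ← pr_not, pr_eq_card, hcardG]
    congr 2
    exact congrArg card (filter_congr fun G _ => by simp)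
  have hT2 : (((univ ×ˢ Secrets m km E).filter fun z => A (plant z.1 z.2) = false).card : ℝ) /
      (2 ^ (m * n) * (Secrets m km E).card) =
      pr fun z : Θ × (Fin m × Fin n → Bool) => A (plantH (H z.1) z.2) = false := by
    rw [pr_eq_card, Fintype.card_prod, hsec]
    push_cast
    rw [hcardG, mul_comm ((2 : ℝ) ^ (m * n))]
    congr 2
    symm
    refine card_nbij (fun z : Θ × (Fin m × Fin n → Bool) => (z.2, (z.1.1.1, z.1.2.1))) ?_ ?_ ?_
    · intro z hz
      simp only [coe_filter, mem_univ, true_and, Set.mem_ofPred_eq] at hz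
      simp only [coe_filter, mem_product, mem_univ, true_and, Set.mem_ofPred_eq, hplant]
      exact ⟨by simp [Secrets, z.1.1.2, z.1.2.2], hz⟩
    · intro z _ z' _ h
      simp only [Prod.mk.injEq] at h
      exact Prod.ext (Prod.ext (Subtype.ext h.2.1) (Subtype.ext h.2.2)) h.1
    · intro z hz
      simp only [coe_filter, mem_product, mem_univ, true_and, Set.mem_ofPred_eq, Secrets,
        mem_filter] at hz
      refine ⟨((⟨z.2.1, hz.1.1⟩, ⟨z.2.2, hz.1.2⟩), z.1), ?_, rfl⟩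
      simp only [coe_filter, mem_univ, true_and, Set.mem_ofPred_eq]
      rw [← hplant]
      exact hz.2
  have hU : (pr fun z : Θ × (Fin m × Fin n → Bool) => A z.2 = false) ≤
      (pr fun z : Θ × (Fin m × Fin n → Bool) => A (plantH (H z.1) z.2) = false) +
        pr fun z : Θ × (Fin m × Fin n → Bool) => ∃ i ∈ (univ : Finset (Fin s)),
          ¬ (0 ≤ bv (c i) z.2 ↔ 0 ≤ bv (c i) (plantH (H z.1) z.2)) := by
    refine pr_le_add fun z hz => ?_
    by_contra hcon
    push Not at hcon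
    apply hcon.1
    rw [← hz, hg, hg]
    congr 1
    funext i
    rw [hcv, hcv]
    exact decide_eq_decide.2 (hcon.2 i (mem_univ i)).symm
  have hV := pr_exists_le (univ : Finset (Fin s))
    (fun i (z : Θ × (Fin m × Fin n → Bool)) =>
      ¬ (0 ≤ bv (c i) z.2 ↔ 0 ≤ bv (c i) (plantH (H z.1) z.2)))
  have hW : ∑ i : Fin s, flip H (c i) ≤ s * (256 * d * (a * b) ^ (1 / (500 * d) : ℝ)) := by
    calc ∑ i : Fin s, flip H (c i) ≤ ∑ _i : Fin s, 256 * d * (a * b) ^ (1 / (500 * d) : ℝ) :=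
          sum_le_sum fun i _ => hflip i
      _ = _ := by simp
  unfold totalError
  rw [hT1, hT2]
  have hV' : (pr fun z : Θ × (Fin m × Fin n → Bool) => ∃ i ∈ (univ : Finset (Fin s)),
          ¬ (0 ≤ bv (c i) z.2 ↔ 0 ≤ bv (c i) (plantH (H z.1) z.2))) ≤
      ∑ i : Fin s, flip H (c i) := hV
  linarith only [hU, hW, hV']


end Pool.Agent.Work.MP_f474fe_lc.PT
end
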